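import Mathlib

/-!
# The automorphisms of the alternating groups of degree at least five and different from six
-/

set_option autoImplicit false
set_option linter.unusedSectionVars false

namespace Pool.Agent.V8H87.CM

open Equiv Equiv.Perm

/-! ### Centralizers -/

theorem fact3 (m : ℕ) : (m + 3).factorial =
    (m + 2 + 1) * ((m + 1 + 1) * ((m + 1) * m.factorial)) := rfl

theorem fact1 (m : ℕ) : (m + 1).factorial = (m + 1) * m.factorial := rfl

/-- the comparison of the orders of the centralizers -/
theorem fact_ineq (r k : ℕ) (hr : 2 ≤ r) (hk : r = 2 → 1 ≤ k) :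
    2 * (k.factorial * 3 ^ r * r.factorial) < 3 * (3 * r + k - 3).factorial := by
  -- first two base cases
  have step : ∀ r k : ℕ, 2 ≤ r → 2 * (k.factorial * 3 ^ r * r.factorial) <
      3 * (3 * r + k - 3).factorial → 2 * (k.factorial * 3 ^ (r + 1) * (r + 1).factorial) <
      3 * (3 * (r + 1) + k - 3).factorial := by
    intro r k hr h
    obtain ⟨m, hm⟩ : ∃ m, 3 * r + k - 3 = m := ⟨_, rfl⟩
    have e : 3 * (r + 1) + k - 3 = m + 3 := by omega
    rw [e, fact3, pow_succ, fact1 r]
    rw [hm] at h
    have h1 : 3 * (r + 1) ≤ (m + 2 + 1) * ((m + 1 + 1) * (m + 1)) := by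
      have h2 : r + 1 ≤ m + 3 := by omega
      have h3 : 3 ≤ (m + 1 + 1) * (m + 1) := by
        have : 1 ≤ m := by omega
        nlinarith
      calc 3 * (r + 1) ≤ 3 * (m + 3) := by omega
        _ = (m + 3) * 3 := by ring
        _ ≤ (m + 2 + 1) * ((m + 1 + 1) * (m + 1)) := Nat.mul_le_mul_left _ h3
    calc 2 * (k.factorial * (3 ^ r * 3) * ((r + 1) * r.factorial)) =
          (3 * (r + 1)) * (2 * (k.factorial * 3 ^ r * r.factorial)) := by ring
      _ < (3 * (r + 1)) * (3 * m.factorial) := by
          apply Nat.mul_lt_mul_of_pos_left h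
          omega
      _ ≤ ((m + 2 + 1) * ((m + 1 + 1) * (m + 1))) * (3 * m.factorial) :=
          Nat.mul_le_mul_right _ h1
      _ = 3 * ((m + 2 + 1) * ((m + 1 + 1) * ((m + 1) * m.factorial))) := by ring
  rcases Nat.eq_or_lt_of_le hr with h2 | h2
  · subst h2
    have hk1 := hk rfl
    have e : 3 * 2 + k - 3 = k + 3 := by omega
    rw [e, fact3]
    have h1 : 24 ≤ (k + 2 + 1) * ((k + 1 + 1) * (k + 1)) := by
      have a1 : 4 ≤ k + 2 + 1 := by omega
      have a2 : 3 ≤ k + 1 + 1 := by omega
      have a3 : 2 ≤ k + 1 := by omega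
      calc 24 = 4 * (3 * 2) := by norm_num
        _ ≤ _ := Nat.mul_le_mul a1 (Nat.mul_le_mul a2 a3)
    have hp := Nat.factorial_pos k
    have e2 : Nat.factorial 2 = 2 := rfl
    rw [e2]
    calc 2 * (k.factorial * 3 ^ 2 * 2) = 36 * k.factorial := by ring
      _ < 3 * (24 * k.factorial) := by omega
      _ ≤ 3 * (((k + 2 + 1) * ((k + 1 + 1) * (k + 1))) * k.factorial) :=
          Nat.mul_le_mul_left _ (Nat.mul_le_mul_right _ h1)
      _ = 3 * ((k + 2 + 1) * ((k + 1 + 1) * ((k + 1) * k.factorial))) := by ring
  · -- r ≥ 3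
    have key : ∀ s : ℕ, 2 * (k.factorial * 3 ^ (s + 3) * (s + 3).factorial) <
        3 * (3 * (s + 3) + k - 3).factorial := by
      intro s
      induction s with
      | zero =>
        have e : 3 * (0 + 3) + k - 3 = k + 6 := by omega
        rw [e]
        have h1 : k.factorial * 720 ≤ (k + 6).factorial := by
          have := Nat.factorial_mul_factorial_dvd_factorial_add k 6
          have h6 : Nat.factorial 6 = 720 := rfl
          rw [h6] at this
          exact Nat.le_of_dvd (Nat.factorial_pos _) this
        have hp := Nat.factorial_pos k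
        have e2 : Nat.factorial (0 + 3) = 6 := rfl
        rw [e2]
        calc 2 * (k.factorial * 3 ^ (0 + 3) * 6) = 324 * k.factorial := by ring
          _ < 3 * (k.factorial * 720) := by omega
          _ ≤ _ := Nat.mul_le_mul_left _ h1
      | succ s ih => exact step (s + 3) k (by omega) ih
    obtain ⟨s, rfl⟩ : ∃ s, r = s + 3 := ⟨r - 3, by omega⟩
    exact key s

section cen

variable {n : ℕ}

/-- the centralizer in the alternating group is at least half of the centralizer -/
theorem card_cen_le (t : alternatingGroup (Fin n)) :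
    Nat.card (Subgroup.centralizer {(t : Perm (Fin n))}) ≤
      2 * Nat.card (Subgroup.centralizer {t}) := by
  let C := Subgroup.centralizer {(t : Perm (Fin n))}
  let f : C →* ℤˣ := Perm.sign.comp C.subtype
  have h1 : Nat.card f.ker * f.ker.index = Nat.card C := Subgroup.card_mul_index _
  have h2 : f.ker.index ≤ 2 := by
    rw [Subgroup.index_ker]
    have h3 : Nat.card f.range ≤ Nat.card ℤˣ := Subgroup.card_le_card_group _
    have h4 : Nat.card ℤˣ = 2 := by
      rw [Nat.card_eq_fintype_card]
      rfl
    omega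
  have h3 : Nat.card f.ker ≤ Nat.card (Subgroup.centralizer {t}) := by
    let g : f.ker → Subgroup.centralizer {t} := fun x =>
      ⟨⟨((x : C) : Perm (Fin n)), by
        rw [Perm.mem_alternatingGroup]
        exact x.2⟩, by
        rw [Subgroup.mem_centralizer_singleton_iff]
        apply Subtype.ext
        have := (Subgroup.mem_centralizer_singleton_iff.1 (x : C).2)
        exact this⟩
    refine Nat.card_le_card_of_injective g ?_
    intro x y hxy
    have h5 := congrArg (fun z : Subgroup.centralizer {t} =>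
      (((z : alternatingGroup (Fin n))) : Perm (Fin n))) hxy
    exact Subtype.ext (Subtype.ext h5)
  calc Nat.card C = Nat.card f.ker * f.ker.index := h1.symm
    _ ≤ Nat.card (Subgroup.centralizer {t}) * 2 := Nat.mul_le_mul h3 h2
    _ = _ := mul_comm _ _

theorem card_cen_ge (t : alternatingGroup (Fin n)) :
    Nat.card (Subgroup.centralizer {t}) ≤
      Nat.card (Subgroup.centralizer {(t : Perm (Fin n))}) := by
  let g : Subgroup.centralizer {t} → Subgroup.centralizer {(t : Perm (Fin n))} := fun x =>
    ⟨((x : alternatingGroup (Fin n)) : Perm (Fin n)), by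
      rw [Subgroup.mem_centralizer_singleton_iff]
      have := (Subgroup.mem_centralizer_singleton_iff.1 x.2)
      exact congrArg Subtype.val this⟩
  refine Nat.card_le_card_of_injective g ?_
  intro x y hxy
  have h5 := congrArg (fun z : Subgroup.centralizer {(t : Perm (Fin n))} => (z : Perm (Fin n))) hxy
  exact Subtype.ext (Subtype.ext h5)

theorem card_cen_aut (α : MulAut (alternatingGroup (Fin n))) (t : alternatingGroup (Fin n)) :
    Nat.card (Subgroup.centralizer {t}) = Nat.card (Subgroup.centralizer {α t}) := by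
  refine Nat.card_congr ?_
  refine { toFun := fun x => ⟨α x, ?_⟩, invFun := fun x => ⟨α.symm x, ?_⟩,
           left_inv := fun x => ?_, right_inv := fun x => ?_ }
  · rw [Subgroup.mem_centralizer_singleton_iff]
    have := (Subgroup.mem_centralizer_singleton_iff.1 x.2)
    rw [← map_mul, this, map_mul]
  · rw [Subgroup.mem_centralizer_singleton_iff]
    have := (Subgroup.mem_centralizer_singleton_iff.1 x.2)
    apply α.injective
    rw [map_mul, map_mul, MulEquiv.apply_symm_apply, this]
  · exact Subtype.ext (α.symm_apply_apply _)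
  · exact Subtype.ext (α.apply_symm_apply _)

/-- automorphisms send three cycles to three cycles -/
theorem aut_three (hn : 5 ≤ n) (h6 : n ≠ 6) (α : MulAut (alternatingGroup (Fin n)))
    (t : alternatingGroup (Fin n)) (ht : IsThreeCycle (t : Perm (Fin n))) :
    IsThreeCycle ((α t : alternatingGroup (Fin n)) : Perm (Fin n)) := by
  have ho : orderOf ((α t : alternatingGroup (Fin n)) : Perm (Fin n)) = 3 := by
    rw [Subgroup.orderOf_coe, MulEquiv.orderOf_eq, ← Subgroup.orderOf_coe]
    exact ht.orderOf
  obtain ⟨m, hm⟩ := cycleType_prime_order (σ := ((α t : alternatingGroup (Fin n)) : Perm (Fin n)))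
    (by rw [ho]; exact Nat.prime_three)
  rw [ho] at hm
  rcases Nat.eq_zero_or_pos m with h0 | hpos
  · subst h0
    rw [IsThreeCycle, hm]
    rfl
  · exfalso
    have hsum : 3 * (m + 1) ≤ n := by
      have := sum_cycleType_le (((α t : alternatingGroup (Fin n)) : Perm (Fin n)))
      rw [hm, Multiset.sum_replicate, smul_eq_mul, Fintype.card_fin] at this
      omega
    have c1 : Nat.card (Subgroup.centralizer {(t : Perm (Fin n))}) =
        (n - 3).factorial * 3 := by
      rw [nat_card_centralizer, ht.cycleType]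
      simp
    have c2 : Nat.card (Subgroup.centralizer {((α t : alternatingGroup (Fin n)) : Perm (Fin n))}) =
        (n - 3 * (m + 1)).factorial * 3 ^ (m + 1) * (m + 1).factorial := by
      rw [nat_card_centralizer, hm, Multiset.sum_replicate, Multiset.prod_replicate,
        Fintype.card_fin, Multiset.toFinset_replicate, if_neg (by omega), Finset.prod_singleton,
        Multiset.count_replicate_self, smul_eq_mul, mul_comm (m + 1) 3]
    have k1 := card_cen_le t
    have k2 := card_cen_ge (α t)
    rw [card_cen_aut α t] at k1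
    rw [c1] at k1
    rw [c2] at k2
    have k3 := fact_ineq (m + 1) (n - 3 * (m + 1)) (by omega) (by
      intro h
      omega)
    have e : 3 * (m + 1) + (n - 3 * (m + 1)) - 3 = n - 3 := by omega
    rw [e] at k3
    omega

end cen

/-! ### Three cycles -/

section three

variable {n : ℕ}

theorem three_cube {v : Perm (Fin n)} (hv : IsThreeCycle v) (x : Fin n) : v (v (v x)) = x := by
  have h := pow_orderOf_eq_one v
  rw [hv.orderOf] at h
  have h2 : (v ^ 3) x = x := by rw [h]; rfl
  exact h2

/-- the support -/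
theorem three_supp {v : Perm (Fin n)} (hv : IsThreeCycle v) {x y : Fin n} (hx : v x ≠ x)
    (hy : v y ≠ y) : y = x ∨ y = v x ∨ y = v (v x) := by
  have h3 := three_cube hv x
  have hsub : ({x, v x, v (v x)} : Finset (Fin n)) ⊆ v.support := by
    intro z hz
    simp only [Finset.mem_insert, Finset.mem_singleton] at hz
    rw [Perm.mem_support]
    rcases hz with rfl | rfl | rfl
    · exact hx
    · intro h
      exact hx (v.injective h)
    · intro h
      exact hx (v.injective (v.injective h))
  have h1 : v x ≠ v (v x) := fun h => hx (v.injective h).symm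
  have h2 : x ≠ v (v x) := by
    intro h
    have h4 : v x = x := by
      conv_lhs => rw [h]
      exact h3
    exact hx h4
  have hcard : ({x, v x, v (v x)} : Finset (Fin n)).card = 3 := by
    rw [Finset.card_insert_of_notMem, Finset.card_pair h1]
    rw [Finset.mem_insert, Finset.mem_singleton]
    rintro (h | h)
    · exact hx h.symm
    · exact h2 h
  have heq : ({x, v x, v (v x)} : Finset (Fin n)) = v.support := by
    refine Finset.eq_of_subset_of_card_le hsub ?_
    rw [hcard, hv.card_support]
  have hy' : y ∈ v.support := Perm.mem_support.2 hy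
  rw [← heq] at hy'
  simpa only [Finset.mem_insert, Finset.mem_singleton] using hy'

/-- two three cycles whose product is an involution share an arrow -/
theorem share {v w : Perm (Fin n)} (hv : IsThreeCycle v) (hw : IsThreeCycle w)
    (h2 : ∀ x, v (w (v (w x))) = x) (h1 : v * w ≠ 1) : ∃ a, v a ≠ a ∧ w a = v a := by
  by_cases hsub : ∃ x, w x ≠ x ∧ v x = x
  · obtain ⟨x, hx, hvx⟩ := hsub
    -- v (w x) = w (w x)
    have e1 : v (w x) = w (w x) := by
      -- v w v w y = y with w y = x, y = w (w x)
      have h := h2 (w (w x))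
      rw [three_cube hw x, hvx] at h
      exact h
    refine ⟨w x, ?_, e1.symm⟩
    rw [e1]
    intro h
    exact hx (w.injective h)
  · push Not at hsub
    -- the supports are equal
    have hle : w.support ⊆ v.support := by
      intro x hx
      rw [Perm.mem_support] at hx ⊢
      exact hsub x hx
    have heq : w.support = v.support := by
      refine Finset.eq_of_subset_of_card_le hle ?_
      rw [hv.card_support, hw.card_support]
    by_contra hcon
    push Not at hcon
    apply h1
    ext1 x
    show v (w x) = x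
    by_cases hx : w x = x
    · rw [hx]
      by_contra hvx
      have : x ∈ v.support := Perm.mem_support.2 hvx
      rw [← heq, Perm.mem_support] at this
      exact this hx
    · -- v (w x) is in the support
      have hvx : v x ≠ x := hsub x hx
      have hvwx : v (w x) ≠ w x := hsub (w x) (fun h => hx (w.injective h))
      have h3 := hcon (w x) hvwx
      have hwv : w (v (w x)) ≠ v (w x) := by
        have : v (w x) ∈ w.support := by
          rw [heq, Perm.mem_support]
          intro h
          exact hvwx (v.injective h)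
        exact Perm.mem_support.1 this
      rcases three_supp hw hx hwv with h | h | h
      · exact h
      · exact absurd h hvwx
      · exact absurd h.symm h3

/-- a three cycle is determined by two arrows -/
theorem three_ext {v w : Perm (Fin n)} (hv : IsThreeCycle v) (hw : IsThreeCycle w) {a b : Fin n}
    (ha : v a = b) (ha' : w a = b) (hab : a ≠ b) (hb : v b = w b) : v = w := by
  have hva : v a ≠ a := by rw [ha]; exact hab.symm
  have hwa : w a ≠ a := by rw [ha']; exact hab.symm
  have key : ∀ {v w : Perm (Fin n)}, IsThreeCycle v → IsThreeCycle w → v a = b → w a = b →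
      v b = w b → ∀ x, v x ≠ x → v x = w x := by
    intro v w hv hw ha ha' hb x hx
    have hva : v a ≠ a := by rw [ha]; exact hab.symm
    rcases three_supp hv hva hx with h | h | h
    · rw [h, ha, ha']
    · rw [h, ha, hb]
    · rw [h, ha]
      have e1 := three_cube hv a
      have e2 := three_cube hw a
      rw [ha] at e1
      rw [ha', ← hb] at e2
      rw [e1, e2]
  ext1 x
  by_cases hx : v x = x
  · by_cases hx' : w x = x
    · rw [hx, hx']
    · exact (key hw hv ha' ha hb.symm x hx').symm
  · exact key hv hw ha ha' hb x hx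

end three

/-! ### Generation -/

section gen

variable {m : ℕ}

/-- the three cycles `(0 1 k)` -/
def u (k : Fin (m + 5)) : Perm (Fin (m + 5)) := swap 0 k * swap 0 1

theorem u_one : u (1 : Fin (m + 5)) = 1 := by
  unfold u
  exact swap_mul_self _ _

/-- the subgroup generated by the `u k` -/
def C : Subgroup (Perm (Fin (m + 5))) := Subgroup.closure {g | ∃ k, k ≠ 0 ∧ g = u k}

theorem conj_C {g : Perm (Fin (m + 5))} (hg : g ∈ (C : Subgroup (Perm (Fin (m + 5))))) :
    swap 0 1 * g * swap 0 1 ∈ (C : Subgroup (Perm (Fin (m + 5)))) := by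
  have hss : (swap 0 1 : Perm (Fin (m + 5))) * swap 0 1 = 1 := swap_mul_self _ _
  unfold C at hg
  induction hg using Subgroup.closure_induction with
  | mem g hg =>
    obtain ⟨k, hk, rfl⟩ := hg
    have h1 : (swap 0 1 : Perm (Fin (m + 5))) * u k * swap 0 1 = (u k)⁻¹ := by
      unfold u
      rw [mul_inv_rev, swap_inv, swap_inv, mul_assoc, mul_assoc, hss, mul_one]
    rw [h1]
    exact Subgroup.inv_mem _ (Subgroup.subset_closure ⟨k, hk, rfl⟩)
  | one =>
    rw [mul_one, hss]
    exact Subgroup.one_mem _
  | mul g g' _ _ h h' =>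
    have h1 : (swap 0 1 : Perm (Fin (m + 5))) * (g * g') * swap 0 1 =
        (swap 0 1 * g * swap 0 1) * (swap 0 1 * g' * swap 0 1) := by
      calc (swap 0 1 : Perm (Fin (m + 5))) * (g * g') * swap 0 1 =
            swap 0 1 * g * 1 * g' * swap 0 1 := by group
        _ = swap 0 1 * g * (swap 0 1 * swap 0 1) * g' * swap 0 1 := by rw [hss]
        _ = _ := by group
    rw [h1]
    exact Subgroup.mul_mem _ h h'
  | inv g _ h =>
    have h1 : (swap 0 1 : Perm (Fin (m + 5))) * g⁻¹ * swap 0 1 = (swap 0 1 * g * swap 0 1)⁻¹ := by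
      rw [mul_inv_rev, mul_inv_rev, swap_inv, mul_assoc]
    rw [h1]
    exact Subgroup.inv_mem _ h

/-- every permutation is in `C` up to `swap 0 1` -/
theorem gen_all (g : Perm (Fin (m + 5))) :
    g ∈ (C : Subgroup (Perm (Fin (m + 5)))) ∨ g * swap 0 1 ∈ (C : Subgroup (Perm (Fin (m + 5)))) := by
  have hss : (swap 0 1 : Perm (Fin (m + 5))) * swap 0 1 = 1 := swap_mul_self _ _
  have hstar : ∀ (k : Fin (m + 5)) (g : Perm (Fin (m + 5))), k ≠ 0 →
      (g ∈ (C : Subgroup (Perm (Fin (m + 5)))) ∨
        g * swap 0 1 ∈ (C : Subgroup (Perm (Fin (m + 5))))) →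
      (swap 0 k * g ∈ (C : Subgroup (Perm (Fin (m + 5)))) ∨
        swap 0 k * g * swap 0 1 ∈ (C : Subgroup (Perm (Fin (m + 5))))) := by
    intro k g hk h
    have hu : u k ∈ (C : Subgroup (Perm (Fin (m + 5)))) := Subgroup.subset_closure ⟨k, hk, rfl⟩
    rcases h with h | h
    · right
      have e : swap 0 k * g * swap 0 1 = u k * (swap 0 1 * g * swap 0 1) := by
        unfold u
        calc swap 0 k * g * swap 0 1 = swap 0 k * 1 * g * swap 0 1 := by group
          _ = swap 0 k * (swap 0 1 * swap 0 1) * g * swap 0 1 := by rw [hss]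
          _ = _ := by group
      rw [e]
      exact Subgroup.mul_mem _ hu (conj_C h)
    · left
      have e : swap 0 k * g = u k * (swap 0 1 * (g * swap 0 1) * swap 0 1) := by
        unfold u
        calc swap 0 k * g = swap 0 k * 1 * g * 1 := by group
          _ = swap 0 k * (swap 0 1 * swap 0 1) * g * (swap 0 1 * swap 0 1) := by rw [hss]
          _ = _ := by group
      rw [e]
      exact Subgroup.mul_mem _ hu (conj_C h)
  induction g using swap_induction_on with
  | one => exact Or.inl (Subgroup.one_mem _)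
  | swap_mul f x y hxy ih =>
    by_cases hx : x = 0
    · subst hx
      exact hstar y f (Ne.symm hxy) ih
    · by_cases hy : y = 0
      · subst hy
        rw [swap_comm]
        exact hstar x f hx ih
      · have e : swap x y = swap 0 x * swap 0 y * swap 0 x := by
          have h := swap_mul_swap_mul_swap (x := y) (y := 0) (z := x) hy (Ne.symm hxy)
          rw [← h, swap_comm y 0]
        rw [e, mul_assoc, mul_assoc]
        exact hstar x _ hx (hstar y _ hy (hstar x _ hx ih))

theorem sign_C {g : Perm (Fin (m + 5))} (hg : g ∈ (C : Subgroup (Perm (Fin (m + 5))))) :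
    Perm.sign g = 1 := by
  have h : (C : Subgroup (Perm (Fin (m + 5)))) ≤ alternatingGroup (Fin (m + 5)) := by
    unfold C
    rw [Subgroup.closure_le]
    rintro _ ⟨k, hk, rfl⟩
    rw [SetLike.mem_coe, Perm.mem_alternatingGroup]
    unfold u
    rw [Perm.sign_mul, Perm.sign_swap (Ne.symm hk), Perm.sign_swap (by simp)]
    rfl
  exact Perm.mem_alternatingGroup.1 (h hg)

theorem alt_le_C (g : Perm (Fin (m + 5))) (hg : Perm.sign g = 1) :
    g ∈ (C : Subgroup (Perm (Fin (m + 5)))) := by
  rcases gen_all g with h | h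
  · exact h
  · exfalso
    have h1 := sign_C h
    rw [Perm.sign_mul, hg, Perm.sign_swap (by simp)] at h1
    revert h1
    decide

theorem zo : (0 : Fin (m + 5)) ≠ 1 := by simp

theorem u_zero (k : Fin (m + 5)) (hk1 : k ≠ 1) : u k 0 = 1 := by
  show swap 0 k (swap 0 1 0) = 1
  rw [swap_apply_left, swap_apply_of_ne_of_ne zo.symm hk1.symm]

theorem u_at_one (k : Fin (m + 5)) : u k 1 = k := by
  show swap 0 k (swap 0 1 1) = k
  rw [swap_apply_right, swap_apply_left]

theorem u_self (k : Fin (m + 5)) (hk : k ≠ 0) (hk1 : k ≠ 1) : u k k = 0 := by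
  show swap 0 k (swap 0 1 k) = 0
  rw [swap_apply_of_ne_of_ne hk hk1, swap_apply_right]

theorem u_other (k x : Fin (m + 5)) (hx : x ≠ 0) (hx1 : x ≠ 1) (hxk : x ≠ k) : u k x = x := by
  show swap 0 k (swap 0 1 x) = x
  rw [swap_apply_of_ne_of_ne hx hx1, swap_apply_of_ne_of_ne hx hxk]

theorem u_three (k : Fin (m + 5)) (hk : k ≠ 0) (hk1 : k ≠ 1) : IsThreeCycle (u k) :=
  isThreeCycle_swap_mul_swap_same hk.symm zo hk1

theorem u_sign (k : Fin (m + 5)) (hk : k ≠ 0) : u k ∈ alternatingGroup (Fin (m + 5)) := by
  rw [Perm.mem_alternatingGroup]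
  unfold u
  rw [Perm.sign_mul, Perm.sign_swap (Ne.symm hk), Perm.sign_swap zo]
  rfl

theorem u_invol (k l : Fin (m + 5)) (hk : k ≠ 0) (hk1 : k ≠ 1) (hl : l ≠ 0) (hl1 : l ≠ 1)
    (hkl : k ≠ l) (x : Fin (m + 5)) : u k (u l (u k (u l x))) = x := by
  by_cases h0 : x = 0
  · subst h0
    rw [u_zero l hl1, u_at_one k, u_other l k hk hk1 hkl, u_self k hk hk1]
  by_cases h1 : x = 1
  · subst h1
    rw [u_at_one l, u_other k l hl hl1 hkl.symm, u_self l hl hl1, u_zero k hk1]
  by_cases h2 : x = k
  · subst h2
    rw [u_other l x hk hk1 hkl, u_self x hk hk1, u_zero l hl1, u_at_one x]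
  by_cases h3 : x = l
  · subst h3
    rw [u_self x hl hl1, u_zero k hk1, u_at_one x, u_other k x hl hl1 (Ne.symm hkl)]
  · rw [u_other l x h0 h1 h3, u_other k x h0 h1 h2, u_other l x h0 h1 h3, u_other k x h0 h1 h2]

end gen

/-! ### The theorem -/

theorem aut_alt5 (m : ℕ) (h6 : m + 5 ≠ 6) (α : MulAut (alternatingGroup (Fin (m + 5)))) :
    ∃ σ : Perm (Fin (m + 5)), ∀ x : alternatingGroup (Fin (m + 5)),
      ((α x : alternatingGroup (Fin (m + 5))) : Perm (Fin (m + 5))) =
        σ * (x : Perm (Fin (m + 5))) * σ⁻¹ := by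
  classical
  -- the images of the three cycles
  let U : Fin (m + 5) → alternatingGroup (Fin (m + 5)) := fun k =>
    if hk : k ≠ 0 then ⟨u k, u_sign k hk⟩ else 1
  have hU : ∀ k, k ≠ 0 → ((U k : alternatingGroup (Fin (m + 5))) : Perm (Fin (m + 5))) = u k := by
    intro k hk
    simp only [U, dif_pos hk]
  let v : Fin (m + 5) → Perm (Fin (m + 5)) := fun k =>
    ((α (U k) : alternatingGroup (Fin (m + 5))) : Perm (Fin (m + 5)))
  have hv3 : ∀ k, k ≠ 0 → k ≠ 1 → IsThreeCycle (v k) := by
    intro k hk hk1
    refine aut_three (by omega) h6 α (U k) ?_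
    rw [hU k hk]
    exact u_three k hk hk1
  have hvinj : ∀ k l, k ≠ 0 → k ≠ 1 → l ≠ 0 → l ≠ 1 → v k = v l → k = l := by
    intro k l hk hk1 hl hl1 h
    have h2 : U k = U l := α.injective (Subtype.ext h)
    have h3 : u k = u l := by rw [← hU k hk, ← hU l hl, h2]
    rw [← u_at_one k, ← u_at_one l, h3]
  have hshare : ∀ k l, k ≠ 0 → k ≠ 1 → l ≠ 0 → l ≠ 1 → k ≠ l →
      ∃ a, v k a ≠ a ∧ v l a = v k a := by
    intro k l hk hk1 hl hl1 hkl
    refine share (hv3 k hk hk1) (hv3 l hl hl1) ?_ ?_
    · intro x
      have h1 : U k * (U l * (U k * U l)) = 1 := by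
        apply Subtype.ext
        show ((U k : alternatingGroup (Fin (m + 5))) : Perm (Fin (m + 5))) *
          (((U l : alternatingGroup (Fin (m + 5))) : Perm (Fin (m + 5))) *
          (((U k : alternatingGroup (Fin (m + 5))) : Perm (Fin (m + 5))) *
          ((U l : alternatingGroup (Fin (m + 5))) : Perm (Fin (m + 5))))) = 1
        rw [hU k hk, hU l hl]
        ext1 y
        exact u_invol k l hk hk1 hl hl1 hkl y
      have h2 : α (U k * (U l * (U k * U l))) = 1 := by rw [h1, map_one]
      rw [map_mul, map_mul, map_mul] at h2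
      have h3 := congrArg (fun z : alternatingGroup (Fin (m + 5)) => (z : Perm (Fin (m + 5))) x) h2
      exact h3
    · intro h
      have h1 : α (U k * U l) = 1 := by
        rw [map_mul]
        exact Subtype.ext h
      have h2 : U k * U l = 1 := by
        rw [← map_one α] at h1
        exact α.injective h1
      have h3 : u k * u l = 1 := by
        rw [← hU k hk, ← hU l hl]
        exact congrArg Subtype.val h2
      have h4 : u k (u l 0) = 0 := by
        have := congrArg (fun z : Perm (Fin (m + 5)) => z 0) h3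
        exact this
      rw [u_zero l hl1, u_at_one k] at h4
      exact hk h4
  have w0 : ((0 : Fin (m + 5)) : ℕ) = 0 := rfl
  have w1 : ((1 : Fin (m + 5)) : ℕ) = 1 := Nat.mod_eq_of_lt (show 1 < m + 5 by omega)
  have w2 : ((2 : Fin (m + 5)) : ℕ) = 2 := Nat.mod_eq_of_lt (show 2 < m + 5 by omega)
  have w3 : ((3 : Fin (m + 5)) : ℕ) = 3 := Nat.mod_eq_of_lt (show 3 < m + 5 by omega)
  have t0 : (2 : Fin (m + 5)) ≠ 0 := by
    intro h
    have := congrArg Fin.val h
    rw [w2, w0] at this
    omega
  have t1 : (2 : Fin (m + 5)) ≠ 1 := by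
    intro h
    have := congrArg Fin.val h
    rw [w2, w1] at this
    omega
  have s0 : (3 : Fin (m + 5)) ≠ 0 := by
    intro h
    have := congrArg Fin.val h
    rw [w3, w0] at this
    omega
  have s1 : (3 : Fin (m + 5)) ≠ 1 := by
    intro h
    have := congrArg Fin.val h
    rw [w3, w1] at this
    omega
  have st : (2 : Fin (m + 5)) ≠ 3 := by
    intro h
    have := congrArg Fin.val h
    rw [w2, w3] at this
    omega
  obtain ⟨a, ha, ha'⟩ := hshare 2 3 t0 t1 s0 s1 st
  obtain ⟨b, hb⟩ : ∃ b, v 2 a = b := ⟨_, rfl⟩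
  rw [hb] at ha ha'
  have V2 := hv3 2 t0 t1
  have V3 := hv3 3 s0 s1
  have hab : a ≠ b := Ne.symm ha
  have hcd : v 2 b ≠ v 3 b := fun h => st (hvinj 2 3 t0 t1 s0 s1 (three_ext V2 V3 hb ha' hab h))
  have hcommon : ∀ k, k ≠ 0 → k ≠ 1 → v k a = b := by
    intro k hk hk1
    by_cases k2 : k = 2
    · rw [k2, hb]
    by_cases k3 : k = 3
    · rw [k3, ha']
    have Vk := hv3 k hk hk1
    obtain ⟨x, hx, hx'⟩ := hshare 2 k t0 t1 hk hk1 (Ne.symm k2)
    obtain ⟨y, hy, hy'⟩ := hshare 3 k s0 s1 hk hk1 (Ne.symm k3)
    have h2a : v 2 a ≠ a := by rw [hb]; exact ha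
    have h3a : v 3 a ≠ a := by rw [ha']; exact ha
    have e2 := three_cube V2 a
    have e3 := three_cube V3 a
    rw [hb] at e2
    rw [ha'] at e3
    rcases three_supp V2 h2a hx with h | h | h
    · rw [← hb, ← h, hx', h]
    · -- x = b
      rw [hb] at h
      rcases three_supp V3 h3a hy with h' | h' | h'
      · rw [← ha', ← h', hy', h']
      · rw [ha'] at h'
        exfalso
        apply hcd
        rw [← h, ← hx', h, ← h', ← hy', h']
      · rw [ha'] at h'
        exfalso
        -- v k b = v 2 b, v k (v 3 b) = a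
        have m1 : v k b = v 2 b := by rw [← h, hx']
        have m2 : v k (v 3 b) = a := by rw [← h', hy', h', e3]
        have n1 : v k b ≠ b := by
          rw [m1, ← h]
          exact hx
        have n2 : v k (v 3 b) ≠ v 3 b := by
          rw [m2]
          intro hh
          rw [← hh] at e3
          exact h3a e3
        rcases three_supp Vk n1 n2 with q | q | q
        · rw [q, q] at e3
          exact hab e3.symm
        · rw [m1] at q
          exact hcd q.symm
        · have q2 := three_cube Vk b
          rw [← q, m2] at q2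
          exact hab q2
    · -- x = v 2 b
      rw [hb] at h
      have m1 : v k (v 2 b) = a := by rw [← h, hx', h, e2]
      rcases three_supp V3 h3a hy with h' | h' | h'
      · rw [← ha', ← h', hy', h']
      · rw [ha'] at h'
        have m2 : v k b = v 3 b := by rw [← h', hy']
        have n1 : v k (v 2 b) ≠ v 2 b := by
          rw [← h, hx']
          exact hx
        have n2 : v k b ≠ b := by
          rw [m2, ← h']
          exact hy
        rcases three_supp Vk n1 n2 with q | q | q
        · exfalso
          -- b = v 2 b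
          rw [h, ← q] at hx
          exact hx q.symm
        · exfalso
          rw [m1] at q
          exact hab q.symm
        · rw [m1] at q
          exact q.symm
      · rw [ha'] at h'
        exfalso
        have m2 : v k (v 3 b) = a := by rw [← h', hy', h', e3]
        exact hcd ((v k).injective (m1.trans m2.symm))
  have hkb : ∀ k, k ≠ 0 → k ≠ 1 → v k b ≠ b := by
    intro k hk hk1 h
    exact hab ((v k).injective ((hcommon k hk hk1).trans h.symm))
  have hka : ∀ k, k ≠ 0 → k ≠ 1 → v k b ≠ a := by
    intro k hk hk1 h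
    have h3 := three_cube (hv3 k hk hk1) a
    rw [hcommon k hk hk1, h, hcommon k hk hk1] at h3
    exact hab h3.symm
  have hkc : ∀ k, k ≠ 0 → k ≠ 1 → v k (v k b) = a := by
    intro k hk hk1
    have h3 := three_cube (hv3 k hk hk1) a
    rwa [hcommon k hk hk1] at h3
  let s : Fin (m + 5) → Fin (m + 5) := fun x => if x = 0 then a else if x = 1 then b else v x b
  have s_0 : s 0 = a := by simp [s]
  have s_1 : s 1 = b := by simp [s]
  have s_k : ∀ k, k ≠ 0 → k ≠ 1 → s k = v k b := by
    intro k hk hk1
    simp [s, hk, hk1]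
  have hinj : Function.Injective s := by
    intro x y hxy
    by_cases x0 : x = 0
    · by_cases y0 : y = 0
      · rw [x0, y0]
      by_cases y1 : y = 1
      · rw [x0, y1, s_0, s_1] at hxy
        exact absurd hxy hab
      · rw [x0, s_0, s_k y y0 y1] at hxy
        exact absurd hxy.symm (hka y y0 y1)
    by_cases x1 : x = 1
    · by_cases y0 : y = 0
      · rw [x1, y0, s_0, s_1] at hxy
        exact absurd hxy.symm hab
      by_cases y1 : y = 1
      · rw [x1, y1]
      · rw [x1, s_1, s_k y y0 y1] at hxy
        exact absurd hxy.symm (hkb y y0 y1)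
    · by_cases y0 : y = 0
      · rw [y0, s_0, s_k x x0 x1] at hxy
        exact absurd hxy (hka x x0 x1)
      by_cases y1 : y = 1
      · rw [y1, s_1, s_k x x0 x1] at hxy
        exact absurd hxy (hkb x x0 x1)
      · rw [s_k x x0 x1, s_k y y0 y1] at hxy
        exact hvinj x y x0 x1 y0 y1 (three_ext (hv3 x x0 x1) (hv3 y y0 y1) (hcommon x x0 x1)
          (hcommon y y0 y1) hab hxy)
  let σ : Perm (Fin (m + 5)) := Equiv.ofBijective s (Finite.injective_iff_bijective.1 hinj)
  have hσ : ∀ x, σ x = s x := fun _ => rfl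
  have hcj : ∀ k, k ≠ 0 → v k = σ * u k * σ⁻¹ := by
    intro k hk
    by_cases hk1 : k = 1
    · subst hk1
      have h1 : U 1 = 1 := by
        apply Subtype.ext
        rw [hU 1 hk, u_one]
        rfl
      have h2 : v 1 = 1 := by
        show ((α (U 1) : alternatingGroup (Fin (m + 5))) : Perm (Fin (m + 5))) = 1
        rw [h1, map_one]
        rfl
      rw [h2, u_one, mul_one, mul_inv_cancel]
    · rw [eq_mul_inv_iff_mul_eq]
      ext1 x
      show v k (σ x) = σ (u k x)
      rw [hσ, hσ]
      by_cases x0 : x = 0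
      · rw [x0, u_zero k hk1, s_0, s_1]
        exact hcommon k hk hk1
      by_cases x1 : x = 1
      · rw [x1, u_at_one k, s_1, s_k k hk hk1]
      by_cases xk : x = k
      · rw [xk, u_self k hk hk1, s_0, s_k k hk hk1]
        exact hkc k hk hk1
      · rw [u_other k x x0 x1 xk]
        by_contra hne
        have hva : v k a ≠ a := by rw [hcommon k hk hk1]; exact ha
        rcases three_supp (hv3 k hk hk1) hva hne with h | h | h
        · rw [← s_0] at h
          exact x0 (hinj h)
        · rw [hcommon k hk hk1, ← s_1] at h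
          exact x1 (hinj h)
        · rw [hcommon k hk hk1, ← s_k k hk hk1] at h
          exact xk (hinj h)
  have hall : ∀ g ∈ (C : Subgroup (Perm (Fin (m + 5)))),
      ∃ hg : g ∈ alternatingGroup (Fin (m + 5)),
        ((α ⟨g, hg⟩ : alternatingGroup (Fin (m + 5))) : Perm (Fin (m + 5))) = σ * g * σ⁻¹ := by
    intro g hg
    unfold C at hg
    induction hg using Subgroup.closure_induction with
    | mem g hg =>
      obtain ⟨k, hk, rfl⟩ := hg
      refine ⟨u_sign k hk, ?_⟩
      have h1 : (⟨u k, u_sign k hk⟩ : alternatingGroup (Fin (m + 5))) = U k :=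
        Subtype.ext (hU k hk).symm
      rw [h1]
      exact hcj k hk
    | one =>
      refine ⟨Subgroup.one_mem _, ?_⟩
      have h1 : (⟨1, Subgroup.one_mem _⟩ : alternatingGroup (Fin (m + 5))) = 1 := rfl
      rw [h1, map_one, mul_one, mul_inv_cancel]
      rfl
    | mul g g' _ _ h h' =>
      obtain ⟨h1, h2⟩ := h
      obtain ⟨h1', h2'⟩ := h'
      refine ⟨Subgroup.mul_mem _ h1 h1', ?_⟩
      have h3 : (⟨g * g', Subgroup.mul_mem _ h1 h1'⟩ : alternatingGroup (Fin (m + 5))) =
          ⟨g, h1⟩ * ⟨g', h1'⟩ := rfl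
      rw [h3, map_mul, Subgroup.coe_mul, h2, h2']
      group
    | inv g _ h =>
      obtain ⟨h1, h2⟩ := h
      refine ⟨Subgroup.inv_mem _ h1, ?_⟩
      have h3 : (⟨g⁻¹, Subgroup.inv_mem _ h1⟩ : alternatingGroup (Fin (m + 5))) = ⟨g, h1⟩⁻¹ := rfl
      rw [h3, map_inv, Subgroup.coe_inv, h2]
      group
  refine ⟨σ, fun x => ?_⟩
  have hs : Perm.sign (x : Perm (Fin (m + 5))) = 1 := Perm.mem_alternatingGroup.1 x.2
  obtain ⟨hg, h⟩ := hall (x : Perm (Fin (m + 5))) (alt_le_C (x : Perm (Fin (m + 5))) hs)
  exact h

theorem aut_alt (n : ℕ) (hn : 5 ≤ n) (h6 : n ≠ 6) (α : MulAut (alternatingGroup (Fin n))) :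
    ∃ σ : Equiv.Perm (Fin n), ∀ x : alternatingGroup (Fin n),
      ((α x : alternatingGroup (Fin n)) : Equiv.Perm (Fin n)) =
        σ * (x : Equiv.Perm (Fin n)) * σ⁻¹ := by
  obtain ⟨m, rfl⟩ : ∃ m, n = m + 5 := ⟨n - 5, by omega⟩
  exact aut_alt5 m h6 α

end Pool.Agent.V8H87.CM
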