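import Mathlib

/-! A permutation of order dividing a prime `p` has invariant sets of every size divisible by `p`. -/

namespace Pool.Agent.V8H87.CM

open Finset Function

theorem iterate_mem {n : ℕ} {σ : Equiv.Perm (Fin n)} {s : Finset (Fin n)}
    (hs : ∀ x ∈ s, σ x ∈ s) (k : ℕ) {x : Fin n} (hx : x ∈ s) : (σ^[k]) x ∈ s := by
  induction k with
  | zero => simpa using hx
  | succ k ih => rw [Function.iterate_succ_apply']; exact hs _ ih

theorem exists_invariant (n p m : ℕ) (hp : p.Prime) (hpm : p ∣ m) (hmn : m ≤ n)
    (σ : Equiv.Perm (Fin n)) (hσ : σ ^ p = 1) :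
    ∃ s : Finset (Fin n), s.card = m ∧ ∀ x ∈ s, σ x ∈ s := by
  have hit : ∀ y, (σ^[p]) y = y := by
    intro y
    have h := congrArg (fun τ : Equiv.Perm (Fin n) => τ y) hσ
    simpa [Equiv.Perm.iterate_eq_pow] using h
  obtain ⟨j, rfl⟩ := hpm
  induction j with
  | zero => exact ⟨∅, by simp, by simp⟩
  | succ j ih =>
    have h1 : p * j ≤ p * (j + 1) := Nat.mul_le_mul_left _ (Nat.le_succ j)
    obtain ⟨s, hc, hs⟩ := ih (h1.trans hmn)
    by_cases hfix : ∀ y ∈ sᶜ, σ y = y
    · have hcard : p ≤ (sᶜ).card := by
        rw [card_compl, hc, Fintype.card_fin]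
        have : p * (j + 1) = p * j + p := by ring
        omega
      obtain ⟨t, ht, htc⟩ := exists_subset_card_eq hcard
      refine ⟨s ∪ t, ?_, ?_⟩
      · rw [card_union_of_disjoint, hc, htc]
        · ring
        · rw [disjoint_left]
          intro a ha hat
          exact (mem_compl.mp (ht hat)) ha
      · intro x hx
        rcases mem_union.mp hx with hx | hx
        · exact mem_union_left _ (hs x hx)
        · rw [hfix x (ht hx)]
          exact mem_union_right _ hx
    · push Not at hfix
      obtain ⟨y, hy, hyf⟩ := hfix
      have hper : IsPeriodicPt σ p y := hit y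
      have hmin : minimalPeriod σ y = p := by
        rcases (Nat.dvd_prime hp).mp hper.minimalPeriod_dvd with h | h
        · exfalso
          apply hyf
          exact minimalPeriod_eq_one_iff_isFixedPt.mp h
        · exact h
      have hinj : Set.InjOn (fun i => (σ^[i]) y) (range p : Finset ℕ) := by
        intro a ha b hb hab
        rw [coe_range] at ha hb
        have := iterate_injOn_Iio_minimalPeriod (f := σ) (x := y)
        rw [hmin] at this
        exact this ha hb hab
      refine ⟨s ∪ (range p).image (fun i => (σ^[i]) y), ?_, ?_⟩
      · rw [card_union_of_disjoint, hc, card_image_of_injOn hinj, card_range]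
        · ring
        · rw [disjoint_left]
          intro a ha hat
          obtain ⟨i, hi, rfl⟩ := mem_image.mp hat
          have hi' : i ≤ p := (mem_range.mp hi).le
          have h2 := iterate_mem hs (p - i) ha
          rw [← Function.iterate_add_apply, Nat.sub_add_cancel hi', hit] at h2
          exact (mem_compl.mp hy) h2
      · intro x hx
        rcases mem_union.mp hx with hx | hx
        · exact mem_union_left _ (hs x hx)
        · obtain ⟨i, hi, rfl⟩ := mem_image.mp hx
          apply mem_union_right
          show σ ((σ^[i]) y) ∈ _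
          rw [← Function.iterate_succ_apply' (⇑σ) i y]
          rcases Nat.lt_or_ge (i + 1) p with h | h
          · exact mem_image.mpr ⟨i + 1, mem_range.mpr h, rfl⟩
          · have : i + 1 = p := le_antisymm (mem_range.mp hi) h
            refine mem_image.mpr ⟨0, mem_range.mpr hp.pos, ?_⟩
            show (σ^[0]) y = (σ^[i + 1]) y
            rw [this, hit]
            rfl

end Pool.Agent.V8H87.CM
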