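import Mathlib

/-!
# A prime `p` and a multiple `m` of `p` with `2 m < n` and `p` dividing `n.choose m` (helper63)
-/

set_option autoImplicit false

namespace Pool.Agent.V8H87.CM

/-- Lucas, for a multiple of a power of `p`. -/
lemma dvd_choose_pow {p : ℕ} (hp : p.Prime) (j n k : ℕ) : p ∣ n.choose (p ^ j * k) ↔ p ∣ (n / p ^ j).choose k := by
  haveI : Fact p.Prime := ⟨hp⟩
  induction j generalizing n with
  | zero => simp
  | succ j ih =>
    have h1 := Choose.choose_modEq_choose_mod_mul_choose_div_nat (p := p) (n := n) (k := p ^ (j + 1) * k)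
    have h2 : p ^ (j + 1) * k = p * (p ^ j * k) := by ring
    have h3 : (p ^ (j + 1) * k) % p = 0 := by rw [h2, Nat.mul_mod_right]
    have h4 : (p ^ (j + 1) * k) / p = p ^ j * k := by rw [h2, Nat.mul_div_cancel_left _ hp.pos]
    rw [h3, h4, Nat.choose_zero_right, one_mul] at h1
    refine (h1.dvd_iff dvd_rfl).trans ((ih (n / p)).trans ?_)
    rw [Nat.div_div_eq_div_mul, pow_succ, mul_comm p (p ^ j)]

lemma two_case {n j : ℕ} (h : (n / 2 ^ (j + 1)) % 2 = 0) : 2 ∣ n.choose (2 ^ (j + 1)) := by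
  have := (dvd_choose_pow Nat.prime_two (j + 1) n 1).2 (by
    rw [Nat.choose_one_right]
    exact Nat.dvd_of_mod_eq_zero h)
  rwa [mul_one] at this

lemma three_case0 {n j : ℕ} (h : (n / 3 ^ (j + 1)) % 3 = 0) : 3 ∣ n.choose (3 ^ (j + 1)) := by
  have := (dvd_choose_pow Nat.prime_three (j + 1) n 1).2 (by
    rw [Nat.choose_one_right]
    exact Nat.dvd_of_mod_eq_zero h)
  rwa [mul_one] at this

lemma three_case1 {n j : ℕ} (h : (n / 3 ^ (j + 1)) % 3 = 1) : 3 ∣ n.choose (3 ^ (j + 1) * 2) := by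
  refine (dvd_choose_pow Nat.prime_three (j + 1) n 2).2 ?_
  set D := n / 3 ^ (j + 1) with hD
  have h1 : D.choose 2 * 2 = D * (D - 1) := by
    rw [Nat.choose_two_right, Nat.div_mul_cancel (Nat.even_mul_pred_self D).two_dvd]
  have h2 : 3 ∣ D.choose 2 * 2 := by
    rw [h1]
    exact Dvd.dvd.mul_left (by omega) _
  exact (Nat.Coprime.dvd_of_dvd_mul_right (by norm_num) h2)

lemma all_two : ∀ N : ℕ, 1 ≤ N → (∀ j, 2 * 2 ^ j ≤ N → (N / 2 ^ j) % 2 = 1) → ∃ s, N + 1 = 2 ^ s := by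
  intro N
  induction N using Nat.strong_induction_on with
  | _ N ih =>
    intro h1 h
    by_cases h2 : N = 1
    · exact ⟨1, by omega⟩
    · have h3 := h 0 (by omega)
      rw [pow_zero, Nat.div_one] at h3
      obtain ⟨s, hs⟩ := ih (N / 2) (by omega) (by omega) (fun j hj => by
        have h4 := h (j + 1) (by
          rw [pow_succ]
          omega)
        rwa [pow_succ, mul_comm, ← Nat.div_div_eq_div_mul] at h4)
      exact ⟨s + 1, by rw [pow_succ]; omega⟩

lemma all_three : ∀ N : ℕ, 1 ≤ N → (∀ j, 3 * 3 ^ j ≤ N → (N / 3 ^ j) % 3 = 2) →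
    ∃ s, N + 1 = 2 * 3 ^ s ∨ N + 1 = 3 * 3 ^ s := by
  intro N
  induction N using Nat.strong_induction_on with
  | _ N ih =>
    intro h1 h
    by_cases h2 : N < 3
    · exact ⟨0, by omega⟩
    · have h3 := h 0 (by omega)
      rw [pow_zero, Nat.div_one] at h3
      obtain ⟨s, hs⟩ := ih (N / 3) (by omega) (by omega) (fun j hj => by
        have h4 := h (j + 1) (by
          rw [pow_succ]
          omega)
        rwa [pow_succ, mul_comm, ← Nat.div_div_eq_div_mul] at h4)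
      exact ⟨s + 1, by rw [pow_succ]; omega⟩

lemma pow3_mod (c : ℕ) : 3 ^ c % 80 = 1 ∨ 3 ^ c % 80 = 3 ∨ 3 ^ c % 80 = 9 ∨ 3 ^ c % 80 = 27 := by
  induction c with
  | zero => left; norm_num
  | succ c ih =>
    rw [pow_succ, Nat.mul_mod]
    rcases ih with h | h | h | h <;> rw [h] <;> norm_num

lemma pow2_mod (a : ℕ) : 2 ^ (a + 4) % 80 = 16 ∨ 2 ^ (a + 4) % 80 = 32 ∨ 2 ^ (a + 4) % 80 = 48 ∨
    2 ^ (a + 4) % 80 = 64 := by
  induction a with
  | zero => left; norm_num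
  | succ a ih =>
    rw [show a + 1 + 4 = (a + 4) + 1 by ring, pow_succ, Nat.mul_mod]
    rcases ih with h | h | h | h <;> rw [h] <;> norm_num

lemma no1 {a c : ℕ} (ha : 4 ≤ a) (h : 2 ^ a + 1 = 3 ^ c) : False := by
  obtain ⟨b, rfl⟩ : ∃ b, a = b + 4 := ⟨a - 4, by omega⟩
  have h1 := pow3_mod c
  have h2 := pow2_mod b
  omega

lemma no2 {a c : ℕ} (ha : 3 ≤ a) (h : 3 ^ c + 1 = 2 ^ a) : False := by
  obtain ⟨b, rfl⟩ : ∃ b, a = b + 3 := ⟨a - 3, by omega⟩
  have h1 := pow3_mod c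
  have h2 : 2 ^ (b + 3) = 8 * 2 ^ b := by ring
  omega

theorem exists_choose (n : ℕ) (hn : 5 ≤ n) (h6 : n ≠ 6) (h7 : n ≠ 7) (h15 : n ≠ 15) :
    ∃ p m : ℕ, p.Prime ∧ p ∣ m ∧ 0 < m ∧ 2 * m < n ∧ p ∣ n.choose m := by
  by_contra hno
  push Not at hno
  -- `n` is not divisible by `4`
  have h4 : n % 4 ≠ 0 := by
    intro h
    refine hno 2 2 Nat.prime_two dvd_rfl (by norm_num) (by omega) ?_
    have := two_case (n := n) (j := 0) (by rw [zero_add, pow_one]; omega)
    simpa using this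
  -- binary digits
  obtain ⟨s, hs⟩ := all_two (n / 2) (by omega) (fun j hj => by
    by_contra h
    have h1 : (n / 2 ^ (j + 1)) % 2 = 0 := by
      rw [pow_succ, mul_comm, ← Nat.div_div_eq_div_mul]
      omega
    have h2 : 2 ^ (j + 1) = 2 ^ j * 2 := pow_succ _ _
    have h3 : 2 * 2 ^ (j + 1) ≠ n := by
      intro h5
      apply h4
      rw [← h5, h2]
      omega
    refine hno 2 (2 ^ (j + 1)) Nat.prime_two (dvd_pow_self _ (by omega)) (by positivity) ?_ (two_case h1)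
    omega)
  -- ternary digits
  obtain ⟨t, ht⟩ := all_three (n / 3) (by omega) (fun j hj => by
    by_contra h
    have e : n / 3 ^ (j + 1) = n / 3 / 3 ^ j := by
      rw [pow_succ, mul_comm, ← Nat.div_div_eq_div_mul]
    have h2 : 3 ^ (j + 1) = 3 ^ j * 3 := pow_succ _ _
    have hpos : 0 < 3 ^ j := by positivity
    have hle : 3 ^ (j + 1) * (n / 3 ^ (j + 1)) ≤ n := Nat.mul_div_le _ _
    have hD3 : 3 ≤ n / 3 ^ (j + 1) := by
      rw [Nat.le_div_iff_mul_le (by positivity), h2]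
      omega
    have hD : (n / 3 ^ (j + 1)) % 3 = 0 ∨ (n / 3 ^ (j + 1)) % 3 = 1 := by
      rw [e]
      omega
    rcases hD with hD | hD
    · refine hno 3 (3 ^ (j + 1)) Nat.prime_three (dvd_pow_self _ (by omega)) (by positivity) ?_ (three_case0 hD)
      nlinarith
    · have hD4 : 4 ≤ n / 3 ^ (j + 1) := by omega
      have h5 : 4 * 3 ^ (j + 1) ≤ n := by nlinarith
      have h6 : 4 * 3 ^ (j + 1) ≠ n := by
        intro h7
        apply h4
        omega
      refine hno 3 (3 ^ (j + 1) * 2) Nat.prime_three (Dvd.dvd.mul_right (dvd_pow_self _ (by omega)) _)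
        (by positivity) (by omega) (three_case1 hD))
  -- the exponential equation
  have hs' : n + 1 = 2 ^ (s + 1) ∨ n + 2 = 2 ^ (s + 1) := by
    rw [pow_succ]
    omega
  have ht' : ∃ X : ℕ, (n + 1 = X ∨ n + 2 = X ∨ n + 3 = X) ∧ (X = 2 * 3 ^ (t + 1) ∨ X = 3 ^ (t + 2)) := by
    refine ⟨3 * (n / 3 + 1), by omega, ?_⟩
    have e1 : 2 * 3 ^ (t + 1) = 3 * (2 * 3 ^ t) := by ring
    have e2 : 3 ^ (t + 2) = 3 * (3 * 3 ^ t) := by ring
    rw [e1, e2]
    omega
  obtain ⟨X, hX, hX2⟩ := ht'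
  have hs3 : 2 ≤ s := by
    by_contra h
    have h1 : s = 0 ∨ s = 1 := by omega
    rcases h1 with h1 | h1 <;> subst h1 <;> norm_num at hs' <;> omega
  have h3X : X % 3 = 0 := by
    have e1 : 2 * 3 ^ (t + 1) = 3 * (2 * 3 ^ t) := by ring
    have e2 : 3 ^ (t + 2) = 3 * (3 * 3 ^ t) := by ring
    omega
  have h2s : 2 ^ (s + 1) % 3 ≠ 0 := by
    intro h
    have := (Nat.Prime.dvd_of_dvd_pow Nat.prime_three (Nat.dvd_of_mod_eq_zero h))
    omega
  have h2e : 2 ^ (s + 1) = 2 * 2 ^ s := by ring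
  have hodd : 3 ^ (t + 2) % 2 = 1 := by
    have := pow3_mod (t + 2)
    omega
  -- the three possibilities
  have key : X = 2 ^ (s + 1) ∨ X = 2 ^ (s + 1) + 1 ∨ (X = 2 ^ (s + 1) + 2 ∧ n + 1 = 2 ^ (s + 1)) ∨
      X + 1 = 2 ^ (s + 1) := by omega
  rcases key with hk | hk | ⟨hk, hk2⟩ | hk
  · rw [hk] at h3X
    exact h2s h3X
  · rcases hX2 with hX2 | hX2
    · omega
    · rw [hX2] at hk
      by_cases hs4 : 4 ≤ s + 1
      · exact no1 hs4 hk.symm
      · have h1 : s = 2 := by omega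
        subst h1
        norm_num at hs'
        omega
  · rcases hX2 with hX2 | hX2
    · have h1 : 2 ^ s + 1 = 3 ^ (t + 1) := by omega
      by_cases hs4 : 4 ≤ s
      · exact no1 hs4 h1
      · have h5 : s = 2 ∨ s = 3 := by omega
        rcases h5 with h5 | h5 <;> subst h5 <;> norm_num at hk2 <;> omega
    · omega
  · rcases hX2 with hX2 | hX2
    · omega
    · rw [hX2] at hk
      exact no2 (by omega) hk

end Pool.Agent.V8H87.CM
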