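import Pool.Agent.V8H87.CM.Crit
import Pool.Agent.V8H87.CM.Inv
import Pool.Agent.V8H87.CM.Num
import Pool.Agent.V8H87.CM.Aut

/-!
The stabilisers of the `m`-sets in the alternating groups.
-/

set_option autoImplicit false

open MulAction Equiv.Perm Pointwise

namespace Pool.Agent.V8H87.CM

variable {n m : ℕ}

/-- a permutation commuting with all even permutations is trivial -/
theorem centralizer_alt (hn : 4 ≤ n) (τ : Equiv.Perm (Fin n))
    (h : ∀ x : alternatingGroup (Fin n), τ * (x : Equiv.Perm (Fin n)) = x * τ) : τ = 1 := by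
  by_contra hτ
  obtain ⟨a, ha⟩ : ∃ a, τ a ≠ a := by
    by_contra hcon
    push Not at hcon
    exact hτ (Equiv.ext hcon)
  -- two further points
  have h1 : 2 ≤ (({a, τ a} : Finset (Fin n))ᶜ).card := by
    rw [Finset.card_compl, Fintype.card_fin, Finset.card_pair (Ne.symm ha)]
    omega
  obtain ⟨c, hc, d, hd, hcd⟩ := Finset.one_lt_card.1 h1
  simp only [Finset.mem_compl, Finset.mem_insert, Finset.mem_singleton, not_or] at hc hd
  let ρ : Equiv.Perm (Fin n) := Equiv.swap a d * Equiv.swap a c
  have hρ : ρ ∈ alternatingGroup (Fin n) := by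
    rw [mem_alternatingGroup, map_mul, sign_swap (Ne.symm hd.1), sign_swap (Ne.symm hc.1)]
    rfl
  have h2 : ρ a = c := by
    show Equiv.swap a d (Equiv.swap a c a) = c
    rw [Equiv.swap_apply_left, Equiv.swap_apply_of_ne_of_ne hc.1 hcd]
  have h3 : ρ (τ a) = τ a := by
    show Equiv.swap a d (Equiv.swap a c (τ a)) = τ a
    rw [Equiv.swap_apply_of_ne_of_ne ha (Ne.symm hc.2), Equiv.swap_apply_of_ne_of_ne ha (Ne.symm hd.2)]
  have h4 := congrArg (fun f : Equiv.Perm (Fin n) => f a) (h ⟨ρ, hρ⟩)
  have h5 : τ (ρ a) = ρ (τ a) := h4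
  rw [h2, h3] at h5
  exact hc.1 (τ.injective h5)

theorem alt_stab_smul (s : alternatingGroup (Fin n)) (x : Set.powersetCard (Fin n) m) :
    stabilizer (alternatingGroup (Fin n)) (s • x) =
      cj s (stabilizer (alternatingGroup (Fin n)) x) := by
  ext g
  rw [mem_cj, mem_stabilizer_iff, mem_stabilizer_iff, mul_smul, mul_smul, inv_smul_eq_iff]

/-- automorphisms permute the stabilisers of the `m`-sets -/
theorem map_stab (α : MulAut (alternatingGroup (Fin n))) (σ : Equiv.Perm (Fin n))
    (hσ : ∀ x : alternatingGroup (Fin n),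
      ((α x : alternatingGroup (Fin n)) : Equiv.Perm (Fin n)) = σ * (x : Equiv.Perm (Fin n)) * σ⁻¹)
    (x : Set.powersetCard (Fin n) m) :
    (stabilizer (alternatingGroup (Fin n)) x).map α.toMonoidHom =
      stabilizer (alternatingGroup (Fin n)) (σ • x) := by
  have key : ∀ g : alternatingGroup (Fin n), α g • (σ • x) = σ • (g • x) := by
    intro g
    have h1 : α g • (σ • x) = ((α g : alternatingGroup (Fin n)) : Equiv.Perm (Fin n)) • (σ • x) := rfl
    have h2 : g • x = (g : Equiv.Perm (Fin n)) • x := rfl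
    rw [h1, h2, hσ, ← mul_smul, ← mul_smul]
    congr 1
    group
  ext g
  rw [mem_stabilizer_iff]
  constructor
  · rintro ⟨a, ha, rfl⟩
    have h1 : a • x = x := ha
    show α a • (σ • x) = σ • x
    rw [key, h1]
  · intro hg
    refine ⟨α.symm g, ?_, α.apply_symm_apply g⟩
    show α.symm g • x = x
    have h1 := key (α.symm g)
    have h2 : α (α.symm g) = g := α.apply_symm_apply g
    rw [h2, hg] at h1
    exact (smul_left_cancel σ h1).symm

theorem alt_trans (hn : 5 ≤ n) (x y : Set.powersetCard (Fin n) m) :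
    ∃ s : alternatingGroup (Fin n), s • x = y := by
  have h : IsPretransitive (alternatingGroup (Fin n)) (Set.powersetCard (Fin n) m) :=
    Set.powersetCard.isPretransitive_alternatingGroup (by rw [Nat.card_eq_fintype_card, Fintype.card_fin]; omega)
  exact exists_smul_eq _ x y

set_option backward.isDefEq.respectTransparency false in
/-- the maximal subgroup -/
theorem alt_facts (hn : 5 ≤ n) (h6 : n ≠ 6) (hm : 0 < m) (hmn : 2 * m < n) :
    ∃ x : Set.powersetCard (Fin n) m,
      IsCoatom (stabilizer (alternatingGroup (Fin n)) x) ∧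
      stabilizer (alternatingGroup (Fin n)) x ≠ ⊥ ∧
      (stabilizer (alternatingGroup (Fin n)) x).index = n.choose m ∧
      (∀ α : MulAut (alternatingGroup (Fin n)), ∃ s : alternatingGroup (Fin n),
        (stabilizer (alternatingGroup (Fin n)) x).map α.toMonoidHom =
          cj s (stabilizer (alternatingGroup (Fin n)) x)) := by
  have hcard : Nat.card (Fin n) = n := by rw [Nat.card_eq_fintype_card, Fintype.card_fin]
  obtain ⟨s, -, hs⟩ := Finset.exists_subset_card_eq (s := (Finset.univ : Finset (Fin n))) (n := m)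
    (by rw [Finset.card_univ, Fintype.card_fin]; omega)
  let x : Set.powersetCard (Fin n) m := ⟨s, hs⟩
  have hpre : IsPretransitive (alternatingGroup (Fin n)) (Set.powersetCard (Fin n) m) :=
    Set.powersetCard.isPretransitive_alternatingGroup (by rw [hcard]; omega)
  have hidx : (stabilizer (alternatingGroup (Fin n)) x).index = n.choose m := by
    rw [index_stabilizer_of_transitive, Set.powersetCard.card, hcard]
  refine ⟨x, ?_, ?_, hidx, ?_⟩
  · rw [Set.powersetCard.stabilizer_coe]
    apply alternatingGroup.isCoatom_stabilizer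
    · rw [Set.powersetCard.coe_nonempty_iff]
      exact hm
    · rw [Set.nonempty_compl, ne_eq, Set.eq_univ_iff_ncard, Set.powersetCard.ncard_eq, hcard]
      omega
    · rw [Set.powersetCard.ncard_eq, hcard]
      omega
  · -- a nontrivial stabiliser: the group has more elements than there are `m`-sets
    intro h0
    rw [Set.powersetCard.stabilizer_coe] at h0
    obtain ⟨g, hg, hg3⟩ := Equiv.Perm.exists_mem_stabilizer_isThreeCycle ((x : Set (Fin n)))
      (by rw [hcard]; omega)
    have h1 : (⟨g, hg3.mem_alternatingGroup⟩ : alternatingGroup (Fin n)) ∈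
        stabilizer (alternatingGroup (Fin n)) (x : Set (Fin n)) := hg
    rw [h0, Subgroup.mem_bot] at h1
    have h2 : g = 1 := congrArg Subtype.val h1
    have h3 := hg3.orderOf
    rw [h2, orderOf_one] at h3
    omega
  · intro α
    obtain ⟨σ, hσ⟩ := aut_alt n hn h6 α
    obtain ⟨s, hs⟩ := alt_trans hn x (σ • x)
    exact ⟨s, by rw [map_stab α σ hσ x, ← hs, alt_stab_smul]⟩

theorem alt_fixed (hn : 5 ≤ n) (h6 : n ≠ 6) (hmn : 2 * m < n) {p : ℕ}
    (hp : p.Prime) (hpm : p ∣ m) (x : Set.powersetCard (Fin n) m)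
    (α : MulAut (alternatingGroup (Fin n))) (hα : α ^ p = 1) :
    ∃ s : alternatingGroup (Fin n), (cj s (stabilizer (alternatingGroup (Fin n)) x)).map α.toMonoidHom =
      cj s (stabilizer (alternatingGroup (Fin n)) x) := by
  obtain ⟨σ, hσ⟩ := aut_alt n hn h6 α
  have h1 : ∀ (k : ℕ) (y : alternatingGroup (Fin n)),
      (((α ^ k) y : alternatingGroup (Fin n)) : Equiv.Perm (Fin n)) =
        σ ^ k * (y : Equiv.Perm (Fin n)) * (σ ^ k)⁻¹ := by
    intro k
    induction k with
    | zero => intro y; simp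
    | succ k ih =>
      intro y
      rw [pow_succ', MulAut.mul_apply, hσ, ih, pow_succ']
      group
  have h2 : σ ^ p = 1 := by
    apply centralizer_alt (by omega)
    intro y
    have h3 := h1 p y
    rw [hα] at h3
    have h4 : (y : Equiv.Perm (Fin n)) = σ ^ p * (y : Equiv.Perm (Fin n)) * (σ ^ p)⁻¹ := h3
    nth_rewrite 2 [h4]
    group
  obtain ⟨w, hw, hwσ⟩ := exists_invariant n p m hp hpm (by omega) σ h2
  let y : Set.powersetCard (Fin n) m := ⟨w, hw⟩
  have h3 : σ • y = y := by
    apply Subtype.ext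
    show σ • w = w
    apply Finset.eq_of_subset_of_card_le
    · intro z hz
      obtain ⟨v, hv, rfl⟩ := Finset.mem_smul_finset.1 hz
      exact hwσ v hv
    · rw [Finset.card_smul_finset]
  obtain ⟨s, hs⟩ := alt_trans hn x y
  refine ⟨s, ?_⟩
  rw [← alt_stab_smul, hs, map_stab α σ hσ y, h3]

/-- the alternating groups of degree different from 6, 7, 15 -/
theorem not_alt (hn : 5 ≤ n) (h6 : n ≠ 6) (h7 : n ≠ 7) (h15 : n ≠ 15) (G : Type) [Group G]
    [Finite G] (hG : MaxCompl G) : ¬ IsFactor (alternatingGroup (Fin n)) G := by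
  obtain ⟨p, m, hp, hpm, hm, hmn, hpc⟩ := exists_choose n hn h6 h7 h15
  obtain ⟨x, f1, f2, f3, f4⟩ := alt_facts (m := m) hn h6 hm hmn
  have : IsSimpleGroup (alternatingGroup (Fin n)) := alternatingGroup.isSimpleGroup
    (by rw [Nat.card_eq_fintype_card, Fintype.card_fin]; exact hn)
  exact criterion f1 f2 f4 hp (by rw [f3]; exact hpc)
    (alt_fixed hn h6 hmn hp hpm x) _ G rfl hG

end Pool.Agent.V8H87.CM
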