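import Pool.Agent.V8H87.CM.Crit

/-!
A second criterion, by the order of the complement.
-/

set_option autoImplicit false

namespace Pool.Agent.V8H87.CM

section cls

variable {T : Type} [Group T] {G : Type} [Group G]

theorem emb_inj {t : Subgroup G} (e : T ≃* t) {A A' : Subgroup T} (h : emb e A = emb e A') :
    A = A' := by
  have key : ∀ X Y : Subgroup T, emb e X = emb e Y → X ≤ Y := by
    intro X Y hXY a ha
    have h1 : (e a : G) ∈ emb e Y := by
      rw [← hXY]
      exact ⟨a, ha, rfl⟩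
    obtain ⟨b, hb, hba⟩ := h1
    have h2 : b = a := e.injective (Subtype.ext hba)
    rwa [← h2]
  exact le_antisymm (key _ _ h) (key _ _ h.symm)

theorem cls_emb {t : Subgroup G} (e : T ≃* t) (A : Subgroup T) (s : T) :
    Cls A t (emb e (cj s A)) := by
  refine ⟨(MulAut.conj s).trans e, ?_⟩
  ext y
  rw [mem_emb, mem_emb]
  constructor
  · rintro ⟨a, ha, rfl⟩
    refine ⟨s⁻¹ * a * s, mem_cj.1 ha, ?_⟩
    show (e (s * (s⁻¹ * a * s) * s⁻¹) : G) = e a
    congr 2
    group
  · rintro ⟨a, ha, rfl⟩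
    exact ⟨s * a * s⁻¹, conj_mem_cj ha, rfl⟩

theorem nrm_eq [IsSimpleGroup T] {A : Subgroup T} (hA : IsCoatom A) (hA0 : A ≠ ⊥) : nrm A = A := by
  have h1 : A ≤ nrm A := fun a ha => cj_self ha
  rcases h1.eq_or_lt with h | h
  · exact h.symm
  exfalso
  have h2 := hA.2 _ h
  have h3 : A.Normal := by
    constructor
    intro n hn g
    have h4 : g ∈ nrm A := by rw [h2]; exact Subgroup.mem_top _
    have h5 : cj g A = A := h4
    rw [← h5]
    exact conj_mem_cj hn
  rcases h3.eq_bot_or_eq_top with h6 | h6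
  · exact hA0 h6
  · exact hA.1 h6

theorem card_cls [IsSimpleGroup T] {A : Subgroup T} (hA : IsCoatom A) (hA0 : A ≠ ⊥)
    (h1 : ∀ α : MulAut T, ∃ s : T, A.map α.toMonoidHom = cj s A) {t : Subgroup G} (e : T ≃* t) :
    Nat.card {B : Subgroup G // Cls A t B} = A.index := by
  rw [Subgroup.index_eq_card]
  symm
  let f : T ⧸ A → {B : Subgroup G // Cls A t B} := fun q => ⟨emb e (cj q.out A), cls_emb e A _⟩
  have hout : ∀ s : T, cj (QuotientGroup.mk s : T ⧸ A).out A = cj s A := by
    intro s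
    obtain ⟨a, ha⟩ := QuotientGroup.mk_out_eq_mul A s
    rw [ha, ← cj_cj, cj_self a.2]
  refine Nat.card_congr (Equiv.ofBijective f ⟨?_, ?_⟩)
  · intro q q' h
    have h2 : cj q.out A = cj q'.out A := emb_inj e (congrArg Subtype.val h)
    have h3 : q.out⁻¹ * q'.out ∈ nrm A := by
      rw [mem_nrm, ← cj_cj, ← h2, cj_inv_cj]
    rw [nrm_eq hA hA0] at h3
    rw [← QuotientGroup.out_eq' q, ← QuotientGroup.out_eq' q']
    exact QuotientGroup.eq.2 h3
  · rintro ⟨B, hB⟩
    obtain ⟨x, hx, hxB⟩ := Cls.trans' h1 (⟨e, rfl⟩ : Cls A t (emb e A)) hB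
    obtain ⟨s, hs⟩ := e.surjective ⟨x, hx⟩
    refine ⟨QuotientGroup.mk s, ?_⟩
    apply Subtype.ext
    show emb e (cj _ A) = B
    rw [hout, emb_conj, hs]
    exact hxB

/-- the action of the normaliser of `t ≅ T` on `T` -/
noncomputable def act {t : Subgroup G} (e : T ≃* t) : nrm t →* MulAut T :=
  MonoidHom.mk' (fun x => (e.trans ((cjEquiv (x : G) t).trans (MulEquiv.subgroupCongr x.2))).trans e.symm)
    (by
      intro a b
      ext y
      apply e.injective
      apply Subtype.ext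
      have h : ∀ (x : nrm t) (y : T), (e (((e.trans ((cjEquiv (x : G) t).trans
          (MulEquiv.subgroupCongr x.2))).trans e.symm) y) : G) = x * (e y : G) * (x : G)⁻¹ := by
        intro x y
        show (e (e.symm _) : G) = _
        rw [MulEquiv.apply_symm_apply]
        rfl
      rw [MulAut.mul_apply, h, h, h]
      show ((a : G) * (b : G)) * _ * ((a : G) * (b : G))⁻¹ = _
      group)

theorem act_apply {t : Subgroup G} (e : T ≃* t) (x : nrm t) (y : T) :
    (e (act e x y) : G) = x * (e y : G) * (x : G)⁻¹ := by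
  show (e (e.symm _) : G) = _
  rw [MulEquiv.apply_symm_apply]
  rfl

end cls

section main

variable {T : Type} [Group T] {G : Type} [Group G] {N : Subgroup G} {𝒯 : Set (Subgroup G)}

/-- the order of a complement -/
theorem card_compl [Finite G] [IsSimpleGroup T] (hS : Soc T N 𝒯) {A : Subgroup T} (hA : IsCoatom A)
    (hA0 : A ≠ ⊥) (h1 : ∀ α : MulAut T, ∃ s : T, A.map α.toMonoidHom = cj s A)
    (B : Subgroup G → Subgroup G) (hB : ∀ t ∈ 𝒯, Cls A t (B t)) (K : Subgroup G)
    (hK : (Stb hS B).IsComplement' K) : Nat.card K = A.index ^ Nat.card 𝒯 := by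
  classical
  have hfin : Fintype 𝒯 := Fintype.ofFinite _
  have hΩ : Nat.card ((t : 𝒯) → {C : Subgroup G // Cls A (t : Subgroup G) C}) =
      A.index ^ Nat.card 𝒯 := by
    rw [Nat.card_pi]
    have : ∀ t : 𝒯, Nat.card {C : Subgroup G // Cls A (t : Subgroup G) C} = A.index := by
      intro t
      obtain ⟨e⟩ := hS.equiv t t.2
      exact card_cls hA hA0 h1 e
    rw [Finset.prod_congr rfl fun t _ => this t, Finset.prod_const, Finset.card_univ,
      Nat.card_eq_fintype_card]
  rw [← hΩ]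
  have hcls : ∀ (κ : G) (t : 𝒯), Cls A (t : Subgroup G) (cj κ (B (cj κ⁻¹ t))) := by
    intro κ t
    have h := (hB _ (hS.conj κ⁻¹ t t.2)).cj κ
    rwa [cj_cj_inv] at h
  let F : K → ((t : 𝒯) → {C : Subgroup G // Cls A (t : Subgroup G) C}) :=
    fun κ t => ⟨cj (κ : G) (B (cj (κ : G)⁻¹ t)), hcls κ t⟩
  refine Nat.card_congr (Equiv.ofBijective F ⟨?_, ?_⟩)
  · intro κ κ' h
    have h2 : ((κ : G)⁻¹ * κ') ∈ Stb hS B := by
      rw [mem_Stb]
      intro t ht
      have h3 := congrArg Subtype.val (congrFun h ⟨cj (κ' : G) t, hS.conj _ t ht⟩)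
      have h4 : cj (κ : G) (B (cj (κ : G)⁻¹ (cj (κ' : G) t))) =
          cj (κ' : G) (B (cj (κ' : G)⁻¹ (cj (κ' : G) t))) := h3
      rw [cj_inv_cj] at h4
      rw [← cj_cj, ← h4, cj_inv_cj, cj_cj]
    have h3 : ((κ : G)⁻¹ * κ') ∈ Stb hS B ⊓ K := ⟨h2, K.mul_mem (K.inv_mem κ.2) κ'.2⟩
    rw [disjoint_iff.1 hK.disjoint, Subgroup.mem_bot] at h3
    exact Subtype.ext (inv_mul_eq_one.1 h3)
  · intro ω
    let B' : Subgroup G → Subgroup G := fun t => if h : t ∈ 𝒯 then (ω ⟨t, h⟩ : Subgroup G) else ⊥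
    have hB'1 : ∀ t (ht : t ∈ 𝒯), B' t = ω ⟨t, ht⟩ := fun t ht => dif_pos ht
    have hB' : ∀ t ∈ 𝒯, Cls A t (B' t) := by
      intro t ht
      rw [hB'1 t ht]
      exact (ω ⟨t, ht⟩).2
    obtain ⟨c, hc, h4⟩ := section_conj hS h1 B B' hB hB'
    obtain ⟨⟨⟨κ, hκ⟩, ⟨m, hm⟩⟩, hκm⟩ := hK.symm.2 c
    have h5 : c = κ * m := hκm.symm
    refine ⟨⟨κ, hκ⟩, ?_⟩
    funext t
    apply Subtype.ext
    show cj κ (B (cj κ⁻¹ t)) = ω t
    have h6 : κ = c * m⁻¹ := by rw [h5]; group
    have h7 : κ⁻¹ = m * c⁻¹ := by rw [h6]; group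
    have h8 : cj κ⁻¹ (t : Subgroup G) = cj m t := by
      rw [h7, ← cj_cj, hS.norm _ (N.inv_mem hc) _ t.2]
    have h9 : cj m (B t) = B (cj m t) := hm t t.2
    rw [h8, ← h9, h6, ← cj_cj, cj_inv_cj, h4 t t.2, hB'1 t t.2]

theorem no_soc2 [Finite G] [IsSimpleGroup T] [Finite T] (hS : Soc T N 𝒯) {A : Subgroup T}
    (hA : IsCoatom A)
    (hA0 : A ≠ ⊥) (h1 : ∀ α : MulAut T, ∃ s : T, A.map α.toMonoidHom = cj s A)
    {r q : ℕ} (hr : r.Prime) (hq : q.Prime) (hr7 : 7 ≤ r) (hq5 : 5 ≤ q)
    (hrA : r ∣ A.index) (hqA : q ∣ A.index) (hrT : ¬ r ^ 2 ∣ Nat.card (MulAut T))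
    (hqT : ¬ q ^ 3 ∣ Nat.card (MulAut T))
    (hD : ∀ D : Subgroup (MulAut T), r ∣ Nat.card D → q ∣ Nat.card D →
      ∀ j : ℕ, ¬ Nat.card D ∣ A.index ^ j)
    (hG : MaxCompl G) : False := by
  classical
  -- a section and a complement
  have hsec : ∃ B : Subgroup G → Subgroup G, ∀ t ∈ 𝒯, Cls A t (B t) := by
    have : ∀ t ∈ 𝒯, ∃ C : Subgroup G, Cls A t C := by
      intro t ht
      obtain ⟨e⟩ := hS.equiv t ht
      exact ⟨emb e A, e, rfl⟩
    choose! B hB using this
    exact ⟨B, hB⟩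
  obtain ⟨B, hB⟩ := hsec
  obtain ⟨K, hK⟩ := hG _ (stb_coatom hS hA hA0 h1 B hB)
  have hcard := card_compl hS hA hA0 h1 B hB K hK
  have hfin : Fintype 𝒯 := Fintype.ofFinite _
  -- the permutation action
  let ρ : K →* Equiv.Perm 𝒯 :=
    { toFun := fun κ =>
        { toFun := fun t => ⟨cj (κ : G) t, hS.conj _ t t.2⟩
          invFun := fun t => ⟨cj (κ : G)⁻¹ t, hS.conj _ t t.2⟩
          left_inv := fun t => Subtype.ext (cj_inv_cj _ _)
          right_inv := fun t => Subtype.ext (cj_cj_inv _ _) }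
      map_one' := by
        ext1 t
        exact Subtype.ext (cj_one _)
      map_mul' := fun a b => by
        ext1 t
        exact Subtype.ext (cj_cj _ _ _).symm }
  have hρ : ∀ (κ : ρ.ker) (t : 𝒯), ((κ : K) : G) ∈ nrm (t : Subgroup G) := by
    intro κ t
    have h2 : ρ (κ : K) = 1 := κ.2
    have h3 : ρ (κ : K) t = t := by rw [h2]; rfl
    exact congrArg Subtype.val h3
  have he : ∀ t : 𝒯, Nonempty (T ≃* (t : Subgroup G)) := fun t => hS.equiv t t.2
  let e : (t : 𝒯) → (T ≃* (t : Subgroup G)) := fun t => (he t).some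
  let jt : (t : 𝒯) → (ρ.ker →* nrm (t : Subgroup G)) := fun t =>
    { toFun := fun κ => ⟨((κ : K) : G), hρ κ t⟩
      map_one' := rfl
      map_mul' := fun _ _ => rfl }
  let φ : (t : 𝒯) → (ρ.ker →* MulAut T) := fun t => (act (e t)).comp (jt t)
  have hφ : ∀ (t : 𝒯) (κ : ρ.ker) (y : T),
      (e t (φ t κ y) : G) = ((κ : K) : G) * (e t y : G) * ((κ : K) : G)⁻¹ :=
    fun t κ y => act_apply (e t) (jt t κ) y
  -- joint injectivity
  have hinj : Function.Injective (MonoidHom.pi fun t : 𝒯 => (φ t).rangeRestrict) := by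
    rw [injective_iff_map_eq_one]
    intro κ hκ
    have h2 : ∀ (t : 𝒯), φ t κ = 1 := fun t => congrArg Subtype.val (congrFun hκ t)
    have h3 : ∀ t ∈ 𝒯, ∀ x ∈ t, ((κ : K) : G) * x = x * ((κ : K) : G) := by
      intro t ht x hx
      obtain ⟨y, hy⟩ := (e ⟨t, ht⟩).surjective ⟨x, hx⟩
      have h4 := hφ ⟨t, ht⟩ κ y
      rw [h2] at h4
      have h5 : (e ⟨t, ht⟩ y : G) = x := congrArg Subtype.val hy
      rw [MulAut.one_apply, h5] at h4
      nth_rewrite 2 [h4]
      group
    have h4 : ((κ : K) : G) ∈ Stb hS B := by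
      rw [mem_Stb]
      intro t ht
      rw [cj_of_comm (h3 t ht), cj_of_comm fun x hx => h3 t ht x ((hB t ht).le hx)]
    have h5 : ((κ : K) : G) ∈ Stb hS B ⊓ K := ⟨h4, (κ : K).2⟩
    rw [disjoint_iff.1 hK.disjoint, Subgroup.mem_bot] at h5
    exact Subtype.ext (Subtype.ext h5)
  have hdvd : Nat.card ρ.ker ∣ ∏ t : 𝒯, Nat.card (φ t).range := by
    rw [← Nat.card_pi]
    exact Subgroup.card_dvd_of_injective _ hinj
  have hdvd2 : ∀ t : 𝒯, Nat.card (φ t).range ∣ A.index ^ Nat.card 𝒯 := by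
    intro t
    rw [← hcard]
    exact (Subgroup.card_range_dvd (φ t)).trans (Subgroup.card_subgroup_dvd_card ρ.ker)
  have hidx : Nat.card ρ.ker * ρ.ker.index = Nat.card K := Subgroup.card_mul_index _
  have hidx2 : ρ.ker.index ∣ (Nat.card 𝒯).factorial := by
    rw [Subgroup.index_ker, ← Nat.card_perm]
    exact Subgroup.card_subgroup_dvd_card _
  -- valuations
  set k : ℕ := Nat.card 𝒯 with hk
  have hk0 : 0 < k := by
    have : Nonempty 𝒯 := hS.ne.to_subtype
    exact Finite.card_pos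
  have hA1 : A.index ≠ 0 := Subgroup.index_ne_zero_of_finite
  have hD1 : ∀ t : 𝒯, Nat.card (φ t).range ≠ 0 := fun t => Nat.card_pos.ne'
  have hgen : ∀ (s a : ℕ), s.Prime → s ∣ A.index → ¬ s ^ (a + 1) ∣ Nat.card (MulAut T) →
      (s - 1) * k ≤ (s - 1) * (a * (Finset.univ.filter fun t : 𝒯 => s ∣ Nat.card (φ t).range).card) + k := by
    intro s a hs hsA hsT
    have : Fact s.Prime := ⟨hs⟩
    have v1 : k ≤ padicValNat s (Nat.card K) := by
      rw [hcard, padicValNat.pow]
      have : 1 ≤ padicValNat s A.index := one_le_padicValNat_of_dvd hA1 hsA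
      nlinarith
    have v2 : padicValNat s (Nat.card K) = padicValNat s (Nat.card ρ.ker) + padicValNat s ρ.ker.index := by
      rw [← hidx, padicValNat.mul Nat.card_pos.ne' Subgroup.index_ne_zero_of_finite]
    have v3 : padicValNat s ρ.ker.index ≤ padicValNat s k.factorial :=
      (padicValNat_dvd_iff_le (p := s) (Nat.factorial_ne_zero k)).1 (pow_padicValNat_dvd.trans hidx2)
    have v4 : (s - 1) * padicValNat s k.factorial ≤ k := by
      rw [sub_one_mul_padicValNat_factorial]
      exact Nat.sub_le _ _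
    have v5 : padicValNat s (Nat.card ρ.ker) ≤ ∑ t : 𝒯, padicValNat s (Nat.card (φ t).range) := by
      have hp0 : ∏ t : 𝒯, Nat.card (φ t).range ≠ 0 := Finset.prod_ne_zero_iff.2 fun t _ => hD1 t
      have h2 := (padicValNat_dvd_iff_le (p := s) hp0).1 (pow_padicValNat_dvd.trans hdvd)
      refine h2.trans (le_of_eq ?_)
      have h3 : ∀ S : Finset 𝒯, padicValNat s (∏ t ∈ S, Nat.card (φ t).range) =
          ∑ t ∈ S, padicValNat s (Nat.card (φ t).range) := by
        intro S
        induction S using Finset.induction_on with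
        | empty => simp
        | insert a S ha ih =>
          rw [Finset.prod_insert ha, Finset.sum_insert ha, padicValNat.mul (hD1 a)
            (Finset.prod_ne_zero_iff.2 fun t _ => hD1 t), ih]
      exact h3 _
    have v6 : ∀ t : 𝒯, padicValNat s (Nat.card (φ t).range) ≤
        if s ∣ Nat.card (φ t).range then a else 0 := by
      intro t
      split_ifs with h
      · by_contra hcon
        push Not at hcon
        apply hsT
        refine (pow_dvd_pow s hcon).trans (pow_padicValNat_dvd.trans ?_)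
        exact Subgroup.card_subgroup_dvd_card _
      · rw [padicValNat.eq_zero_of_not_dvd h]
    have v7 : ∑ t : 𝒯, padicValNat s (Nat.card (φ t).range) ≤
        a * (Finset.univ.filter fun t : 𝒯 => s ∣ Nat.card (φ t).range).card := by
      refine (Finset.sum_le_sum fun t _ => v6 t).trans (le_of_eq ?_)
      rw [← Finset.sum_filter, Finset.sum_const, smul_eq_mul, mul_comm]
    have v8 : k ≤ a * (Finset.univ.filter fun t : 𝒯 => s ∣ Nat.card (φ t).range).card +
        padicValNat s k.factorial := by omega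
    calc (s - 1) * k ≤ (s - 1) * (a * (Finset.univ.filter fun t : 𝒯 =>
          s ∣ Nat.card (φ t).range).card + padicValNat s k.factorial) := Nat.mul_le_mul_left _ v8
      _ = (s - 1) * (a * (Finset.univ.filter fun t : 𝒯 =>
          s ∣ Nat.card (φ t).range).card) + (s - 1) * padicValNat s k.factorial := by ring
      _ ≤ _ := Nat.add_le_add_left v4 _
  have g1 := hgen r 1 hr hrA hrT
  have g2 := hgen q 2 hq hqA hqT
  -- disjointness
  have hdis : Disjoint (Finset.univ.filter fun t : 𝒯 => r ∣ Nat.card (φ t).range)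
      (Finset.univ.filter fun t : 𝒯 => q ∣ Nat.card (φ t).range) := by
    rw [Finset.disjoint_filter]
    intro t _ ht1 ht2
    exact hD _ ht1 ht2 k (hdvd2 t)
  have hsum := Finset.card_union_of_disjoint hdis
  have hle : ((Finset.univ.filter fun t : 𝒯 => r ∣ Nat.card (φ t).range) ∪
      (Finset.univ.filter fun t : 𝒯 => q ∣ Nat.card (φ t).range)).card ≤ k := by
    refine (Finset.card_le_univ _).trans (le_of_eq ?_)
    rw [hk, Nat.card_eq_fintype_card]
  rw [hsum] at hle
  set X := (Finset.univ.filter fun t : 𝒯 => r ∣ Nat.card (φ t).range).card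
  set Y := (Finset.univ.filter fun t : 𝒯 => q ∣ Nat.card (φ t).range).card
  obtain ⟨r', rfl⟩ : ∃ r', r = r' + 7 := ⟨r - 7, by omega⟩
  obtain ⟨q', rfl⟩ : ∃ q', q = q' + 5 := ⟨q - 5, by omega⟩
  have e1 : r' + 7 - 1 = r' + 6 := rfl
  have e2 : q' + 5 - 1 = q' + 4 := rfl
  rw [e1] at g1
  rw [e2] at g2
  have g3 : 5 * k ≤ 6 * X := by
    by_contra hcon
    push Not at hcon
    have h2 : (r' + 6) * k > (r' + 6) * (1 * X) + k := by
      have h3 : X < k := by omega
      nlinarith
    omega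
  have g4 : 3 * k ≤ 8 * Y := by
    by_contra hcon
    push Not at hcon
    have h2 : (q' + 4) * k > (q' + 4) * (2 * Y) + k := by
      have h3 : 2 * Y < k := by omega
      nlinarith
    omega
  omega

end main

/-- reduction to minimal normal subgroups -/
theorem of_no_soc {T : Type} [Group T] [IsSimpleGroup T]
    (hno : ∀ (G : Type) [Group G] [Finite G] (N : Subgroup G) (𝒯 : Set (Subgroup G)),
      Soc T N 𝒯 → MaxCompl G → False) :
    ∀ (n : ℕ) (G : Type) [Group G] [Finite G], Nat.card G = n → MaxCompl G → ¬ IsFactor T G := by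
  intro n
  induction n using Nat.strong_induction_on with
  | _ n ih =>
    intro G _ _ hn hG hT
    have : Nontrivial G := hT.nontrivial
    obtain ⟨N, 𝒯, hS⟩ := exists_soc (T := T) (G := G) (by
      intro P hP hP0
      rcases hT.split P hP with h | h
      · exact h
      · exfalso
        have h3 : Nat.card (G ⧸ P) < n := by
          rw [← hn, ← Subgroup.index_eq_card]
          have h4 := Subgroup.card_mul_index P
          have h5 : 1 < Nat.card P := by
            have := (Subgroup.nontrivial_iff_ne_bot P).2 hP0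
            exact Finite.one_lt_card
          have h6 : 0 < P.index := Nat.pos_of_ne_zero Subgroup.index_ne_zero_of_finite
          rw [← h4]
          nlinarith
        exact ih _ h3 (G ⧸ P) rfl (hG.quotient P) h)
    exact hno G N 𝒯 hS hG

end Pool.Agent.V8H87.CM
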