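import Mathlib

/-! Subgroups of order prime to `6` and divisible by `r` of the symmetric groups of degree `7`
(`r = 7`) and `15` (`r = 13`) have order `r`. -/

namespace Pool.Agent.V8H87.CM

open Subgroup

theorem norm_le_cent {G : Type*} [Group G] [Finite G] {p : ℕ} [Fact p.Prime] (P : Sylow p G)
    (hcard : Nat.card P = p) (hc : (Nat.card G).Coprime (p - 1)) :
    normalizer P ≤ centralizer (P : Set G) := by
  have hP : IsCyclic P := isCyclic_of_prime_card hcard
  have key := card_dvd_of_injective _ (QuotientGroup.kerLift_injective P.normalizerMonoidHom)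
  rw [normalizerMonoidHom_ker, ← index, ← relIndex] at key
  refine relIndex_eq_one.mp (Nat.eq_one_of_dvd_coprimes ?_ dvd_rfl key)
  rw [hP.card_mulAut, hcard, Nat.totient_prime Fact.out]
  apply Nat.Coprime.coprime_dvd_left <| relIndex_dvd_card ..
  apply Nat.Coprime.coprime_dvd_left <| card_subgroup_dvd_card _
  exact hc

theorem card_eq_gen' {n r s : ℕ} (hr : r.Prime) (hn : n < 2 * r) (hn2 : n ≤ r + 2)
    (D : Subgroup (Equiv.Perm (Fin n))) (h1 : r ∣ Nat.card D) (hs : 2 ∣ s)
    (h2 : (Nat.card D).Coprime s)
    (hc : (Nat.card D).Coprime (r - 1)) (hfac : ¬ r ^ 2 ∣ n.factorial)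
    (horb : ∀ m, r ≤ m → m ≤ n → m.Coprime s → m = r) : Nat.card D = r := by
  have : Fact r.Prime := ⟨hr⟩
  have hDn : Nat.card D ∣ n.factorial := by
    have := Subgroup.card_subgroup_dvd_card D
    rwa [Nat.card_perm, Nat.card_fin] at this
  let P : Sylow r D := default
  have hPc : Nat.card P = r := by
    rw [P.card_eq_multiplicity]
    have hk : (Nat.card D).factorization r = 1 := by
      apply le_antisymm
      · by_contra h
        push Not at h
        apply hfac
        have : r ^ 2 ∣ Nat.card D :=
          (hr.pow_dvd_iff_le_factorization Nat.card_pos.ne').2 h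
        exact this.trans hDn
      · exact (hr.dvd_iff_one_le_factorization Nat.card_pos.ne').1 h1
    rw [hk, pow_one]
  have hN := norm_le_cent P hPc hc
  have hcompl := MonoidHom.ker_transferSylow_isComplement' P hN
  set φ := MonoidHom.transferSylow P hN with hφ
  have hcard : Nat.card φ.ker * r = Nat.card D := by
    have := hcompl.card_mul_card
    rwa [hPc] at this
  -- an element of order `r`
  obtain ⟨g, hg⟩ := exists_prime_orderOf_dvd_card' (G := D) r h1
  have hg' : orderOf (g : Equiv.Perm (Fin n)) = r := by rw [Subgroup.orderOf_coe, hg]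
  have hcyc : (g : Equiv.Perm (Fin n)).IsCycle :=
    Equiv.Perm.isCycle_of_prime_order' (by rw [hg']; exact hr)
      (by rw [hg', Fintype.card_fin]; exact hn)
  have hsupp : (g : Equiv.Perm (Fin n)).support.card = r := by rw [← hcyc.orderOf, hg']
  -- the stabilizers
  have hstab : ∀ x ∈ (g : Equiv.Perm (Fin n)).support, ∀ h ∈ φ.ker,
      (h : Equiv.Perm (Fin n)) x = x := by
    intro x hx
    have hidx : (MulAction.stabilizer D x).index = (MulAction.orbit D x).ncard :=
      MulAction.index_stabilizer D x
    have hor : (MulAction.orbit D x).ncard = r := by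
      apply horb
      · rw [← hsupp, ← Set.ncard_coe_finset]
        refine Set.ncard_le_ncard ?_ (Set.toFinite _)
        intro y hy
        obtain ⟨i, hi⟩ := hcyc.exists_pow_eq (Equiv.Perm.mem_support.1 hx)
          (Equiv.Perm.mem_support.1 (Finset.mem_coe.1 hy))
        refine MulAction.mem_orbit_iff.2 ⟨g ^ i, ?_⟩
        rw [Subgroup.smul_def, Subgroup.coe_pow, Equiv.Perm.smul_def]
        exact hi
      · calc (MulAction.orbit D x).ncard ≤ (Set.univ : Set (Fin n)).ncard :=
              Set.ncard_le_ncard (Set.subset_univ _) (Set.toFinite _)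
          _ = n := by rw [Set.ncard_univ, Nat.card_fin]
      · rw [← hidx]
        exact Nat.Coprime.coprime_dvd_left (Subgroup.index_dvd_card _) h2
    have hst : Nat.card (MulAction.stabilizer D x) * r = Nat.card D := by
      rw [← hor, ← hidx]
      exact Subgroup.card_mul_index _
    have hcs : Nat.card (MulAction.stabilizer D x) = Nat.card φ.ker :=
      Nat.eq_of_mul_eq_mul_right hr.pos (hst.trans hcard.symm)
    have hcop : (Nat.card (MulAction.stabilizer D x)).Coprime r := by
      rw [hcs, Nat.coprime_comm, Nat.Prime.coprime_iff_not_dvd hr]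
      exact MonoidHom.not_dvd_card_ker_transferSylow P hN
    have hle : MulAction.stabilizer D x ≤ φ.ker := by
      intro h hh
      rw [MonoidHom.mem_ker, ← orderOf_eq_one_iff]
      have e1 : orderOf (φ h) ∣ Nat.card (MulAction.stabilizer D x) :=
        (orderOf_map_dvd φ h).trans (by
          have := orderOf_dvd_natCard (⟨h, hh⟩ : MulAction.stabilizer D x)
          rwa [Subgroup.orderOf_mk] at this)
      have e2 : orderOf (φ h) ∣ r := by
        have := orderOf_dvd_natCard (φ h)
        rwa [hPc] at this
      exact Nat.eq_one_of_dvd_coprimes hcop e1 e2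
    have heq : MulAction.stabilizer D x = φ.ker :=
      Subgroup.eq_of_le_of_card_ge hle hcs.ge
    intro h hh
    rw [← heq] at hh
    exact hh
  have hker : φ.ker = ⊥ := by
    rw [Subgroup.eq_bot_iff_forall]
    intro h hh
    by_contra hne
    have hne' : (h : Equiv.Perm (Fin n)) ≠ 1 := by
      intro h'
      exact hne (Subtype.ext h')
    have hdisj : Disjoint (h : Equiv.Perm (Fin n)).support (g : Equiv.Perm (Fin n)).support := by
      rw [Finset.disjoint_left]
      intro x hx hx'
      exact (Equiv.Perm.mem_support.1 hx) (hstab x hx' h hh)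
    have hle2 : (h : Equiv.Perm (Fin n)).support.card + r ≤ n := by
      rw [← hsupp, ← Finset.card_union_of_disjoint hdisj]
      exact (Finset.card_le_univ _).trans (by rw [Fintype.card_fin])
    have hge : 2 ≤ (h : Equiv.Perm (Fin n)).support.card :=
      Equiv.Perm.two_le_card_support_of_ne_one hne'
    have hsw : (h : Equiv.Perm (Fin n)).IsSwap :=
      Equiv.Perm.card_support_eq_two.1 (by omega)
    have ho : orderOf h = 2 := by
      rw [← Subgroup.orderOf_coe]
      exact hsw.orderOf
    have h2d : 2 ∣ Nat.card D := by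
      rw [← ho]
      exact orderOf_dvd_natCard h
    have := Nat.dvd_gcd h2d hs
    rw [Nat.Coprime.gcd_eq_one h2] at this
    omega
  rw [hker, Subgroup.card_bot, one_mul] at hcard
  exact hcard.symm

theorem card_eq_gen {n r : ℕ} (hr : r.Prime) (hn : n < 2 * r) (hn2 : n ≤ r + 2)
    (D : Subgroup (Equiv.Perm (Fin n))) (h1 : r ∣ Nat.card D) (h2 : (Nat.card D).Coprime 6)
    (hc : (Nat.card D).Coprime (r - 1)) (hfac : ¬ r ^ 2 ∣ n.factorial)
    (horb : ∀ m, r ≤ m → m ≤ n → m.Coprime 6 → m = r) : Nat.card D = r :=
  card_eq_gen' hr hn hn2 D h1 (by norm_num) h2 hc hfac horb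

/-- A subgroup of odd order divisible by `5` of the symmetric group of degree `6` has order `5`. -/
theorem card_eq_five (D : Subgroup (Equiv.Perm (Fin 6))) (h1 : 5 ∣ Nat.card D)
    (h2 : Odd (Nat.card D)) : Nat.card D = 5 := by
  have h2' : (Nat.card D).Coprime 2 := Nat.coprime_two_right.2 h2
  refine card_eq_gen' (s := 2) (by norm_num) (by norm_num) (by norm_num) D h1 (by norm_num)
    h2' ?_ ?_ ?_
  · show (Nat.card D).Coprime 4
    have : (4 : ℕ) ∣ 2 ^ 2 := by norm_num
    exact Nat.Coprime.coprime_dvd_right this (Nat.Coprime.pow_right 2 h2')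
  · decide
  · intro m h3 h4 h5
    interval_cases m
    · rfl
    · exact absurd h5 (by norm_num)

theorem card_eq_seven (D : Subgroup (Equiv.Perm (Fin 7))) (h1 : 7 ∣ Nat.card D)
    (h2 : (Nat.card D).Coprime 6) : Nat.card D = 7 := by
  refine card_eq_gen (by norm_num) (by norm_num) (by norm_num) D h1 h2 h2 ?_ ?_
  · decide
  · intro m h3 h4 _
    omega

theorem card_eq_thirteen (D : Subgroup (Equiv.Perm (Fin 15))) (h1 : 13 ∣ Nat.card D)
    (h2 : (Nat.card D).Coprime 6) : Nat.card D = 13 := by
  refine card_eq_gen (by norm_num) (by norm_num) (by norm_num) D h1 h2 ?_ ?_ ?_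
  · show (Nat.card D).Coprime 12
    have : (12 : ℕ) ∣ 6 ^ 2 := by norm_num
    exact Nat.Coprime.coprime_dvd_right this (Nat.Coprime.pow_right 2 h2)
  · simp only [Nat.factorial]
    norm_num
  · intro m h3 h4 h5
    interval_cases m
    · rfl
    · exact absurd h5 (by norm_num)
    · exact absurd h5 (by norm_num)

end Pool.Agent.V8H87.CM
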