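import Pool.Agent.V8H87.CM.Alt
import Pool.Agent.V8H87.CM.CritB
import Pool.Agent.V8H87.CM.Odd

/-!
The alternating groups of degrees 7 and 15.
-/

set_option autoImplicit false

open MulAction Equiv.Perm

namespace Pool.Agent.V8H87.CM

/-- the automorphism group of the alternating group -/
noncomputable def autEquiv {n : ℕ} (hn : 5 ≤ n) (h6 : n ≠ 6) :
    Equiv.Perm (Fin n) ≃* MulAut (alternatingGroup (Fin n)) :=
  MulEquiv.ofBijective (MulAut.conjNormal (H := alternatingGroup (Fin n))) ⟨by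
    rw [injective_iff_map_eq_one]
    intro σ hσ
    apply centralizer_alt (by omega)
    intro x
    have h1 : ((MulAut.conjNormal σ x : alternatingGroup (Fin n)) : Equiv.Perm (Fin n)) =
        σ * x * σ⁻¹ := MulAut.conjNormal_apply σ x
    rw [hσ] at h1
    have h2 : (x : Equiv.Perm (Fin n)) = σ * x * σ⁻¹ := h1
    nth_rewrite 2 [h2]
    group, by
    intro α
    obtain ⟨σ, hσ⟩ := aut_alt n hn h6 α
    refine ⟨σ, ?_⟩
    ext1 x
    apply Subtype.ext
    rw [hσ x]
    exact MulAut.conjNormal_apply σ x⟩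

theorem card_aut {n : ℕ} (hn : 5 ≤ n) (h6 : n ≠ 6) :
    Nat.card (MulAut (alternatingGroup (Fin n))) = n.factorial := by
  rw [← Nat.card_congr (autEquiv hn h6).toEquiv, Nat.card_perm, Nat.card_eq_fintype_card,
    Fintype.card_fin]

theorem card_map {n : ℕ} (hn : 5 ≤ n) (h6 : n ≠ 6)
    (D : Subgroup (MulAut (alternatingGroup (Fin n)))) :
    Nat.card (D.map (autEquiv hn h6).symm.toMonoidHom) = Nat.card D :=
  (Nat.card_congr (D.equivMapOfInjective _ (autEquiv hn h6).symm.injective).toEquiv).symm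

theorem not_alt2 {n r q c : ℕ} (hn : 7 ≤ n) (hr : r.Prime) (hq : q.Prime)
    (hr7 : 7 ≤ r) (hq5 : 5 ≤ q) (hrq : r ≠ q) (hc : n.choose 3 = c) (hrc : r ∣ c) (hqc : q ∣ c)
    (hc6 : c.Coprime 6) (hr2 : ¬ r ^ 2 ∣ n.factorial) (hq3 : ¬ q ^ 3 ∣ n.factorial)
    (hD : ∀ D : Subgroup (Equiv.Perm (Fin n)), r ∣ Nat.card D → (Nat.card D).Coprime 6 →
      Nat.card D = r) (G : Type) [Group G] [Finite G] (hG : MaxCompl G) :
    ¬ IsFactor (alternatingGroup (Fin n)) G := by
  have hn5 : 5 ≤ n := by omega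
  have h6 : n ≠ 6 := by omega
  obtain ⟨x, f1, f2, f3, f4⟩ := alt_facts (m := 3) hn5 h6 (by norm_num) (by omega)
  have : IsSimpleGroup (alternatingGroup (Fin n)) := alternatingGroup.isSimpleGroup
    (by rw [Nat.card_eq_fintype_card, Fintype.card_fin]; exact hn5)
  refine of_no_soc (fun G _ _ N 𝒯 hS hG => ?_) _ G rfl hG
  refine no_soc2 hS f1 f2 f4 hr hq hr7 hq5 (by rw [f3, hc]; exact hrc) (by rw [f3, hc]; exact hqc)
    (by rw [card_aut hn5 h6]; exact hr2) (by rw [card_aut hn5 h6]; exact hq3) ?_ hG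
  intro D h1 h2 j h3
  rw [f3, hc] at h3
  have h4 : (Nat.card D).Coprime 6 := Nat.Coprime.coprime_dvd_left h3 (hc6.pow_left j)
  have h5 := hD (D.map (autEquiv hn5 h6).symm.toMonoidHom) (by rw [card_map]; exact h1)
    (by rw [card_map]; exact h4)
  rw [card_map] at h5
  rw [h5] at h2
  exact hrq ((Nat.prime_dvd_prime_iff_eq hq hr).1 h2).symm

theorem not_seven (G : Type) [Group G] [Finite G] (hG : MaxCompl G) :
    ¬ IsFactor (alternatingGroup (Fin 7)) G :=
  not_alt2 (r := 7) (q := 5) (c := 35) (by norm_num) (by norm_num) (by norm_num) (by norm_num)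
    (by norm_num) (by norm_num) (by decide) (by norm_num) (by norm_num) (by norm_num)
    (by norm_num [Nat.factorial]) (by norm_num [Nat.factorial])
    (fun D h1 h2 => card_eq_seven D h1 h2) G hG

theorem not_fifteen (G : Type) [Group G] [Finite G] (hG : MaxCompl G) :
    ¬ IsFactor (alternatingGroup (Fin 15)) G :=
  not_alt2 (r := 13) (q := 7) (c := 455) (by norm_num) (by norm_num) (by norm_num) (by norm_num)
    (by norm_num) (by norm_num) (by decide) (by norm_num) (by norm_num) (by norm_num)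
    (by norm_num [Nat.factorial]) (by norm_num [Nat.factorial])
    (fun D h1 h2 => card_eq_thirteen D h1 h2) G hG

end Pool.Agent.V8H87.CM
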