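import Pool.Agent.V8H87.CM.Aut

set_option autoImplicit false

namespace Pool.Agent.V8H87.CM.A6

open Equiv Equiv.Perm

/-- an automorphism which sends three cycles to three cycles is a conjugation -/
theorem aut_core (m : ℕ) (α : MulAut (alternatingGroup (Fin (m + 5))))
    (hthree : ∀ t : alternatingGroup (Fin (m + 5)), IsThreeCycle (t : Perm (Fin (m + 5))) →
      IsThreeCycle ((α t : alternatingGroup (Fin (m + 5))) : Perm (Fin (m + 5)))) :
    ∃ σ : Perm (Fin (m + 5)), ∀ x : alternatingGroup (Fin (m + 5)),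
      ((α x : alternatingGroup (Fin (m + 5))) : Perm (Fin (m + 5))) =
        σ * (x : Perm (Fin (m + 5))) * σ⁻¹ := by
  classical
  -- the images of the three cycles
  let U : Fin (m + 5) → alternatingGroup (Fin (m + 5)) := fun k =>
    if hk : k ≠ 0 then ⟨u k, u_sign k hk⟩ else 1
  have hU : ∀ k, k ≠ 0 → ((U k : alternatingGroup (Fin (m + 5))) : Perm (Fin (m + 5))) = u k := by
    intro k hk
    simp only [U, dif_pos hk]
  let v : Fin (m + 5) → Perm (Fin (m + 5)) := fun k =>
    ((α (U k) : alternatingGroup (Fin (m + 5))) : Perm (Fin (m + 5)))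
  have hv3 : ∀ k, k ≠ 0 → k ≠ 1 → IsThreeCycle (v k) := by
    intro k hk hk1
    refine hthree (U k) ?_
    rw [hU k hk]
    exact u_three k hk hk1
  have hvinj : ∀ k l, k ≠ 0 → k ≠ 1 → l ≠ 0 → l ≠ 1 → v k = v l → k = l := by
    intro k l hk hk1 hl hl1 h
    have h2 : U k = U l := α.injective (Subtype.ext h)
    have h3 : u k = u l := by rw [← hU k hk, ← hU l hl, h2]
    rw [← u_at_one k, ← u_at_one l, h3]
  have hshare : ∀ k l, k ≠ 0 → k ≠ 1 → l ≠ 0 → l ≠ 1 → k ≠ l →
      ∃ a, v k a ≠ a ∧ v l a = v k a := by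
    intro k l hk hk1 hl hl1 hkl
    refine share (hv3 k hk hk1) (hv3 l hl hl1) ?_ ?_
    · intro x
      have h1 : U k * (U l * (U k * U l)) = 1 := by
        apply Subtype.ext
        show ((U k : alternatingGroup (Fin (m + 5))) : Perm (Fin (m + 5))) *
          (((U l : alternatingGroup (Fin (m + 5))) : Perm (Fin (m + 5))) *
          (((U k : alternatingGroup (Fin (m + 5))) : Perm (Fin (m + 5))) *
          ((U l : alternatingGroup (Fin (m + 5))) : Perm (Fin (m + 5))))) = 1
        rw [hU k hk, hU l hl]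
        ext1 y
        exact u_invol k l hk hk1 hl hl1 hkl y
      have h2 : α (U k * (U l * (U k * U l))) = 1 := by rw [h1, map_one]
      rw [map_mul, map_mul, map_mul] at h2
      have h3 := congrArg (fun z : alternatingGroup (Fin (m + 5)) => (z : Perm (Fin (m + 5))) x) h2
      exact h3
    · intro h
      have h1 : α (U k * U l) = 1 := by
        rw [map_mul]
        exact Subtype.ext h
      have h2 : U k * U l = 1 := by
        rw [← map_one α] at h1
        exact α.injective h1
      have h3 : u k * u l = 1 := by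
        rw [← hU k hk, ← hU l hl]
        exact congrArg Subtype.val h2
      have h4 : u k (u l 0) = 0 := by
        have := congrArg (fun z : Perm (Fin (m + 5)) => z 0) h3
        exact this
      rw [u_zero l hl1, u_at_one k] at h4
      exact hk h4
  have w0 : ((0 : Fin (m + 5)) : ℕ) = 0 := rfl
  have w1 : ((1 : Fin (m + 5)) : ℕ) = 1 := Nat.mod_eq_of_lt (show 1 < m + 5 by omega)
  have w2 : ((2 : Fin (m + 5)) : ℕ) = 2 := Nat.mod_eq_of_lt (show 2 < m + 5 by omega)
  have w3 : ((3 : Fin (m + 5)) : ℕ) = 3 := Nat.mod_eq_of_lt (show 3 < m + 5 by omega)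
  have t0 : (2 : Fin (m + 5)) ≠ 0 := by
    intro h
    have := congrArg Fin.val h
    rw [w2, w0] at this
    omega
  have t1 : (2 : Fin (m + 5)) ≠ 1 := by
    intro h
    have := congrArg Fin.val h
    rw [w2, w1] at this
    omega
  have s0 : (3 : Fin (m + 5)) ≠ 0 := by
    intro h
    have := congrArg Fin.val h
    rw [w3, w0] at this
    omega
  have s1 : (3 : Fin (m + 5)) ≠ 1 := by
    intro h
    have := congrArg Fin.val h
    rw [w3, w1] at this
    omega
  have st : (2 : Fin (m + 5)) ≠ 3 := by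
    intro h
    have := congrArg Fin.val h
    rw [w2, w3] at this
    omega
  obtain ⟨a, ha, ha'⟩ := hshare 2 3 t0 t1 s0 s1 st
  obtain ⟨b, hb⟩ : ∃ b, v 2 a = b := ⟨_, rfl⟩
  rw [hb] at ha ha'
  have V2 := hv3 2 t0 t1
  have V3 := hv3 3 s0 s1
  have hab : a ≠ b := Ne.symm ha
  have hcd : v 2 b ≠ v 3 b := fun h => st (hvinj 2 3 t0 t1 s0 s1 (three_ext V2 V3 hb ha' hab h))
  have hcommon : ∀ k, k ≠ 0 → k ≠ 1 → v k a = b := by
    intro k hk hk1
    by_cases k2 : k = 2
    · rw [k2, hb]
    by_cases k3 : k = 3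
    · rw [k3, ha']
    have Vk := hv3 k hk hk1
    obtain ⟨x, hx, hx'⟩ := hshare 2 k t0 t1 hk hk1 (Ne.symm k2)
    obtain ⟨y, hy, hy'⟩ := hshare 3 k s0 s1 hk hk1 (Ne.symm k3)
    have h2a : v 2 a ≠ a := by rw [hb]; exact ha
    have h3a : v 3 a ≠ a := by rw [ha']; exact ha
    have e2 := three_cube V2 a
    have e3 := three_cube V3 a
    rw [hb] at e2
    rw [ha'] at e3
    rcases three_supp V2 h2a hx with h | h | h
    · rw [← hb, ← h, hx', h]
    · -- x = b
      rw [hb] at h
      rcases three_supp V3 h3a hy with h' | h' | h'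
      · rw [← ha', ← h', hy', h']
      · rw [ha'] at h'
        exfalso
        apply hcd
        rw [← h, ← hx', h, ← h', ← hy', h']
      · rw [ha'] at h'
        exfalso
        -- v k b = v 2 b, v k (v 3 b) = a
        have m1 : v k b = v 2 b := by rw [← h, hx']
        have m2 : v k (v 3 b) = a := by rw [← h', hy', h', e3]
        have n1 : v k b ≠ b := by
          rw [m1, ← h]
          exact hx
        have n2 : v k (v 3 b) ≠ v 3 b := by
          rw [m2]
          intro hh
          rw [← hh] at e3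
          exact h3a e3
        rcases three_supp Vk n1 n2 with q | q | q
        · rw [q, q] at e3
          exact hab e3.symm
        · rw [m1] at q
          exact hcd q.symm
        · have q2 := three_cube Vk b
          rw [← q, m2] at q2
          exact hab q2
    · -- x = v 2 b
      rw [hb] at h
      have m1 : v k (v 2 b) = a := by rw [← h, hx', h, e2]
      rcases three_supp V3 h3a hy with h' | h' | h'
      · rw [← ha', ← h', hy', h']
      · rw [ha'] at h'
        have m2 : v k b = v 3 b := by rw [← h', hy']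
        have n1 : v k (v 2 b) ≠ v 2 b := by
          rw [← h, hx']
          exact hx
        have n2 : v k b ≠ b := by
          rw [m2, ← h']
          exact hy
        rcases three_supp Vk n1 n2 with q | q | q
        · exfalso
          -- b = v 2 b
          rw [h, ← q] at hx
          exact hx q.symm
        · exfalso
          rw [m1] at q
          exact hab q.symm
        · rw [m1] at q
          exact q.symm
      · rw [ha'] at h'
        exfalso
        have m2 : v k (v 3 b) = a := by rw [← h', hy', h', e3]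
        exact hcd ((v k).injective (m1.trans m2.symm))
  have hkb : ∀ k, k ≠ 0 → k ≠ 1 → v k b ≠ b := by
    intro k hk hk1 h
    exact hab ((v k).injective ((hcommon k hk hk1).trans h.symm))
  have hka : ∀ k, k ≠ 0 → k ≠ 1 → v k b ≠ a := by
    intro k hk hk1 h
    have h3 := three_cube (hv3 k hk hk1) a
    rw [hcommon k hk hk1, h, hcommon k hk hk1] at h3
    exact hab h3.symm
  have hkc : ∀ k, k ≠ 0 → k ≠ 1 → v k (v k b) = a := by
    intro k hk hk1
    have h3 := three_cube (hv3 k hk hk1) a
    rwa [hcommon k hk hk1] at h3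
  let s : Fin (m + 5) → Fin (m + 5) := fun x => if x = 0 then a else if x = 1 then b else v x b
  have s_0 : s 0 = a := by simp [s]
  have s_1 : s 1 = b := by simp [s]
  have s_k : ∀ k, k ≠ 0 → k ≠ 1 → s k = v k b := by
    intro k hk hk1
    simp [s, hk, hk1]
  have hinj : Function.Injective s := by
    intro x y hxy
    by_cases x0 : x = 0
    · by_cases y0 : y = 0
      · rw [x0, y0]
      by_cases y1 : y = 1
      · rw [x0, y1, s_0, s_1] at hxy
        exact absurd hxy hab
      · rw [x0, s_0, s_k y y0 y1] at hxy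
        exact absurd hxy.symm (hka y y0 y1)
    by_cases x1 : x = 1
    · by_cases y0 : y = 0
      · rw [x1, y0, s_0, s_1] at hxy
        exact absurd hxy.symm hab
      by_cases y1 : y = 1
      · rw [x1, y1]
      · rw [x1, s_1, s_k y y0 y1] at hxy
        exact absurd hxy.symm (hkb y y0 y1)
    · by_cases y0 : y = 0
      · rw [y0, s_0, s_k x x0 x1] at hxy
        exact absurd hxy (hka x x0 x1)
      by_cases y1 : y = 1
      · rw [y1, s_1, s_k x x0 x1] at hxy
        exact absurd hxy (hkb x x0 x1)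
      · rw [s_k x x0 x1, s_k y y0 y1] at hxy
        exact hvinj x y x0 x1 y0 y1 (three_ext (hv3 x x0 x1) (hv3 y y0 y1) (hcommon x x0 x1)
          (hcommon y y0 y1) hab hxy)
  let σ : Perm (Fin (m + 5)) := Equiv.ofBijective s (Finite.injective_iff_bijective.1 hinj)
  have hσ : ∀ x, σ x = s x := fun _ => rfl
  have hcj : ∀ k, k ≠ 0 → v k = σ * u k * σ⁻¹ := by
    intro k hk
    by_cases hk1 : k = 1
    · subst hk1
      have h1 : U 1 = 1 := by
        apply Subtype.ext
        rw [hU 1 hk, u_one]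
        rfl
      have h2 : v 1 = 1 := by
        show ((α (U 1) : alternatingGroup (Fin (m + 5))) : Perm (Fin (m + 5))) = 1
        rw [h1, map_one]
        rfl
      rw [h2, u_one, mul_one, mul_inv_cancel]
    · rw [eq_mul_inv_iff_mul_eq]
      ext1 x
      show v k (σ x) = σ (u k x)
      rw [hσ, hσ]
      by_cases x0 : x = 0
      · rw [x0, u_zero k hk1, s_0, s_1]
        exact hcommon k hk hk1
      by_cases x1 : x = 1
      · rw [x1, u_at_one k, s_1, s_k k hk hk1]
      by_cases xk : x = k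
      · rw [xk, u_self k hk hk1, s_0, s_k k hk hk1]
        exact hkc k hk hk1
      · rw [u_other k x x0 x1 xk]
        by_contra hne
        have hva : v k a ≠ a := by rw [hcommon k hk hk1]; exact ha
        rcases three_supp (hv3 k hk hk1) hva hne with h | h | h
        · rw [← s_0] at h
          exact x0 (hinj h)
        · rw [hcommon k hk hk1, ← s_1] at h
          exact x1 (hinj h)
        · rw [hcommon k hk hk1, ← s_k k hk hk1] at h
          exact xk (hinj h)
  have hall : ∀ g ∈ (C : Subgroup (Perm (Fin (m + 5)))),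
      ∃ hg : g ∈ alternatingGroup (Fin (m + 5)),
        ((α ⟨g, hg⟩ : alternatingGroup (Fin (m + 5))) : Perm (Fin (m + 5))) = σ * g * σ⁻¹ := by
    intro g hg
    unfold C at hg
    induction hg using Subgroup.closure_induction with
    | mem g hg =>
      obtain ⟨k, hk, rfl⟩ := hg
      refine ⟨u_sign k hk, ?_⟩
      have h1 : (⟨u k, u_sign k hk⟩ : alternatingGroup (Fin (m + 5))) = U k :=
        Subtype.ext (hU k hk).symm
      rw [h1]
      exact hcj k hk
    | one =>
      refine ⟨Subgroup.one_mem _, ?_⟩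
      have h1 : (⟨1, Subgroup.one_mem _⟩ : alternatingGroup (Fin (m + 5))) = 1 := rfl
      rw [h1, map_one, mul_one, mul_inv_cancel]
      rfl
    | mul g g' _ _ h h' =>
      obtain ⟨h1, h2⟩ := h
      obtain ⟨h1', h2'⟩ := h'
      refine ⟨Subgroup.mul_mem _ h1 h1', ?_⟩
      have h3 : (⟨g * g', Subgroup.mul_mem _ h1 h1'⟩ : alternatingGroup (Fin (m + 5))) =
          ⟨g, h1⟩ * ⟨g', h1'⟩ := rfl
      rw [h3, map_mul, Subgroup.coe_mul, h2, h2']
      group
    | inv g _ h =>
      obtain ⟨h1, h2⟩ := h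
      refine ⟨Subgroup.inv_mem _ h1, ?_⟩
      have h3 : (⟨g⁻¹, Subgroup.inv_mem _ h1⟩ : alternatingGroup (Fin (m + 5))) = ⟨g, h1⟩⁻¹ := rfl
      rw [h3, map_inv, Subgroup.coe_inv, h2]
      group
  refine ⟨σ, fun x => ?_⟩
  have hs : Perm.sign (x : Perm (Fin (m + 5))) = 1 := Perm.mem_alternatingGroup.1 x.2
  obtain ⟨hg, h⟩ := hall (x : Perm (Fin (m + 5))) (alt_le_C (x : Perm (Fin (m + 5))) hs)
  exact h


theorem aut_core' (n : ℕ) (hn : 5 ≤ n) (α : MulAut (alternatingGroup (Fin n)))
    (hthree : ∀ t : alternatingGroup (Fin n), IsThreeCycle (t : Perm (Fin n)) →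
      IsThreeCycle ((α t : alternatingGroup (Fin n)) : Perm (Fin n))) :
    ∃ σ : Perm (Fin n), ∀ x : alternatingGroup (Fin n),
      ((α x : alternatingGroup (Fin n)) : Perm (Fin n)) = σ * (x : Perm (Fin n)) * σ⁻¹ := by
  obtain ⟨m, rfl⟩ : ∃ m, n = m + 5 := ⟨n - 5, by omega⟩
  exact aut_core m α hthree

/-! ### Degree six -/

/-- conjugations -/
def cj : Perm (Fin 6) →* MulAut (alternatingGroup (Fin 6)) := MulAut.conjNormal

theorem cj_apply (σ : Perm (Fin 6)) (x : alternatingGroup (Fin 6)) :
    ((cj σ x : alternatingGroup (Fin 6)) : Perm (Fin 6)) = σ * (x : Perm (Fin 6)) * σ⁻¹ :=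
  MulAut.conjNormal_apply σ x

theorem two_more : ∀ i j : Fin 6, ∃ k l : Fin 6, k ≠ i ∧ k ≠ j ∧ l ≠ i ∧ l ≠ j ∧ k ≠ l := by
  decide

theorem cj_inj : Function.Injective cj := by
  rw [injective_iff_map_eq_one]
  intro σ hσ
  ext1 i
  show σ i = i
  by_contra hij
  obtain ⟨k, l, hki, hkj, hli, hlj, hkl⟩ := two_more i (σ i)
  have h3 : IsThreeCycle (swap i k * swap i l) :=
    isThreeCycle_swap_mul_swap_same hki.symm hli.symm hkl
  have hmem : swap i k * swap i l ∈ alternatingGroup (Fin 6) := by
    rw [Perm.mem_alternatingGroup, Perm.sign_mul, Perm.sign_swap hki.symm,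
      Perm.sign_swap hli.symm]
    rfl
  have h1 := cj_apply σ ⟨swap i k * swap i l, hmem⟩
  rw [hσ] at h1
  have h2 : swap i k * swap i l = σ * (swap i k * swap i l) * σ⁻¹ := h1
  have h4 : (swap i k * swap i l) * σ = σ * (swap i k * swap i l) := by
    conv_lhs => rw [h2]
    group
  have h5 : (swap i k * swap i l) (σ i) = σ ((swap i k * swap i l) i) :=
    congrArg (fun z : Perm (Fin 6) => z i) h4
  have e1 : (swap i k * swap i l) (σ i) = σ i := by
    show swap i k (swap i l (σ i)) = σ i
    rw [swap_apply_of_ne_of_ne hij hlj.symm, swap_apply_of_ne_of_ne hij hkj.symm]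
  have e2 : (swap i k * swap i l) i = l := by
    show swap i k (swap i l i) = l
    rw [swap_apply_left, swap_apply_of_ne_of_ne hli hkl.symm]
  rw [e1, e2] at h5
  exact hli (σ.injective h5).symm

/-- two disjoint three cycles -/
def y0 : Perm (Fin 6) := (swap 0 1 * swap 0 2) * (swap 3 4 * swap 3 5)

/-- an odd permutation which commutes with `y0` -/
def s0 : Perm (Fin 6) := swap 0 3 * swap 1 4 * swap 2 5

theorem y0_type : y0.cycleType = Multiset.replicate 2 3 := by
  have h1 : IsThreeCycle (swap 0 1 * swap 0 2 : Perm (Fin 6)) :=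
    isThreeCycle_swap_mul_swap_same (by decide) (by decide) (by decide)
  have h2 : IsThreeCycle (swap 3 4 * swap 3 5 : Perm (Fin 6)) :=
    isThreeCycle_swap_mul_swap_same (by decide) (by decide) (by decide)
  have h3 : Perm.Disjoint (swap 0 1 * swap 0 2 : Perm (Fin 6)) (swap 3 4 * swap 3 5) := by
    unfold Perm.Disjoint
    decide
  unfold y0
  rw [h3.cycleType_mul, h1.cycleType, h2.cycleType]
  rfl

theorem s0_comm : s0 * y0 = y0 * s0 := by
  unfold s0 y0
  decide

theorem s0_sign : Perm.sign s0 = -1 := by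
  unfold s0
  rw [Perm.sign_mul, Perm.sign_mul, Perm.sign_swap (by decide), Perm.sign_swap (by decide),
    Perm.sign_swap (by decide)]
  rfl

theorem comm_odd (y : Perm (Fin 6)) (hy : y.cycleType = Multiset.replicate 2 3) :
    ∃ s : Perm (Fin 6), Perm.sign s = -1 ∧ s * y * s⁻¹ = y := by
  have h0 : IsConj y0 y := by
    rw [Perm.isConj_iff_cycleType_eq, hy, y0_type]
  obtain ⟨τ, hτ⟩ := isConj_iff.1 h0
  refine ⟨τ * s0 * τ⁻¹, ?_, ?_⟩
  · rw [Perm.sign_mul, Perm.sign_mul, Perm.sign_inv, s0_sign, mul_right_comm, Int.units_mul_self,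
      one_mul]
  · have h1 : s0 * y0 * s0⁻¹ = y0 := by
      rw [s0_comm]
      group
    rw [← hτ]
    calc τ * s0 * τ⁻¹ * (τ * y0 * τ⁻¹) * (τ * s0 * τ⁻¹)⁻¹ = τ * (s0 * y0 * s0⁻¹) * τ⁻¹ := by group
      _ = τ * y0 * τ⁻¹ := by rw [h1]

theorem conj33 (y z : alternatingGroup (Fin 6))
    (hy : (y : Perm (Fin 6)).cycleType = Multiset.replicate 2 3)
    (hz : (z : Perm (Fin 6)).cycleType = Multiset.replicate 2 3) :
    ∃ g : alternatingGroup (Fin 6), g * y * g⁻¹ = z := by
  have h0 : IsConj (y : Perm (Fin 6)) (z : Perm (Fin 6)) := by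
    rw [Perm.isConj_iff_cycleType_eq, hy, hz]
  obtain ⟨τ, hτ⟩ := isConj_iff.1 h0
  rcases Int.units_eq_one_or (Perm.sign τ) with h | h
  · refine ⟨⟨τ, Perm.mem_alternatingGroup.2 h⟩, ?_⟩
    apply Subtype.ext
    exact hτ
  · obtain ⟨s, hs, hs'⟩ := comm_odd _ hy
    refine ⟨⟨τ * s, ?_⟩, ?_⟩
    · rw [Perm.mem_alternatingGroup, Perm.sign_mul, h, hs]
      rfl
    · apply Subtype.ext
      show τ * s * (y : Perm (Fin 6)) * (τ * s)⁻¹ = (z : Perm (Fin 6))
      rw [← hτ]
      calc τ * s * (y : Perm (Fin 6)) * (τ * s)⁻¹ = τ * (s * (y : Perm (Fin 6)) * s⁻¹) * τ⁻¹ := by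
            group
        _ = τ * (y : Perm (Fin 6)) * τ⁻¹ := by rw [hs']

/-- the image of a three cycle has one of two types -/
theorem three_or (α : MulAut (alternatingGroup (Fin 6))) (t : alternatingGroup (Fin 6))
    (ht : IsThreeCycle (t : Perm (Fin 6))) :
    IsThreeCycle ((α t : alternatingGroup (Fin 6)) : Perm (Fin 6)) ∨
      ((α t : alternatingGroup (Fin 6)) : Perm (Fin 6)).cycleType = Multiset.replicate 2 3 := by
  have ho : orderOf ((α t : alternatingGroup (Fin 6)) : Perm (Fin 6)) = 3 := by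
    rw [Subgroup.orderOf_coe, MulEquiv.orderOf_eq, ← Subgroup.orderOf_coe]
    exact ht.orderOf
  obtain ⟨m, hm⟩ := cycleType_prime_order (σ := ((α t : alternatingGroup (Fin 6)) : Perm (Fin 6)))
    (by rw [ho]; exact Nat.prime_three)
  rw [ho] at hm
  have hsum : 3 * (m + 1) ≤ 6 := by
    have := sum_cycleType_le (((α t : alternatingGroup (Fin 6)) : Perm (Fin 6)))
    rw [hm, Multiset.sum_replicate, smul_eq_mul, Fintype.card_fin] at this
    omega
  have hm2 : m = 0 ∨ m = 1 := by omega
  rcases hm2 with rfl | rfl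
  · left
    rw [IsThreeCycle, hm]
    rfl
  · right
    exact hm

/-- one three cycle to a three cycle: then a conjugation -/
theorem mem_range (α : MulAut (alternatingGroup (Fin 6))) (t : alternatingGroup (Fin 6))
    (ht : IsThreeCycle (t : Perm (Fin 6)))
    (hα : IsThreeCycle ((α t : alternatingGroup (Fin 6)) : Perm (Fin 6))) : α ∈ cj.range := by
  obtain ⟨σ, hσ⟩ := aut_core' 6 (by norm_num) α (by
    intro s hs
    have h1 : IsConj t s := alternatingGroup.isThreeCycle_isConj (by simp) ht hs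
    obtain ⟨g, hg⟩ := isConj_iff.1 h1
    have h2 : α s = α g * α t * (α g)⁻¹ := by rw [← hg, map_mul, map_mul, map_inv]
    have h3 : IsConj ((α t : alternatingGroup (Fin 6)) : Perm (Fin 6))
        ((α s : alternatingGroup (Fin 6)) : Perm (Fin 6)) := by
      rw [isConj_iff]
      refine ⟨((α g : alternatingGroup (Fin 6)) : Perm (Fin 6)), ?_⟩
      rw [h2]
      rfl
    rw [Perm.isConj_iff_cycleType_eq] at h3
    rw [IsThreeCycle, ← h3]
    exact hα)
  refine ⟨σ, ?_⟩
  apply MulEquiv.ext
  intro x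
  apply Subtype.ext
  rw [cj_apply, hσ]

theorem prod_mem (a b : MulAut (alternatingGroup (Fin 6))) (ha : a ∉ cj.range)
    (hb : b ∉ cj.range) : b * a ∈ cj.range := by
  have hmem : (swap 0 1 * swap 0 2 : Perm (Fin 6)) ∈ alternatingGroup (Fin 6) := by
    rw [Perm.mem_alternatingGroup, Perm.sign_mul, Perm.sign_swap (by decide),
      Perm.sign_swap (by decide)]
    rfl
  obtain ⟨t, ht⟩ : ∃ t : alternatingGroup (Fin 6), IsThreeCycle (t : Perm (Fin 6)) :=
    ⟨⟨swap 0 1 * swap 0 2, hmem⟩,
      isThreeCycle_swap_mul_swap_same (by decide) (by decide) (by decide)⟩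
  have hb' : b⁻¹ ∉ cj.range := fun h => hb (by
    have := Subgroup.inv_mem _ h
    rwa [inv_inv] at this)
  have h1 : ((a t : alternatingGroup (Fin 6)) : Perm (Fin 6)).cycleType =
      Multiset.replicate 2 3 := by
    rcases three_or a t ht with h | h
    · exact absurd (mem_range a t ht h) ha
    · exact h
  have h2 : ((b⁻¹ t : alternatingGroup (Fin 6)) : Perm (Fin 6)).cycleType =
      Multiset.replicate 2 3 := by
    rcases three_or b⁻¹ t ht with h | h
    · exact absurd (mem_range b⁻¹ t ht h) hb'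
    · exact h
  obtain ⟨g, hg⟩ := conj33 _ _ h2 h1
  refine mem_range (b * a) t ht ?_
  have h3 : (b * a) t = b g * t * (b g)⁻¹ := by
    show b (a t) = b g * t * (b g)⁻¹
    rw [← hg, map_mul, map_mul, map_inv]
    have h4 : b (b⁻¹ t) = t := MulAut.apply_inv_self _ b t
    rw [h4]
  have h4 : IsConj (t : Perm (Fin 6)) (((b * a) t : alternatingGroup (Fin 6)) : Perm (Fin 6)) := by
    rw [isConj_iff]
    refine ⟨((b g : alternatingGroup (Fin 6)) : Perm (Fin 6)), ?_⟩
    rw [h3]
    rfl
  rw [Perm.isConj_iff_cycleType_eq] at h4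
  rw [IsThreeCycle, ← h4]
  exact ht

theorem aut_six : ∃ H : Subgroup (MulAut (alternatingGroup (Fin 6))),
    (H.index = 1 ∨ H.index = 2) ∧ Nonempty (H ≃* Equiv.Perm (Fin 6)) := by
  refine ⟨cj.range, ?_, ⟨(MonoidHom.ofInjective cj_inj).symm⟩⟩
  by_cases htop : cj.range = ⊤
  · left
    rw [htop, Subgroup.index_top]
  · right
    obtain ⟨a, ha⟩ : ∃ a, a ∉ cj.range := by
      by_contra hcon
      push Not at hcon
      exact htop (eq_top_iff.2 (fun x _ => hcon x))
    rw [Subgroup.index_eq_two_iff]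
    refine ⟨a, fun b => ?_⟩
    by_cases hb : b ∈ cj.range
    · right
      refine ⟨hb, fun h => ha ?_⟩
      have := Subgroup.mul_mem _ (Subgroup.inv_mem _ hb) h
      rwa [inv_mul_cancel_left] at this
    · left
      exact ⟨prod_mem a b ha hb, hb⟩

end Pool.Agent.V8H87.CM.A6
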