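import Pool.Agent.V8H87.CM.Soc

/-!
A criterion: if a simple group `T` has a maximal subgroup `A` whose class is invariant under
automorphisms, and a prime divisor `p` of `|T : A|` such that automorphisms of order `p` normalise a
conjugate of `A`, then `T` is not a composition factor of a finite group all of whose maximal subgroups
have complements.
-/

set_option autoImplicit false

namespace Pool.Agent.V8H87.CM

theorem relIndex_dvd_index {G : Type} [Group G] [Finite G] (M H : Subgroup G) (hH : H.Normal) :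
    M.relIndex H ∣ M.index := by
  have h1 := Subgroup.relIndex_mul_relIndex (M ⊓ H) M (M ⊔ H) inf_le_left le_sup_left
  have h2 := Subgroup.relIndex_mul_relIndex (M ⊓ H) H (M ⊔ H) inf_le_right le_sup_right
  rw [Subgroup.inf_relIndex_left] at h1
  rw [Subgroup.inf_relIndex_right, Subgroup.relIndex_sup_right] at h2
  have h3 : H.relIndex M * M.relIndex (M ⊔ H) = H.relIndex M * M.relIndex H := by
    rw [h1, ← h2, mul_comm]
  have h4 : H.relIndex M ≠ 0 := Subgroup.index_ne_zero_of_finite (H := H.subgroupOf M)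
  have h5 := Nat.eq_of_mul_eq_mul_left (Nat.pos_of_ne_zero h4) h3
  rw [← h5]
  exact Subgroup.relIndex_dvd_index_of_le le_sup_left

section cls

variable {T : Type} [Group T] {G : Type} [Group G]

/-- the image of `A ≤ T` under an isomorphism `T ≃* t`, as a subgroup of `G` -/
def emb {t : Subgroup G} (e : T ≃* t) (A : Subgroup T) : Subgroup G :=
  A.map (t.subtype.comp e.toMonoidHom)

theorem mem_emb {t : Subgroup G} (e : T ≃* t) (A : Subgroup T) {x : G} :
    x ∈ emb e A ↔ ∃ a ∈ A, (e a : G) = x := Iff.rfl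

theorem emb_le {t : Subgroup G} (e : T ≃* t) (A : Subgroup T) : emb e A ≤ t := by
  rintro _ ⟨a, _, rfl⟩
  exact (e a).2

/-- `B` corresponds to `A` under some isomorphism `T ≃* t` -/
def Cls (A : Subgroup T) (t B : Subgroup G) : Prop := ∃ e : T ≃* t, B = emb e A

theorem Cls.le {A : Subgroup T} {t B : Subgroup G} (h : Cls A t B) : B ≤ t := by
  obtain ⟨e, rfl⟩ := h
  exact emb_le e A

theorem emb_cj {t : Subgroup G} (e : T ≃* t) (A : Subgroup T) (g : G) :
    cj g (emb e A) = emb (e.trans (cjEquiv g t)) A := by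
  ext x
  rw [mem_cj, mem_emb, mem_emb]
  constructor
  · rintro ⟨a, ha, h⟩
    refine ⟨a, ha, ?_⟩
    show g * (e a : G) * g⁻¹ = x
    rw [h]
    group
  · rintro ⟨a, ha, h⟩
    refine ⟨a, ha, ?_⟩
    have h1 : g * (e a : G) * g⁻¹ = x := h
    rw [← h1]
    group

theorem Cls.cj {A : Subgroup T} {t B : Subgroup G} (h : Cls A t B) (g : G) :
    Cls A (CM.cj g t) (CM.cj g B) := by
  obtain ⟨e, rfl⟩ := h
  exact ⟨_, emb_cj e A g⟩

theorem emb_conj {t : Subgroup G} (e : T ≃* t) (A : Subgroup T) (s : T) :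
    emb e (cj s A) = cj (e s : G) (emb e A) := by
  ext x
  rw [mem_cj, mem_emb, mem_emb]
  constructor
  · rintro ⟨a, ha, rfl⟩
    refine ⟨s⁻¹ * a * s, mem_cj.1 ha, ?_⟩
    simp
  · rintro ⟨a, ha, h⟩
    refine ⟨s * a * s⁻¹, conj_mem_cj ha, ?_⟩
    have h1 : (e (s * a * s⁻¹) : G) = (e s : G) * (e a : G) * (e s : G)⁻¹ := by simp
    rw [h1, h]
    group

theorem Cls.trans' {A : Subgroup T} (h1 : ∀ α : MulAut T, ∃ s : T, A.map α.toMonoidHom = CM.cj s A)
    {t B B' : Subgroup G} (hB : Cls A t B) (hB' : Cls A t B') : ∃ x ∈ t, CM.cj x B = B' := by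
  obtain ⟨e, rfl⟩ := hB
  obtain ⟨e', rfl⟩ := hB'
  obtain ⟨s, hs⟩ := h1 (e'.trans e.symm)
  refine ⟨e s, (e s).2, ?_⟩
  rw [← emb_conj, ← hs]
  ext x
  rw [mem_emb, mem_emb]
  constructor
  · rintro ⟨_, ⟨a, ha, rfl⟩, rfl⟩
    refine ⟨a, ha, ?_⟩
    show (e' a : G) = (e (e.symm (e' a)) : G)
    rw [MulEquiv.apply_symm_apply]
  · rintro ⟨a, ha, rfl⟩
    refine ⟨_, ⟨a, ha, rfl⟩, ?_⟩
    show (e (e.symm (e' a)) : G) = (e' a : G)
    rw [MulEquiv.apply_symm_apply]

theorem Cls.relIndex {A : Subgroup T} {t B : Subgroup G} (h : Cls A t B) :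
    B.relIndex t = A.index := by
  obtain ⟨e, rfl⟩ := h
  unfold Subgroup.relIndex
  have h1 : (emb e A).subgroupOf t = A.map e.toMonoidHom := by
    ext x
    rw [Subgroup.mem_subgroupOf, mem_emb]
    constructor
    · rintro ⟨a, ha, h⟩
      exact ⟨a, ha, Subtype.ext h⟩
    · rintro ⟨a, ha, rfl⟩
      exact ⟨a, ha, rfl⟩
  rw [h1]
  exact Subgroup.index_map_of_bijective (f := e.toMonoidHom) e.bijective A

end cls

section main

variable {T : Type} [Group T] {G : Type} [Group G] {N : Subgroup G} {𝒯 : Set (Subgroup G)}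

/-- two sections are conjugate under `N` -/
theorem section_conj [Finite G] (hS : Soc T N 𝒯) {A : Subgroup T}
    (h1 : ∀ α : MulAut T, ∃ s : T, A.map α.toMonoidHom = cj s A)
    (B B' : Subgroup G → Subgroup G) (hB : ∀ t ∈ 𝒯, Cls A t (B t)) (hB' : ∀ t ∈ 𝒯, Cls A t (B' t)) :
    ∃ c ∈ N, ∀ t ∈ 𝒯, cj c (B t) = B' t := by
  classical
  have key : ∀ s : Finset (Subgroup G), (∀ t ∈ s, t ∈ 𝒯) → ∃ c ∈ N,
      (∀ t ∈ s, cj c (B t) = B' t) ∧ ∀ t ∈ 𝒯, t ∉ s → cj c (B t) = B t := by
    intro s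
    induction s using Finset.induction_on with
    | empty =>
      intro _
      exact ⟨1, N.one_mem, by simp, fun t _ _ => cj_one _⟩
    | insert a s ha ih =>
      intro hs
      obtain ⟨c, hc, h2, h3⟩ := ih fun t ht => hs t (Finset.mem_insert_of_mem ht)
      have haT := hs a (Finset.mem_insert_self _ _)
      obtain ⟨x, hx, hxB⟩ := (hB a haT).trans' h1 (hB' a haT)
      refine ⟨x * c, N.mul_mem (hS.le a haT hx) hc, ?_, ?_⟩
      · intro t ht
        rw [Finset.mem_insert] at ht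
        rcases ht with rfl | ht
        · rw [← cj_cj, h3 t haT ha, hxB]
        · rw [← cj_cj, h2 t ht]
          have hne : a ≠ t := fun h => ha (h ▸ ht)
          have htT := hs t (Finset.mem_insert_of_mem ht)
          exact cj_of_comm fun y hy => hS.comm a haT t htT hne x hx y ((hB' t htT).le hy)
      · intro t ht hts
        rw [Finset.mem_insert, not_or] at hts
        rw [← cj_cj, h3 t ht hts.2]
        exact cj_of_comm fun y hy => hS.comm a haT t ht (Ne.symm hts.1) x hx y ((hB t ht).le hy)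
  have hfin : 𝒯.Finite := Set.toFinite _
  obtain ⟨c, hc, h2, -⟩ := key hfin.toFinset fun t ht => hfin.mem_toFinset.1 ht
  exact ⟨c, hc, fun t ht => h2 t (hfin.mem_toFinset.2 ht)⟩

/-- the stabiliser of a section -/
def Stb (hS : Soc T N 𝒯) (B : Subgroup G → Subgroup G) : Subgroup G where
  carrier := {g | ∀ t ∈ 𝒯, cj g (B t) = B (cj g t)}
  one_mem' := by
    intro t _
    rw [cj_one, cj_one]
  mul_mem' := by
    intro a b ha hb t ht
    rw [← cj_cj, hb t ht, ha _ (hS.conj b t ht), cj_cj]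
  inv_mem' := by
    intro a ha t ht
    have h := ha _ (hS.conj a⁻¹ t ht)
    rw [cj_cj_inv] at h
    rw [← h, cj_inv_cj]

theorem mem_Stb {hS : Soc T N 𝒯} {B : Subgroup G → Subgroup G} {g : G} :
    g ∈ Stb hS B ↔ ∀ t ∈ 𝒯, cj g (B t) = B (cj g t) := Iff.rfl

theorem stb_mul [Finite G] (hS : Soc T N 𝒯) {A : Subgroup T}
    (h1 : ∀ α : MulAut T, ∃ s : T, A.map α.toMonoidHom = cj s A)
    (B : Subgroup G → Subgroup G) (hB : ∀ t ∈ 𝒯, Cls A t (B t)) (g : G) :
    ∃ c ∈ N, ∃ m ∈ Stb hS B, g = c * m := by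
  have h2 : ∀ t ∈ 𝒯, Cls A t (cj g (B (cj g⁻¹ t))) := by
    intro t ht
    have h3 := (hB _ (hS.conj g⁻¹ t ht)).cj g
    rwa [cj_cj_inv] at h3
  obtain ⟨c, hc, h4⟩ := section_conj hS h1 B (fun t => cj g (B (cj g⁻¹ t))) hB h2
  refine ⟨c, hc, c⁻¹ * g, ?_, by group⟩
  rw [mem_Stb]
  intro t ht
  have h5 := h4 _ (hS.conj g t ht)
  rw [cj_inv_cj] at h5
  rw [← cj_cj, ← h5, cj_inv_cj, ← cj_cj c⁻¹ g t, hS.norm _ (N.inv_mem hc) _ (hS.conj g t ht)]

theorem le_stb (hS : Soc T N 𝒯) {A : Subgroup T} (B : Subgroup G → Subgroup G)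
    (hB : ∀ t ∈ 𝒯, Cls A t (B t)) (t : Subgroup G) (ht : t ∈ 𝒯) : B t ≤ Stb hS B := by
  intro b hb s hs
  rw [hS.norm b (hS.le t ht ((hB t ht).le hb)) s hs]
  by_cases hts : t = s
  · subst hts
    exact cj_self hb
  · exact cj_of_comm fun y hy => hS.comm t ht s hs hts b ((hB t ht).le hb) y ((hB s hs).le hy)

/-- the dichotomy for subgroups between `B t` and `t` -/
theorem between {A : Subgroup T} (hA : IsCoatom A) {t B : Subgroup G} (hB : Cls A t B)
    (L : Subgroup G) (h1 : B ≤ L) (h2 : L ≤ t) : L = B ∨ L = t := by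
  obtain ⟨e, rfl⟩ := hB
  let L' : Subgroup T := L.comap (t.subtype.comp e.toMonoidHom)
  have hL : L = emb e L' := by
    ext x
    rw [mem_emb]
    constructor
    · intro hx
      refine ⟨e.symm ⟨x, h2 hx⟩, ?_, ?_⟩
      · show (e (e.symm ⟨x, h2 hx⟩) : G) ∈ L
        rw [MulEquiv.apply_symm_apply]
        exact hx
      · rw [MulEquiv.apply_symm_apply]
    · rintro ⟨a, ha, rfl⟩
      exact ha
  have h3 : A ≤ L' := fun a ha => h1 ⟨a, ha, rfl⟩
  rcases h3.eq_or_lt with h4 | h4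
  · left
    rw [hL, ← h4]
  · right
    refine le_antisymm h2 ?_
    intro x hx
    rw [hL, hA.2 _ h4]
    refine ⟨e.symm ⟨x, hx⟩, Subgroup.mem_top _, ?_⟩
    show (e (e.symm ⟨x, hx⟩) : G) = x
    rw [MulEquiv.apply_symm_apply]

theorem stb_inf [Finite G] [IsSimpleGroup T] (hS : Soc T N 𝒯) {A : Subgroup T} (hA : IsCoatom A)
    (hA0 : A ≠ ⊥) (B : Subgroup G → Subgroup G) (hB : ∀ t ∈ 𝒯, Cls A t (B t)) (t : Subgroup G)
    (ht : t ∈ 𝒯) : Stb hS B ⊓ t = B t := by
  rcases between hA (hB t ht) (Stb hS B ⊓ t) (le_inf (le_stb hS B hB t ht) (hB t ht).le)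
    inf_le_right with h | h
  · exact h
  exfalso
  have h2 : ∀ x ∈ t, cj x (B t) = B t := by
    intro x hx
    have h3 : x ∈ Stb hS B ⊓ t := by rw [h]; exact hx
    have h4 := h3.1 t ht
    rwa [cj_self hx] at h4
  obtain ⟨e, he⟩ := hB t ht
  have h5 : A.Normal := by
    constructor
    intro n hn g
    have h6 := h2 (e g) (e g).2
    rw [he, ← emb_conj] at h6
    have h7 : (e (g * n * g⁻¹) : G) ∈ emb e (cj g A) := ⟨_, conj_mem_cj hn, rfl⟩
    rw [h6] at h7
    obtain ⟨a, ha, hae⟩ := h7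
    have h8 : a = g * n * g⁻¹ := e.injective (Subtype.ext hae)
    rwa [← h8]
  rcases h5.eq_bot_or_eq_top with h6 | h6
  · exact hA0 h6
  · exact hA.1 h6

theorem stb_coatom [Finite G] [IsSimpleGroup T] (hS : Soc T N 𝒯) {A : Subgroup T} (hA : IsCoatom A)
    (hA0 : A ≠ ⊥) (h1 : ∀ α : MulAut T, ∃ s : T, A.map α.toMonoidHom = cj s A)
    (B : Subgroup G → Subgroup G) (hB : ∀ t ∈ 𝒯, Cls A t (B t)) : IsCoatom (Stb hS B) := by
  constructor
  · intro h
    obtain ⟨t, ht⟩ := hS.ne
    have h2 := stb_inf hS hA hA0 B hB t ht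
    rw [h, top_inf_eq] at h2
    have h3 := (hB t ht).relIndex
    rw [← h2, Subgroup.relIndex_self] at h3
    exact hA.1 (Subgroup.index_eq_one.1 h3.symm)
  · intro M' hM'
    by_cases hcase : ∃ t ∈ 𝒯, t ≤ M'
    · obtain ⟨t, ht, htM⟩ := hcase
      have h2 : N ≤ M' := by
        refine hS.sup _ ?_
        intro s hs
        obtain ⟨g, rfl⟩ := hS.trans t ht s hs
        obtain ⟨c, hc, m, hm, hcm⟩ := stb_mul hS h1 B hB g⁻¹
        have h3 : g = m⁻¹ * c⁻¹ := by
          rw [← inv_inv g, hcm, mul_inv_rev]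
        rw [h3, ← cj_cj, hS.norm _ (N.inv_mem hc) t ht]
        have h4 : m⁻¹ ∈ M' := M'.inv_mem (hM'.le hm)
        rw [← cj_self h4]
        exact cj_mono _ htM
      rw [eq_top_iff]
      intro g _
      obtain ⟨c, hc, m, hm, rfl⟩ := stb_mul hS h1 B hB g
      exact M'.mul_mem (h2 hc) (hM'.le hm)
    · exfalso
      push Not at hcase
      have h2 : ∀ t ∈ 𝒯, M' ⊓ t = B t := by
        intro t ht
        rcases between hA (hB t ht) (M' ⊓ t)
          (le_inf ((le_stb hS B hB t ht).trans hM'.le) (hB t ht).le) inf_le_right with h | h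
        · exact h
        · exact absurd (by rw [← h]; exact inf_le_left) (hcase t ht)
      refine not_le_of_gt hM' ?_
      intro g hg
      obtain ⟨c, hc, m, hm, rfl⟩ := stb_mul hS h1 B hB g
      have hcM : c ∈ M' := by
        have := M'.mul_mem hg (M'.inv_mem (hM'.le hm))
        rwa [mul_inv_cancel_right] at this
      refine (Stb hS B).mul_mem ?_ hm
      intro t ht
      rw [hS.norm c hc t ht, ← h2 t ht, cj_inf, cj_self hcM, hS.norm c hc t ht]

theorem dvd_index [Finite G] [IsSimpleGroup T] (hS : Soc T N 𝒯) {A : Subgroup T} (hA : IsCoatom A)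
    (hA0 : A ≠ ⊥) (B : Subgroup G → Subgroup G) (hB : ∀ t ∈ 𝒯, Cls A t (B t)) :
    A.index ∣ (Stb hS B).index := by
  obtain ⟨t, ht⟩ := hS.ne
  have h1 : (Stb hS B).relIndex N ∣ (Stb hS B).index := relIndex_dvd_index _ _ hS.normal
  have hn : (t.subgroupOf N).Normal := by
    constructor
    intro n hn x
    rw [Subgroup.mem_subgroupOf] at hn ⊢
    have h1 := hS.norm x x.2 t ht
    show (x : G) * n * (x : G)⁻¹ ∈ t
    rw [← h1]
    exact conj_mem_cj hn
  have h2 := relIndex_dvd_index ((Stb hS B).subgroupOf N) (t.subgroupOf N) hn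
  rw [Subgroup.relIndex_subgroupOf (hS.le t ht)] at h2
  have h3 : (Stb hS B).relIndex t = A.index := by
    rw [← Subgroup.inf_relIndex_right, stb_inf hS hA hA0 B hB t ht]
    exact (hB t ht).relIndex
  rw [h3] at h2
  exact h2.trans h1

/-- an element of prime order fixes a section -/
theorem exists_fixed_section (hS : Soc T N 𝒯) {A : Subgroup T} {p : ℕ} (hp : p.Prime)
    (h2 : ∀ α : MulAut T, α ^ p = 1 → ∃ s : T, (cj s A).map α.toMonoidHom = cj s A)
    (x : G) (hx : x ^ p = 1) :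
    ∃ B : Subgroup G → Subgroup G, (∀ t ∈ 𝒯, Cls A t (B t)) ∧ x ∈ Stb hS B := by
  classical
  -- invariant members
  have hd : ∀ r ∈ 𝒯, ∃ d : Subgroup G, Cls A r d ∧ (cj x r = r → cj x d = d) := by
    intro r hr
    obtain ⟨e⟩ := hS.equiv r hr
    by_cases hxr : cj x r = r
    · let φ : r ≃* r := (cjEquiv x r).trans (MulEquiv.subgroupCongr hxr)
      have hφ : ∀ y : r, (φ y : G) = x * y * x⁻¹ := fun y => rfl
      let α : MulAut T := (e.trans φ).trans e.symm
      have hα : ∀ (n : ℕ) (y : T), (e ((α ^ n) y) : G) = x ^ n * (e y : G) * (x ^ n)⁻¹ := by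
        intro n
        induction n with
        | zero => intro y; simp
        | succ n ih =>
          intro y
          rw [pow_succ', MulAut.mul_apply]
          have h3 : (e (α ((α ^ n) y)) : G) = x * (e ((α ^ n) y) : G) * x⁻¹ := by
            show (e (e.symm (φ (e ((α ^ n) y)))) : G) = _
            rw [MulEquiv.apply_symm_apply]
            exact hφ _
          rw [h3, ih y, pow_succ']
          group
      have hαp : α ^ p = 1 := by
        ext y
        apply e.injective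
        apply Subtype.ext
        rw [hα p y, hx]
        simp
      obtain ⟨s, hs⟩ := h2 α hαp
      refine ⟨emb e (cj s A), ?_, fun _ => ?_⟩
      · refine ⟨(MulAut.conj s).trans e, ?_⟩
        ext y
        rw [mem_emb, mem_emb]
        constructor
        · rintro ⟨a, ha, rfl⟩
          refine ⟨s⁻¹ * a * s, mem_cj.1 ha, ?_⟩
          show (e (s * (s⁻¹ * a * s) * s⁻¹) : G) = e a
          congr 2
          group
        · rintro ⟨a, ha, rfl⟩
          exact ⟨s * a * s⁻¹, conj_mem_cj ha, rfl⟩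
      · have h4 : cj x (emb e (cj s A)) = emb e ((cj s A).map α.toMonoidHom) := by
          ext y
          rw [mem_cj, mem_emb, mem_emb]
          constructor
          · rintro ⟨a, ha, h⟩
            refine ⟨α a, ⟨a, ha, rfl⟩, ?_⟩
            have h5 := hα 1 a
            rw [pow_one, pow_one] at h5
            rw [h5, h]
            group
          · rintro ⟨_, ⟨a, ha, rfl⟩, h⟩
            refine ⟨a, ha, ?_⟩
            have h5 := hα 1 a
            rw [pow_one, pow_one] at h5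
            have h6 : (e (α a) : G) = y := h
            rw [← h6, h5]
            group
        rw [h4, hs]
    · exact ⟨emb e A, ⟨e, rfl⟩, fun h => absurd h hxr⟩
  choose! d hd1 hd2 using hd
  -- orbits
  let R : Setoid (Subgroup G) :=
    { r := fun t s => ∃ k : ℤ, cj (x ^ k) t = s
      iseqv := ⟨fun t => ⟨0, by rw [zpow_zero, cj_one]⟩,
        fun {t s} ⟨k, hk⟩ => ⟨-k, by rw [← hk, zpow_neg, cj_inv_cj]⟩,
        fun {t s u} ⟨k, hk⟩ ⟨l, hl⟩ => ⟨l + k, by rw [zpow_add, ← cj_cj, hk, hl]⟩⟩ }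
  let rep : Subgroup G → Subgroup G := fun t => (Quotient.mk R t).out
  have hrep : ∀ t, ∃ k : ℤ, cj (x ^ k) (rep t) = t := fun t => Quotient.mk_out (s := R) t
  have hrepT : ∀ t ∈ 𝒯, rep t ∈ 𝒯 := by
    intro t ht
    obtain ⟨k, hk⟩ := hrep t
    have h3 := hS.conj (x ^ k)⁻¹ t ht
    conv at h3 => rw [← hk]
    rwa [cj_inv_cj] at h3
  have hrepx : ∀ t, rep (cj x t) = rep t := by
    intro t
    have h3 : Quotient.mk R t = Quotient.mk R (cj x t) := Quotient.sound ⟨1, by rw [zpow_one]⟩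
    show (Quotient.mk R (cj x t)).out = (Quotient.mk R t).out
    rw [h3]
  choose k hk using hrep
  refine ⟨fun t => cj (x ^ k t) (d (rep t)), ?_, ?_⟩
  · intro t ht
    have h3 := (hd1 _ (hrepT t ht)).cj (x ^ k t)
    rwa [hk t] at h3
  · intro t ht
    show cj x (cj (x ^ k t) (d (rep t))) = cj (x ^ k (cj x t)) (d (rep (cj x t)))
    rw [hrepx t]
    have h3 := hk (cj x t)
    rw [hrepx t] at h3
    have h4 : cj (x ^ (1 + k t - k (cj x t))) (rep t) = rep t := by
      have h5 : cj (x ^ (1 + k t)) (rep t) = cj x t := by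
        rw [zpow_add, zpow_one, ← cj_cj, hk t]
      rw [← h3] at h5
      have h6 : cj (x ^ k (cj x t))⁻¹ (cj (x ^ (1 + k t)) (rep t)) = rep t := by
        rw [h5, cj_inv_cj]
      rw [cj_cj] at h6
      have h7 : (x ^ k (cj x t))⁻¹ * x ^ (1 + k t) = x ^ (1 + k t - k (cj x t)) := by
        rw [← zpow_neg, ← zpow_add]
        congr 1
        ring
      rwa [h7] at h6
    have h5 : cj (x ^ (1 + k t - k (cj x t))) (d (rep t)) = d (rep t) := by
      by_cases hxr : cj x (rep t) = rep t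
      · have h6 : x ∈ nrm (d (rep t)) := hd2 _ (hrepT t ht) hxr
        exact (nrm (d (rep t))).zpow_mem h6 _
      · have h6 : (p : ℤ) ∣ 1 + k t - k (cj x t) := by
          by_contra h7
          have h8 : IsCoprime (p : ℤ) (1 + k t - k (cj x t)) :=
            (Nat.prime_iff_prime_int.1 hp).irreducible.coprime_iff_not_dvd.2 h7
          obtain ⟨a, b, hab⟩ := h8
          apply hxr
          have h9 : x ^ (1 + k t - k (cj x t)) ∈ nrm (rep t) := h4
          have h10 : x = (x ^ (1 + k t - k (cj x t))) ^ b := by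
            rw [← zpow_mul]
            have h11 : (1 + k t - k (cj x t)) * b = 1 - (p : ℤ) * a := by linarith
            rw [h11, zpow_sub, zpow_one, zpow_mul, zpow_natCast, hx, one_zpow, inv_one, mul_one]
          rw [← mem_nrm]
          conv => rw [h10]
          exact (nrm (rep t)).zpow_mem h9 b
        obtain ⟨q, hq⟩ := h6
        rw [hq, zpow_mul, zpow_natCast, hx, one_zpow, cj_one]
    have h6 : x * x ^ k t = x ^ k (cj x t) * x ^ (1 + k t - k (cj x t)) := by
      rw [← zpow_add]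
      nth_rewrite 1 [← zpow_one x]
      rw [← zpow_add]
      congr 1
      ring
    rw [cj_cj, h6, ← cj_cj, h5]

theorem no_soc [Finite G] [IsSimpleGroup T] (hS : Soc T N 𝒯) {A : Subgroup T} (hA : IsCoatom A)
    (hA0 : A ≠ ⊥) (h1 : ∀ α : MulAut T, ∃ s : T, A.map α.toMonoidHom = cj s A) {p : ℕ}
    (hp : p.Prime) (hpA : p ∣ A.index)
    (h2 : ∀ α : MulAut T, α ^ p = 1 → ∃ s : T, (cj s A).map α.toMonoidHom = cj s A)
    (hG : MaxCompl G) : False := by
  obtain ⟨B, hB, -⟩ := exists_fixed_section hS hp h2 1 (one_pow p)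
  obtain ⟨K, hK⟩ := hG _ (stb_coatom hS hA hA0 h1 B hB)
  have h3 : p ∣ Nat.card K := by
    rw [← hK.symm.index_eq_card]
    exact hpA.trans (dvd_index hS hA hA0 B hB)
  have : Fact p.Prime := ⟨hp⟩
  obtain ⟨x, hx⟩ := exists_prime_orderOf_dvd_card' (G := K) p h3
  have hxG : (x : G) ^ p = 1 := by
    rw [← Subgroup.coe_pow, ← hx, pow_orderOf_eq_one, Subgroup.coe_one]
  obtain ⟨B', hB', hxB'⟩ := exists_fixed_section hS hp h2 (x : G) hxG
  obtain ⟨c, hc, h4⟩ := section_conj hS h1 B B' hB hB'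
  -- `c⁻¹ x c` is in the stabiliser of `B`
  have h5 : c⁻¹ * x * c ∈ Stb hS B := by
    rw [mem_Stb]
    intro t ht
    rw [← cj_cj, ← cj_cj, h4 t ht, ← cj_cj _ c t, ← cj_cj c⁻¹ _ (cj c t), hS.norm c hc t ht]
    have h6 : cj (x : G) (B' t) = B' (cj (x : G) t) := hxB' t ht
    have h7 := hS.conj (x : G) t ht
    rw [h6, ← h4 _ h7, cj_inv_cj, hS.norm _ (N.inv_mem hc) _ h7]
  obtain ⟨⟨⟨m, hm⟩, ⟨k, hk⟩⟩, hmk⟩ := hK.2 c⁻¹
  have h6 : c⁻¹ = m * k := hmk.symm
  have h7 : k * x * k⁻¹ = m⁻¹ * (c⁻¹ * x * c) * m := by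
    have h8 : c = k⁻¹ * m⁻¹ := by rw [← inv_inv c, h6, mul_inv_rev]
    rw [h6, h8]
    group
  have h8 : k * x * k⁻¹ ∈ Stb hS B ⊓ K := by
    refine ⟨?_, K.mul_mem (K.mul_mem hk x.2) (K.inv_mem hk)⟩
    rw [h7]
    exact (Stb hS B).mul_mem ((Stb hS B).mul_mem ((Stb hS B).inv_mem hm) h5) hm
  rw [disjoint_iff.1 hK.disjoint, Subgroup.mem_bot] at h8
  have h9 : (x : G) = 1 := by
    have h10 : (x : G) = k⁻¹ * (k * x * k⁻¹) * k := by group
    rw [h10, h8]
    group
  have h10 : x = 1 := Subtype.ext h9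
  rw [h10, orderOf_one] at hx
  exact hp.one_lt.ne hx

end main

/-- **Criterion.** -/
theorem criterion {T : Type} [Group T] [IsSimpleGroup T] {A : Subgroup T} (hA : IsCoatom A)
    (hA0 : A ≠ ⊥) (h1 : ∀ α : MulAut T, ∃ s : T, A.map α.toMonoidHom = cj s A) {p : ℕ}
    (hp : p.Prime) (hpA : p ∣ A.index)
    (h2 : ∀ α : MulAut T, α ^ p = 1 → ∃ s : T, (cj s A).map α.toMonoidHom = cj s A) :
    ∀ (n : ℕ) (G : Type) [Group G] [Finite G], Nat.card G = n → MaxCompl G → ¬ IsFactor T G := by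
  intro n
  induction n using Nat.strong_induction_on with
  | _ n ih =>
    intro G _ _ hn hG hT
    have : Nontrivial G := hT.nontrivial
    obtain ⟨N, 𝒯, hS⟩ := exists_soc (T := T) (G := G) (by
      intro P hP hP0
      rcases hT.split P hP with h | h
      · exact h
      · exfalso
        have h3 : Nat.card (G ⧸ P) < n := by
          rw [← hn, ← Subgroup.index_eq_card]
          have h4 := Subgroup.card_mul_index P
          have h5 : 1 < Nat.card P := by
            have := (Subgroup.nontrivial_iff_ne_bot P).2 hP0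
            exact Finite.one_lt_card
          have h6 : 0 < P.index := Nat.pos_of_ne_zero Subgroup.index_ne_zero_of_finite
          rw [← h4]
          nlinarith
        exact ih _ h3 (G ⧸ P) rfl (hG.quotient P) h)
    exact no_soc hS hA hA0 h1 hp hpA h2 hG

end Pool.Agent.V8H87.CM
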