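import Pool.Agent.V8H87.CM.CritC

/-!
A criterion with the proper overgroups of a subgroup `A`.
-/

set_option autoImplicit false

namespace Pool.Agent.V8H87.CM

section main

variable {T : Type} [Group T] {G : Type} [Group G] {N : Subgroup G} {𝒯 : Set (Subgroup G)}

theorem no_soc4 [Finite G] [IsSimpleGroup T] (hS : Soc T N 𝒯) {A : Subgroup T}
    (hA0 : A ≠ ⊥) (hA1 : A ≠ ⊤) (h1 : ∀ α : MulAut T, ∃ s : T, A.map α.toMonoidHom = cj s A) {p : ℕ}
    (hp : p.Prime) (hpA : ∀ C : Subgroup T, A ≤ C → C ≠ ⊤ → p ∣ C.index)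
    (h2 : ∀ α : MulAut T, α ^ p = 1 → ∃ s : T, (cj s A).map α.toMonoidHom = cj s A)
    (hG : MaxCompl G) : False := by
  obtain ⟨B, hB, -⟩ := exists_fixed_section hS hp h2 1 (one_pow p)
  have hnormal : ∀ (t : Subgroup G), t ∈ 𝒯 → ∀ L : Subgroup G, L ≤ t → (∀ x ∈ t, cj x L = L) →
      L = ⊥ ∨ L = t := by
    intro t ht L hL hx
    obtain ⟨e⟩ := hS.equiv t ht
    let f : T →* G := t.subtype.comp e.toMonoidHom
    have hn : (L.comap f).Normal := by
      constructor
      intro n hn g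
      have h3 := hx (e g) (e g).2
      have h4 : f n ∈ L := hn
      have h5 : (e g : G) * f n * (e g : G)⁻¹ ∈ L := by
        rw [← h3]
        exact conj_mem_cj h4
      have h6 : f (g * n * g⁻¹) = (e g : G) * f n * (e g : G)⁻¹ := by
        rw [map_mul, map_mul, map_inv]
        rfl
      show f (g * n * g⁻¹) ∈ L
      rw [h6]
      exact h5
    rcases hn.eq_bot_or_eq_top with h | h
    · left
      rw [eq_bot_iff]
      intro x hxL
      obtain ⟨y, hy⟩ := e.surjective ⟨x, hL hxL⟩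
      have h3 : y ∈ L.comap f := by
        show (e y : G) ∈ L
        rw [hy]
        exact hxL
      rw [h, Subgroup.mem_bot] at h3
      rw [h3, map_one] at hy
      have h4 := congrArg Subtype.val hy
      rw [Subgroup.mem_bot]
      exact h4.symm
    · right
      refine le_antisymm hL ?_
      intro x hx'
      obtain ⟨y, hy⟩ := e.surjective ⟨x, hx'⟩
      have h3 : y ∈ L.comap f := by rw [h]; exact Subgroup.mem_top _
      have h4 : (e y : G) ∈ L := h3
      rw [hy] at h4
      exact h4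
  have hB0 : ∀ t ∈ 𝒯, B t ≠ ⊥ := by
    intro t ht h0
    obtain ⟨e, he⟩ := hB t ht
    apply hA0
    apply emb_inj e
    rw [← he, h0]
    symm
    exact Subgroup.map_bot _
  have hBt : ∀ t ∈ 𝒯, B t ≠ t := by
    intro t ht h0
    obtain ⟨e, he⟩ := hB t ht
    apply hA1
    apply emb_inj e
    rw [← he, h0]
    ext x
    constructor
    · intro hx
      exact ⟨e.symm ⟨x, hx⟩, Subgroup.mem_top _, by
        show (e (e.symm ⟨x, hx⟩) : G) = x
        rw [MulEquiv.apply_symm_apply]⟩
    · rintro ⟨y, _, rfl⟩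
      exact (e y).2
  have hM0 : Stb hS B ≠ ⊤ := by
    intro h
    obtain ⟨t, ht⟩ := hS.ne
    have h3 : ∀ x ∈ t, cj x (B t) = B t := by
      intro x hx
      have h4 : x ∈ Stb hS B := by rw [h]; exact Subgroup.mem_top _
      have h5 := h4 t ht
      rwa [cj_self hx] at h5
    rcases hnormal t ht _ (hB t ht).le h3 with h4 | h4
    · exact hB0 t ht h4
    · exact hBt t ht h4
  obtain ⟨M, hM, hBM⟩ := (eq_top_or_exists_le_coatom (Stb hS B)).resolve_left hM0
  have hmulM : ∀ g : G, ∃ c ∈ N, ∃ m ∈ M, g = c * m := by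
    intro g
    obtain ⟨c, hc, m, hm, hg⟩ := stb_mul hS h1 B hB g
    exact ⟨c, hc, m, hBM hm, hg⟩
  have hLt : ∀ t ∈ 𝒯, M ⊓ t ≠ t := by
    intro t ht h
    have htM : t ≤ M := by rw [← h]; exact inf_le_left
    have h2 : N ≤ M := by
      refine hS.sup _ ?_
      intro s hs
      obtain ⟨g, rfl⟩ := hS.trans t ht s hs
      obtain ⟨c, hc, m, hm, hcm⟩ := hmulM g⁻¹
      have h3 : g = m⁻¹ * c⁻¹ := by
        rw [← inv_inv g, hcm, mul_inv_rev]
      rw [h3, ← cj_cj, hS.norm _ (N.inv_mem hc) t ht]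
      rw [← cj_self (M.inv_mem hm)]
      exact cj_mono _ htM
    apply hM.1
    rw [eq_top_iff]
    intro g _
    obtain ⟨c, hc, m, hm, rfl⟩ := hmulM g
    exact M.mul_mem (h2 hc) hm
  -- the index of `M` is divisible by `p`
  have hpM : p ∣ M.index := by
    obtain ⟨t, ht⟩ := hS.ne
    obtain ⟨e, he⟩ := hB t ht
    let f : T →* G := t.subtype.comp e.toMonoidHom
    have hrange : f.range = t := by
      ext x
      constructor
      · rintro ⟨y, rfl⟩
        exact (e y).2
      · intro hx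
        refine ⟨e.symm ⟨x, hx⟩, ?_⟩
        show (e (e.symm ⟨x, hx⟩) : G) = x
        rw [MulEquiv.apply_symm_apply]
    have h3 : (M.comap f).index = M.relIndex t := by
      rw [Subgroup.index_comap, hrange]
    have h4 : p ∣ (M.comap f).index := by
      refine hpA _ ?_ ?_
      · intro a ha
        have h5 : f a ∈ B t := by
          rw [he]
          exact ⟨a, ha, rfl⟩
        exact hBM (le_stb hS B hB t ht h5)
      · intro h5
        apply hLt t ht
        refine le_antisymm inf_le_right (le_inf ?_ le_rfl)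
        intro x hx
        rw [← hrange] at hx
        obtain ⟨y, rfl⟩ := hx
        have h6 : y ∈ M.comap f := by rw [h5]; exact Subgroup.mem_top _
        exact h6
    rw [h3] at h4
    have h5 : M.relIndex N ∣ M.index := relIndex_dvd_index _ _ hS.normal
    have hn : (t.subgroupOf N).Normal := by
      constructor
      intro n hn x
      rw [Subgroup.mem_subgroupOf] at hn ⊢
      have h1 := hS.norm x x.2 t ht
      show (x : G) * n * (x : G)⁻¹ ∈ t
      rw [← h1]
      exact conj_mem_cj hn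
    have h6 := relIndex_dvd_index (M.subgroupOf N) (t.subgroupOf N) hn
    rw [Subgroup.relIndex_subgroupOf (hS.le t ht)] at h6
    exact h4.trans (h6.trans h5)
  obtain ⟨K, hK⟩ := hG M hM
  have h3 : p ∣ Nat.card K := by
    rw [← hK.symm.index_eq_card]
    exact hpM
  have : Fact p.Prime := ⟨hp⟩
  obtain ⟨x, hx⟩ := exists_prime_orderOf_dvd_card' (G := K) p h3
  have hxG : (x : G) ^ p = 1 := by
    rw [← Subgroup.coe_pow, ← hx, pow_orderOf_eq_one, Subgroup.coe_one]
  obtain ⟨B', hB', hxB'⟩ := exists_fixed_section hS hp h2 (x : G) hxG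
  obtain ⟨c, hc, h4⟩ := section_conj hS h1 B B' hB hB'
  have h5 : c⁻¹ * x * c ∈ M := by
    apply hBM
    rw [mem_Stb]
    intro t ht
    rw [← cj_cj, ← cj_cj, h4 t ht, ← cj_cj _ c t, ← cj_cj c⁻¹ _ (cj c t), hS.norm c hc t ht]
    have h6 : cj (x : G) (B' t) = B' (cj (x : G) t) := hxB' t ht
    have h7 := hS.conj (x : G) t ht
    rw [h6, ← h4 _ h7, cj_inv_cj, hS.norm _ (N.inv_mem hc) _ h7]
  obtain ⟨⟨⟨m, hm⟩, ⟨k, hk⟩⟩, hmk⟩ := hK.2 c⁻¹
  have h6 : c⁻¹ = m * k := hmk.symm
  have h7 : k * x * k⁻¹ = m⁻¹ * (c⁻¹ * x * c) * m := by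
    have h8 : c = k⁻¹ * m⁻¹ := by rw [← inv_inv c, h6, mul_inv_rev]
    rw [h6, h8]
    group
  have h8 : k * x * k⁻¹ ∈ M ⊓ K := by
    refine ⟨?_, K.mul_mem (K.mul_mem hk x.2) (K.inv_mem hk)⟩
    rw [h7]
    exact M.mul_mem (M.mul_mem (M.inv_mem hm) h5) hm
  rw [disjoint_iff.1 hK.disjoint, Subgroup.mem_bot] at h8
  have h9 : (x : G) = 1 := by
    have h10 : (x : G) = k⁻¹ * (k * x * k⁻¹) * k := by group
    rw [h10, h8]
    group
  have h10 : x = 1 := Subtype.ext h9
  rw [h10, orderOf_one] at hx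
  exact hp.one_lt.ne hx

end main

/-- **Criterion**: `A` is a subgroup of the simple group `T`, neither trivial nor `T`, whose class is
invariant under automorphisms; `p` is a prime which divides the index of each proper subgroup containing
`A`; and each automorphism of order `p` normalises a conjugate of `A`. -/
theorem criterion' {T : Type} [Group T] [IsSimpleGroup T] {A : Subgroup T}
    (hA0 : A ≠ ⊥) (hA1 : A ≠ ⊤) (h1 : ∀ α : MulAut T, ∃ s : T, A.map α.toMonoidHom = cj s A) {p : ℕ}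
    (hp : p.Prime) (hpA : ∀ C : Subgroup T, A ≤ C → C ≠ ⊤ → p ∣ C.index)
    (h2 : ∀ α : MulAut T, α ^ p = 1 → ∃ s : T, (cj s A).map α.toMonoidHom = cj s A)
    (G : Type) [Group G] [Finite G] (hG : MaxCompl G) : ¬ IsFactor T G :=
  of_no_soc (fun _ _ _ _ _ hS hG => no_soc4 hS hA0 hA1 h1 hp hpA h2 hG) _ G rfl hG

end Pool.Agent.V8H87.CM
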