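import Pool.Agent.V8H87.CM.CritD

/-!
A counting criterion with full prime powers in the index.
-/

set_option autoImplicit false

namespace Pool.Agent.V8H87.CM

section main

variable {T : Type} [Group T] {G : Type} [Group G] {N : Subgroup G} {𝒯 : Set (Subgroup G)}

theorem no_compl2 [Finite G] [Finite T] (hS : Soc T N 𝒯) (L : Subgroup G → Subgroup G)
    (hL : ∀ t ∈ 𝒯, L t ≤ t) (hself : ∀ t ∈ 𝒯, ∀ x ∈ t, cj x (L t) = L t → x ∈ L t)
    (hmul : ∀ g : G, ∃ c ∈ N, ∃ m ∈ Stb hS L, g = c * m) (K : Subgroup G)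
    (hK : (Stb hS L).IsComplement' K)
    {r q a b : ℕ} (hr : r.Prime) (hq : q.Prime)
    (hrL : ∀ t ∈ 𝒯, r ^ a ∣ (L t).relIndex t) (hqL : ∀ t ∈ 𝒯, q ^ b ∣ (L t).relIndex t)
    (hrT : ¬ r ^ (a + 1) ∣ Nat.card (MulAut T)) (hqT : ¬ q ^ (b + 1) ∣ Nat.card (MulAut T))
    (hD : ∀ D : Subgroup (MulAut T), r ∣ Nat.card D → q ∣ Nat.card D → ¬ Nat.card D ∣ Nat.card K)
    (hnum : ∀ k X Y : ℕ, 0 < k → (r - 1) * (a * k) < (r - 1) * (a * X) + k →
      (q - 1) * (b * k) < (q - 1) * (b * Y) + k → k < X + Y) : False := by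
  classical
  have hfin : Fintype 𝒯 := Fintype.ofFinite _
  have hcard := card_compl' hS L hL hself hmul K hK
  -- the permutation action
  let ρ : K →* Equiv.Perm 𝒯 :=
    { toFun := fun κ =>
        { toFun := fun t => ⟨cj (κ : G) t, hS.conj _ t t.2⟩
          invFun := fun t => ⟨cj (κ : G)⁻¹ t, hS.conj _ t t.2⟩
          left_inv := fun t => Subtype.ext (cj_inv_cj _ _)
          right_inv := fun t => Subtype.ext (cj_cj_inv _ _) }
      map_one' := by
        ext1 t
        exact Subtype.ext (cj_one _)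
      map_mul' := fun a b => by
        ext1 t
        exact Subtype.ext (cj_cj _ _ _).symm }
  have hρ : ∀ (κ : ρ.ker) (t : 𝒯), ((κ : K) : G) ∈ nrm (t : Subgroup G) := by
    intro κ t
    have h2 : ρ (κ : K) = 1 := κ.2
    have h3 : ρ (κ : K) t = t := by rw [h2]; rfl
    exact congrArg Subtype.val h3
  have he : ∀ t : 𝒯, Nonempty (T ≃* (t : Subgroup G)) := fun t => hS.equiv t t.2
  let e : (t : 𝒯) → (T ≃* (t : Subgroup G)) := fun t => (he t).some
  let jt : (t : 𝒯) → (ρ.ker →* nrm (t : Subgroup G)) := fun t =>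
    { toFun := fun κ => ⟨((κ : K) : G), hρ κ t⟩
      map_one' := rfl
      map_mul' := fun _ _ => rfl }
  let φ : (t : 𝒯) → (ρ.ker →* MulAut T) := fun t => (act (e t)).comp (jt t)
  have hφ : ∀ (t : 𝒯) (κ : ρ.ker) (y : T),
      (e t (φ t κ y) : G) = ((κ : K) : G) * (e t y : G) * ((κ : K) : G)⁻¹ :=
    fun t κ y => act_apply (e t) (jt t κ) y
  -- joint injectivity
  have hinj : Function.Injective (MonoidHom.pi fun t : 𝒯 => (φ t).rangeRestrict) := by
    rw [injective_iff_map_eq_one]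
    intro κ hκ
    have h2 : ∀ (t : 𝒯), φ t κ = 1 := fun t => congrArg Subtype.val (congrFun hκ t)
    have h3 : ∀ t ∈ 𝒯, ∀ x ∈ t, ((κ : K) : G) * x = x * ((κ : K) : G) := by
      intro t ht x hx
      obtain ⟨y, hy⟩ := (e ⟨t, ht⟩).surjective ⟨x, hx⟩
      have h4 := hφ ⟨t, ht⟩ κ y
      rw [h2] at h4
      have h5 : (e ⟨t, ht⟩ y : G) = x := congrArg Subtype.val hy
      rw [MulAut.one_apply, h5] at h4
      nth_rewrite 2 [h4]
      group
    have h4 : ((κ : K) : G) ∈ Stb hS L := by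
      rw [mem_Stb]
      intro t ht
      rw [cj_of_comm (h3 t ht), cj_of_comm fun x hx => h3 t ht x (hL t ht hx)]
    have h5 : ((κ : K) : G) ∈ Stb hS L ⊓ K := ⟨h4, (κ : K).2⟩
    rw [disjoint_iff.1 hK.disjoint, Subgroup.mem_bot] at h5
    exact Subtype.ext (Subtype.ext h5)
  have hdvd : Nat.card ρ.ker ∣ ∏ t : 𝒯, Nat.card (φ t).range := by
    rw [← Nat.card_pi]
    exact Subgroup.card_dvd_of_injective _ hinj
  have hdvd2 : ∀ t : 𝒯, Nat.card (φ t).range ∣ Nat.card K := by
    intro t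
    exact (Subgroup.card_range_dvd (φ t)).trans (Subgroup.card_subgroup_dvd_card ρ.ker)
  have hidx : Nat.card ρ.ker * ρ.ker.index = Nat.card K := Subgroup.card_mul_index _
  have hidx2 : ρ.ker.index ∣ (Nat.card 𝒯).factorial := by
    rw [Subgroup.index_ker, ← Nat.card_perm]
    exact Subgroup.card_subgroup_dvd_card _
  -- valuations
  set k : ℕ := Nat.card 𝒯 with hk
  have hk0 : 0 < k := by
    have : Nonempty 𝒯 := hS.ne.to_subtype
    exact Finite.card_pos
  have hA1 : ∀ t : 𝒯, (L t).relIndex (t : Subgroup G) ≠ 0 :=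
    fun t => Subgroup.index_ne_zero_of_finite (H := (L t).subgroupOf (t : Subgroup G))
  have hD1 : ∀ t : 𝒯, Nat.card (φ t).range ≠ 0 := fun t => Nat.card_pos.ne'
  have vprod : ∀ (s : ℕ) [Fact s.Prime] (f : 𝒯 → ℕ), (∀ t, f t ≠ 0) →
      padicValNat s (∏ t : 𝒯, f t) = ∑ t : 𝒯, padicValNat s (f t) := by
    intro s _ f hf
    have h3 : ∀ S : Finset 𝒯, padicValNat s (∏ t ∈ S, f t) = ∑ t ∈ S, padicValNat s (f t) := by
      intro S
      induction S using Finset.induction_on with
      | empty => simp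
      | insert a S ha ih =>
        rw [Finset.prod_insert ha, Finset.sum_insert ha, padicValNat.mul (hf a)
          (Finset.prod_ne_zero_iff.2 fun t _ => hf t), ih]
    exact h3 _
  have hgen : ∀ (s a : ℕ), s.Prime → (∀ t ∈ 𝒯, s ^ a ∣ (L t).relIndex t) →
      ¬ s ^ (a + 1) ∣ Nat.card (MulAut T) →
      (s - 1) * (a * k) < (s - 1) * (a * (Finset.univ.filter fun t : 𝒯 => s ∣ Nat.card (φ t).range).card) + k := by
    intro s a hs hsA hsT
    have : Fact s.Prime := ⟨hs⟩
    have v1 : a * k ≤ padicValNat s (Nat.card K) := by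
      rw [hcard, vprod s _ hA1]
      have h1 : ∀ t : 𝒯, a ≤ padicValNat s ((L t).relIndex (t : Subgroup G)) :=
        fun t => (padicValNat_dvd_iff_le (hA1 t)).1 (hsA t t.2)
      calc a * k = ∑ _t : 𝒯, a := by rw [Finset.sum_const, Finset.card_univ, smul_eq_mul, hk,
            Nat.card_eq_fintype_card, mul_comm]
        _ ≤ _ := Finset.sum_le_sum fun t _ => h1 t
    have v2 : padicValNat s (Nat.card K) = padicValNat s (Nat.card ρ.ker) + padicValNat s ρ.ker.index := by
      rw [← hidx, padicValNat.mul Nat.card_pos.ne' Subgroup.index_ne_zero_of_finite]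
    have v3 : padicValNat s ρ.ker.index ≤ padicValNat s k.factorial :=
      (padicValNat_dvd_iff_le (p := s) (Nat.factorial_ne_zero k)).1 (pow_padicValNat_dvd.trans hidx2)
    have v4 : (s - 1) * padicValNat s k.factorial < k :=
      sub_one_mul_padicValNat_factorial_lt_of_ne_zero s hk0.ne'
    have v5 : padicValNat s (Nat.card ρ.ker) ≤ ∑ t : 𝒯, padicValNat s (Nat.card (φ t).range) := by
      have hp0 : ∏ t : 𝒯, Nat.card (φ t).range ≠ 0 := Finset.prod_ne_zero_iff.2 fun t _ => hD1 t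
      have h2 := (padicValNat_dvd_iff_le (p := s) hp0).1 (pow_padicValNat_dvd.trans hdvd)
      exact h2.trans (le_of_eq (vprod s _ hD1))
    have v6 : ∀ t : 𝒯, padicValNat s (Nat.card (φ t).range) ≤
        if s ∣ Nat.card (φ t).range then a else 0 := by
      intro t
      split_ifs with h
      · by_contra hcon
        push Not at hcon
        apply hsT
        refine (pow_dvd_pow s hcon).trans (pow_padicValNat_dvd.trans ?_)
        exact Subgroup.card_subgroup_dvd_card _
      · rw [padicValNat.eq_zero_of_not_dvd h]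
    have v7 : ∑ t : 𝒯, padicValNat s (Nat.card (φ t).range) ≤
        a * (Finset.univ.filter fun t : 𝒯 => s ∣ Nat.card (φ t).range).card := by
      refine (Finset.sum_le_sum fun t _ => v6 t).trans (le_of_eq ?_)
      rw [← Finset.sum_filter, Finset.sum_const, smul_eq_mul, mul_comm]
    have v8 : a * k ≤ a * (Finset.univ.filter fun t : 𝒯 => s ∣ Nat.card (φ t).range).card +
        padicValNat s k.factorial := by omega
    calc (s - 1) * (a * k) ≤ (s - 1) * (a * (Finset.univ.filter fun t : 𝒯 =>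
          s ∣ Nat.card (φ t).range).card + padicValNat s k.factorial) := Nat.mul_le_mul_left _ v8
      _ = (s - 1) * (a * (Finset.univ.filter fun t : 𝒯 =>
          s ∣ Nat.card (φ t).range).card) + (s - 1) * padicValNat s k.factorial := by ring
      _ < _ := Nat.add_lt_add_left v4 _
  have g1 := hgen r a hr hrL hrT
  have g2 := hgen q b hq hqL hqT
  -- disjointness
  have hdis : Disjoint (Finset.univ.filter fun t : 𝒯 => r ∣ Nat.card (φ t).range)
      (Finset.univ.filter fun t : 𝒯 => q ∣ Nat.card (φ t).range) := by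
    rw [Finset.disjoint_filter]
    intro t _ ht1 ht2
    exact hD _ ht1 ht2 (hdvd2 t)
  have hsum := Finset.card_union_of_disjoint hdis
  have hle : ((Finset.univ.filter fun t : 𝒯 => r ∣ Nat.card (φ t).range) ∪
      (Finset.univ.filter fun t : 𝒯 => q ∣ Nat.card (φ t).range)).card ≤ k := by
    refine (Finset.card_le_univ _).trans (le_of_eq ?_)
    rw [hk, Nat.card_eq_fintype_card]
  rw [hsum] at hle
  have := hnum k _ _ hk0 g1 g2
  omega

theorem no_soc5 [Finite G] [IsSimpleGroup T] [Finite T] (hS : Soc T N 𝒯) {A : Subgroup T}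
    (hP1 : A ≠ ⊥) (hP2 : A ≠ ⊤) (h1 : ∀ α : MulAut T, ∃ s : T, A.map α.toMonoidHom = cj s A)
    {r q a b : ℕ} (hr : r.Prime) (hq : q.Prime)
    (hrT : ¬ r ^ (a + 1) ∣ Nat.card (MulAut T)) (hqT : ¬ q ^ (b + 1) ∣ Nat.card (MulAut T))
    (hidx : ∀ H : Subgroup T, A ≤ H → H ≠ ⊤ → ¬ 2 ∣ H.index ∧ r ^ a ∣ H.index ∧ q ^ b ∣ H.index)
    (hD : ∀ D : Subgroup (MulAut T), r ∣ Nat.card D → q ∣ Nat.card D → 2 ∣ Nat.card D)
    (hnum : ∀ k X Y : ℕ, 0 < k → (r - 1) * (a * k) < (r - 1) * (a * X) + k →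
      (q - 1) * (b * k) < (q - 1) * (b * Y) + k → k < X + Y)
    (hG : MaxCompl G) : False := by
  classical
  -- a section
  have hsec : ∃ B : Subgroup G → Subgroup G, ∀ t ∈ 𝒯, Cls A t (B t) := by
    have : ∀ t ∈ 𝒯, ∃ C : Subgroup G, Cls A t C := by
      intro t ht
      obtain ⟨e⟩ := hS.equiv t ht
      exact ⟨emb e A, e, rfl⟩
    choose! B hB using this
    exact ⟨B, hB⟩
  obtain ⟨B, hB⟩ := hsec
  have hnormal : ∀ (t : Subgroup G), t ∈ 𝒯 → ∀ L : Subgroup G, L ≤ t → (∀ x ∈ t, cj x L = L) →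
      L = ⊥ ∨ L = t := by
    intro t ht L hL hx
    obtain ⟨e⟩ := hS.equiv t ht
    let f : T →* G := t.subtype.comp e.toMonoidHom
    have hn : (L.comap f).Normal := by
      constructor
      intro n hn g
      have h3 := hx (e g) (e g).2
      have h4 : f n ∈ L := hn
      have h5 : (e g : G) * f n * (e g : G)⁻¹ ∈ L := by
        rw [← h3]
        exact conj_mem_cj h4
      have h6 : f (g * n * g⁻¹) = (e g : G) * f n * (e g : G)⁻¹ := by
        rw [map_mul, map_mul, map_inv]
        rfl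
      show f (g * n * g⁻¹) ∈ L
      rw [h6]
      exact h5
    rcases hn.eq_bot_or_eq_top with h | h
    · left
      rw [eq_bot_iff]
      intro x hxL
      obtain ⟨y, hy⟩ := e.surjective ⟨x, hL hxL⟩
      have h3 : y ∈ L.comap f := by
        show (e y : G) ∈ L
        rw [hy]
        exact hxL
      rw [h, Subgroup.mem_bot] at h3
      rw [h3, map_one] at hy
      have h4 := congrArg Subtype.val hy
      rw [Subgroup.mem_bot]
      exact h4.symm
    · right
      refine le_antisymm hL ?_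
      intro x hx'
      obtain ⟨y, hy⟩ := e.surjective ⟨x, hx'⟩
      have h3 : y ∈ L.comap f := by rw [h]; exact Subgroup.mem_top _
      have h4 : (e y : G) ∈ L := h3
      rw [hy] at h4
      exact h4
  have hB0 : ∀ t ∈ 𝒯, B t ≠ ⊥ := by
    intro t ht h0
    obtain ⟨e, he⟩ := hB t ht
    apply hP1
    apply emb_inj e
    rw [← he, h0]
    symm
    exact Subgroup.map_bot _
  have hBt : ∀ t ∈ 𝒯, B t ≠ t := by
    intro t ht h0
    obtain ⟨e, he⟩ := hB t ht
    apply hP2
    apply emb_inj e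
    rw [← he, h0]
    ext x
    constructor
    · intro hx
      exact ⟨e.symm ⟨x, hx⟩, Subgroup.mem_top _, by
        show (e (e.symm ⟨x, hx⟩) : G) = x
        rw [MulEquiv.apply_symm_apply]⟩
    · rintro ⟨y, _, rfl⟩
      exact (e y).2
  have hM0 : Stb hS B ≠ ⊤ := by
    intro h
    obtain ⟨t, ht⟩ := hS.ne
    have h3 : ∀ x ∈ t, cj x (B t) = B t := by
      intro x hx
      have h4 : x ∈ Stb hS B := by rw [h]; exact Subgroup.mem_top _
      have h5 := h4 t ht
      rwa [cj_self hx] at h5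
    rcases hnormal t ht _ (hB t ht).le h3 with h4 | h4
    · exact hB0 t ht h4
    · exact hBt t ht h4
  obtain ⟨M, hM, hBM⟩ := (eq_top_or_exists_le_coatom (Stb hS B)).resolve_left hM0
  let L : Subgroup G → Subgroup G := fun t => M ⊓ t
  have hmulM : ∀ g : G, ∃ c ∈ N, ∃ m ∈ M, g = c * m := by
    intro g
    obtain ⟨c, hc, m, hm, hg⟩ := stb_mul hS h1 B hB g
    exact ⟨c, hc, m, hBM hm, hg⟩
  have hML : M ≤ Stb hS L := by
    intro m hm t ht
    show cj m (M ⊓ t) = M ⊓ cj m t
    rw [cj_inf, cj_self hm]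
  have hL : ∀ t ∈ 𝒯, L t ≤ t := fun t _ => inf_le_right
  have hBL : ∀ t ∈ 𝒯, B t ≤ L t := fun t ht => le_inf ((le_stb hS B hB t ht).trans hBM) (hB t ht).le
  have hL0 : ∀ t ∈ 𝒯, L t ≠ ⊥ := fun t ht h => hB0 t ht (le_bot_iff.1 (h ▸ hBL t ht))
  have hLt : ∀ t ∈ 𝒯, L t ≠ t := by
    intro t ht h
    have htM : t ≤ M := by rw [← h]; exact inf_le_left
    have h2 : N ≤ M := by
      refine hS.sup _ ?_
      intro s hs
      obtain ⟨g, rfl⟩ := hS.trans t ht s hs
      obtain ⟨c, hc, m, hm, hcm⟩ := hmulM g⁻¹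
      have h3 : g = m⁻¹ * c⁻¹ := by
        rw [← inv_inv g, hcm, mul_inv_rev]
      rw [h3, ← cj_cj, hS.norm _ (N.inv_mem hc) t ht]
      rw [← cj_self (M.inv_mem hm)]
      exact cj_mono _ htM
    apply hM.1
    rw [eq_top_iff]
    intro g _
    obtain ⟨c, hc, m, hm, rfl⟩ := hmulM g
    exact M.mul_mem (h2 hc) hm
  have hMe : Stb hS L = M := by
    rcases hML.eq_or_lt with h | h
    · exact h.symm
    exfalso
    have h2 := hM.2 _ h
    obtain ⟨t, ht⟩ := hS.ne
    have h3 : ∀ x ∈ t, cj x (L t) = L t := by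
      intro x hx
      have h4 : x ∈ Stb hS L := by rw [h2]; exact Subgroup.mem_top _
      have h5 := h4 t ht
      rwa [cj_self hx] at h5
    rcases hnormal t ht _ (hL t ht) h3 with h4 | h4
    · exact hL0 t ht h4
    · exact hLt t ht h4
  have hself : ∀ t ∈ 𝒯, ∀ x ∈ t, cj x (L t) = L t → x ∈ L t := by
    intro t ht x hx h
    refine ⟨?_, hx⟩
    rw [← hMe]
    intro s hs
    rw [hS.norm x (hS.le t ht hx) s hs]
    by_cases hts : t = s
    · subst hts
      exact h
    · exact cj_of_comm fun y hy => hS.comm t ht s hs hts x hx y (hL s hs hy)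
  obtain ⟨K, hK⟩ := hG M hM
  have hK' : (Stb hS L).IsComplement' K := by rw [hMe]; exact hK
  have hmul : ∀ g : G, ∃ c ∈ N, ∃ m ∈ Stb hS L, g = c * m := by rw [hMe]; exact hmulM
  -- indices
  have hind : ∀ t ∈ 𝒯, ¬ 2 ∣ (L t).relIndex t ∧ r ^ a ∣ (L t).relIndex t ∧ q ^ b ∣ (L t).relIndex t := by
    intro t ht
    obtain ⟨e, he⟩ := hB t ht
    let f : T →* G := t.subtype.comp e.toMonoidHom
    have hrange : f.range = t := by
      ext x
      constructor
      · rintro ⟨y, rfl⟩
        exact (e y).2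
      · intro hx
        refine ⟨e.symm ⟨x, hx⟩, ?_⟩
        show (e (e.symm ⟨x, hx⟩) : G) = x
        rw [MulEquiv.apply_symm_apply]
    have h3 : ((L t).comap f).index = (L t).relIndex t := by
      rw [Subgroup.index_comap, hrange]
    rw [← h3]
    refine hidx _ ?_ ?_
    · intro x hx
      have h5 : f x ∈ B t := by
        rw [he]
        exact ⟨x, hx, rfl⟩
      exact hBL t ht h5
    · intro h5
      apply hLt t ht
      refine le_antisymm (hL t ht) ?_
      intro x hx
      rw [← hrange] at hx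
      obtain ⟨y, rfl⟩ := hx
      have h6 : y ∈ (L t).comap f := by rw [h5]; exact Subgroup.mem_top _
      exact h6
  have hfin : Fintype 𝒯 := Fintype.ofFinite _
  have hKp : ¬ 2 ∣ Nat.card K := by
    rw [card_compl' hS L hL hself hmul K hK']
    intro h
    obtain ⟨t, _, h3⟩ := (Nat.Prime.prime Nat.prime_two).exists_mem_finset_dvd h
    exact (hind t t.2).1 h3
  exact no_compl2 hS L hL hself hmul K hK' hr hq (fun t ht => (hind t ht).2.1)
    (fun t ht => (hind t ht).2.2) hrT hqT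
    (fun D h3 h4 h5 => hKp ((hD D h3 h4).trans h5)) hnum

end main

end Pool.Agent.V8H87.CM
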