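import Mathlib

/-!
Composition factors of groups (Jordan-Hölder without series), and finite groups all of whose maximal
subgroups have complements.
-/

set_option autoImplicit false

namespace Pool.Agent.V8H87.CM

/-- The simple group `T` is a composition factor of `G`: `G` is isomorphic to `T`, or `T` is a
composition factor of a normal subgroup or of a quotient of `G`. -/
inductive IsFactor (T : Type) [Group T] : (G : Type) → [Group G] → Prop
  | iso {G : Type} [Group G] (e : G ≃* T) : IsFactor T G
  | sub {G : Type} [Group G] (N : Subgroup G) (hN : N.Normal) (h : IsFactor T N) : IsFactor T G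
  | quot {G : Type} [Group G] (N : Subgroup G) (hN : N.Normal) (h : IsFactor T (G ⧸ N)) :
      IsFactor T G

/-- All maximal subgroups of `G` have complements. -/
def MaxCompl (G : Type) [Group G] : Prop :=
  ∀ M : Subgroup G, IsCoatom M → ∃ K : Subgroup G, M.IsComplement' K

section factor

variable {T : Type} [Group T]

theorem IsFactor.congr {G : Type} [Group G] (h : IsFactor T G) :
    ∀ {G' : Type} [Group G'], (G ≃* G') → IsFactor T G' := by
  induction h with
  | iso e0 => intro G' _ e; exact .iso (e.symm.trans e0)
  | sub N hN _ ih =>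
    intro G' _ e
    have h1 : (N.map e.toMonoidHom).Normal := hN.map e.toMonoidHom e.surjective
    exact .sub (N.map e.toMonoidHom) h1 (ih (N.equivMapOfInjective e.toMonoidHom e.injective))
  | quot N hN _ ih =>
    intro G' _ e
    have h1 : (N.map e.toMonoidHom).Normal := hN.map e.toMonoidHom e.surjective
    exact .quot (N.map e.toMonoidHom) h1 (ih (QuotientGroup.congr N (N.map e.toMonoidHom) e rfl))

theorem IsFactor.nontrivial [Nontrivial T] {G : Type} [Group G] (h : IsFactor T G) :
    Nontrivial G := by
  induction h with
  | iso e => exact e.toEquiv.nontrivial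
  | sub N hN _ ih =>
    exact Function.Injective.nontrivial (f := ((↑) : N → _)) Subtype.val_injective
  | quot N hN _ ih =>
    exact Function.Surjective.nontrivial (f := (QuotientGroup.mk : _ → _ ⧸ N))
      (QuotientGroup.mk_surjective)

theorem simple_of_equiv {A B : Type} [Group A] [Group B] (e : A ≃* B) (h : IsSimpleGroup A) :
    IsSimpleGroup B := by
  have := h
  have : Nontrivial B := e.symm.toEquiv.nontrivial
  exact IsSimpleGroup.isSimpleGroup_of_surjective e.toMonoidHom e.surjective

theorem IsFactor.of_simple [Nontrivial T] {S : Type} [Group S] (h : IsFactor T S) :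
    IsSimpleGroup S → Nonempty (S ≃* T) := by
  induction h with
  | iso e => intro _; exact ⟨e⟩
  | @sub G _ N hN h ih =>
    intro hS
    rcases hN.eq_bot_or_eq_top with rfl | rfl
    · exact absurd (Subgroup.nontrivial_iff_ne_bot _ |>.1 h.nontrivial) (by simp)
    · obtain ⟨e⟩ := ih (simple_of_equiv Subgroup.topEquiv.symm hS)
      exact ⟨Subgroup.topEquiv.symm.trans e⟩
  | @quot G _ N hN h ih =>
    intro hS
    rcases hN.eq_bot_or_eq_top with rfl | rfl
    · obtain ⟨e⟩ := ih (simple_of_equiv QuotientGroup.quotientBot.symm hS)
      exact ⟨QuotientGroup.quotientBot.symm.trans e⟩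
    · have h1 := h.nontrivial
      exact absurd h1 (not_nontrivial_iff_subsingleton.2 QuotientGroup.subsingleton_quotient_top)

theorem IsFactor.split [IsSimpleGroup T] {G : Type} [Group G] (h : IsFactor T G) :
    ∀ (H : Subgroup G) (hH : H.Normal), IsFactor T H ∨ IsFactor T (G ⧸ H) := by
  induction h with
  | @iso G _ e =>
    intro H hH
    have : IsSimpleGroup G := simple_of_equiv e.symm inferInstance
    rcases hH.eq_bot_or_eq_top with rfl | rfl
    · right
      exact .iso (QuotientGroup.quotientBot.trans e)
    · left
      exact .iso (Subgroup.topEquiv.trans e)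
  | @sub G _ L hL _ ih =>
    intro H hH
    have h1 : (H.subgroupOf L).Normal := inferInstance
    rcases ih (H.subgroupOf L) h1 with h | h
    · left
      have h2 : (L.subgroupOf H).Normal := inferInstance
      refine .sub (L.subgroupOf H) h2 (h.congr ?_)
      refine ((H.subgroupOf L).equivMapOfInjective L.subtype L.subtype_injective).trans ?_
      refine MulEquiv.trans ?_
        ((L.subgroupOf H).equivMapOfInjective H.subtype H.subtype_injective).symm
      refine MulEquiv.subgroupCongr ?_
      rw [Subgroup.subgroupOf_map_subtype, Subgroup.subgroupOf_map_subtype, inf_comm]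
    · right
      let f : L →* G ⧸ H := (QuotientGroup.mk' H).comp L.subtype
      have hk : f.ker = H.subgroupOf L := by
        ext x
        rw [MonoidHom.mem_ker, Subgroup.mem_subgroupOf]
        exact QuotientGroup.eq_one_iff (x : G)
      have hr : f.range.Normal := by
        have : f.range = L.map (QuotientGroup.mk' H) := by
          rw [MonoidHom.range_comp, Subgroup.range_subtype]
        rw [this]
        exact hL.map _ (QuotientGroup.mk'_surjective H)
      exact .sub f.range hr (h.congr
        ((QuotientGroup.quotientMulEquivOfEq hk.symm).trans (QuotientGroup.quotientKerEquivRange f)))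
  | @quot G _ L hL _ ih =>
    intro H hH
    have h1 : (H.map (QuotientGroup.mk' L)).Normal := hH.map _ (QuotientGroup.mk'_surjective L)
    rcases ih (H.map (QuotientGroup.mk' L)) h1 with h | h
    · left
      let g : H →* G ⧸ L := (QuotientGroup.mk' L).comp H.subtype
      have hr : g.range = H.map (QuotientGroup.mk' L) := by
        rw [MonoidHom.range_comp, Subgroup.range_subtype]
      exact .quot g.ker inferInstance (h.congr
        ((MulEquiv.subgroupCongr hr.symm).trans (QuotientGroup.quotientKerEquivRange g).symm))
    · right
      let φ0 : G →* (G ⧸ L) ⧸ (H.map (QuotientGroup.mk' L)) :=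
        (QuotientGroup.mk' (H.map (QuotientGroup.mk' L))).comp (QuotientGroup.mk' L)
      have hφ0 : ∀ x ∈ H, φ0 x = 1 := by
        intro x hx
        show (QuotientGroup.mk' (H.map (QuotientGroup.mk' L))) (QuotientGroup.mk' L x) = 1
        rw [QuotientGroup.mk'_apply, QuotientGroup.eq_one_iff]
        exact Subgroup.mem_map_of_mem _ hx
      let φ : G ⧸ H →* (G ⧸ L) ⧸ (H.map (QuotientGroup.mk' L)) := QuotientGroup.lift H φ0 hφ0
      have hs : Function.Surjective φ := by
        intro y
        obtain ⟨z, rfl⟩ := QuotientGroup.mk'_surjective _ y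
        obtain ⟨x, rfl⟩ := QuotientGroup.mk'_surjective _ z
        exact ⟨QuotientGroup.mk' H x, rfl⟩
      exact .quot φ.ker inferInstance (h.congr (QuotientGroup.quotientKerEquivOfSurjective φ hs).symm)

theorem factor_sup [IsSimpleGroup T] {X : Type} [Group X] (A B : Subgroup X) (hB : B.Normal)
    (h : IsFactor T (A ⊔ B : Subgroup X)) : IsFactor T A ∨ IsFactor T B := by
  have h1 : (B.subgroupOf (A ⊔ B)).Normal := inferInstance
  rcases h.split (B.subgroupOf (A ⊔ B)) h1 with h2 | h2
  · right
    exact h2.congr (Subgroup.subgroupOfEquivOfLe le_sup_right)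
  · left
    exact .quot (B.subgroupOf A) inferInstance
      (h2.congr (QuotientGroup.quotientInfEquivProdNormalQuotient A B).symm)

theorem factor_finset [IsSimpleGroup T] {X : Type} [Group X] (s : Finset (Subgroup X))
    (hs : ∀ t ∈ s, t.Normal) (h : IsFactor T (s.sup id : Subgroup X)) :
    ∃ t ∈ s, IsFactor T t := by
  classical
  induction s using Finset.induction_on with
  | empty =>
    exfalso
    have h1 := h.nontrivial
    rw [Finset.sup_empty] at h1
    exact (Subgroup.nontrivial_iff_ne_bot _ |>.1 h1) rfl
  | insert a s ha ih =>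
    rw [Finset.sup_insert, id] at h
    have hn : (s.sup id : Subgroup X).Normal := by
      have : ∀ r : Finset (Subgroup X), (∀ t ∈ r, t.Normal) → (r.sup id : Subgroup X).Normal := by
        intro r
        induction r using Finset.induction_on with
        | empty => intro _; rw [Finset.sup_empty]; infer_instance
        | insert b r _ ihr =>
          intro hr
          rw [Finset.sup_insert, id]
          have := hr b (Finset.mem_insert_self _ _)
          have := ihr fun t ht => hr t (Finset.mem_insert_of_mem ht)
          infer_instance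
      exact this s fun t ht => hs t (Finset.mem_insert_of_mem ht)
    rcases factor_sup a _ hn h with h1 | h1
    · exact ⟨a, Finset.mem_insert_self _ _, h1⟩
    · obtain ⟨t, ht, h2⟩ := ih (fun t ht => hs t (Finset.mem_insert_of_mem ht)) h1
      exact ⟨t, Finset.mem_insert_of_mem ht, h2⟩

end factor

/-- The property passes to quotients. -/
theorem MaxCompl.quotient {G : Type} [Group G] (hG : MaxCompl G) (N : Subgroup G) [N.Normal] :
    MaxCompl (G ⧸ N) := by
  intro M hM
  have hs := QuotientGroup.mk'_surjective N
  have hc : IsCoatom (M.comap (QuotientGroup.mk' N)) := by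
    constructor
    · intro h
      apply hM.1
      rw [← Subgroup.map_comap_eq_self_of_surjective hs M, h, Subgroup.map_top_of_surjective _ hs]
    · intro L hL
      have h1 : M.comap (QuotientGroup.mk' N) ≤ L := hL.le
      have hN : N ≤ L := by
        refine le_trans ?_ h1
        intro x hx
        rw [Subgroup.mem_comap, QuotientGroup.mk'_apply, (QuotientGroup.eq_one_iff x).2 hx]
        exact M.one_mem
      have h2 : (L.map (QuotientGroup.mk' N)).comap (QuotientGroup.mk' N) = L := by
        rw [Subgroup.comap_map_eq, QuotientGroup.ker_mk', sup_eq_left.2 hN]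
      have h3 : M < L.map (QuotientGroup.mk' N) := by
        refine lt_of_le_of_ne ?_ ?_
        · rw [← Subgroup.map_comap_eq_self_of_surjective hs M]
          exact Subgroup.map_mono h1
        · intro h4
          apply hL.ne
          rw [h4, h2]
      have h5 := hM.2 _ h3
      rw [← h2, h5, Subgroup.comap_top]
  obtain ⟨K, hK⟩ := hG _ hc
  refine ⟨K.map (QuotientGroup.mk' N), ?_⟩
  refine Subgroup.isComplement'_of_disjoint_and_mul_eq_univ ?_ ?_
  · rw [disjoint_iff, eq_bot_iff]
    rintro _ ⟨h1, x, hx, rfl⟩
    have h2 : x ∈ M.comap (QuotientGroup.mk' N) ⊓ K := ⟨h1, hx⟩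
    rw [disjoint_iff.1 hK.disjoint, Subgroup.mem_bot] at h2
    rw [h2, map_one]
    exact Subgroup.one_mem _
  · rw [Set.eq_univ_iff_forall]
    intro y
    obtain ⟨x, rfl⟩ := hs y
    obtain ⟨⟨⟨m, hm⟩, ⟨k, hk⟩⟩, hmk⟩ := hK.2 x
    refine Set.mem_mul.2 ⟨QuotientGroup.mk' N m, hm, QuotientGroup.mk' N k, ⟨k, hk, rfl⟩, ?_⟩
    rw [← map_mul]
    exact congrArg _ hmk

end Pool.Agent.V8H87.CM
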