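import Mathlib

/-!
Proper subgroups of odd index of the alternating group of degree 6 have index divisible by 15.
-/

set_option autoImplicit false

open MulAction

namespace Pool.Agent.V8H87.CM

theorem smul_mem_orbit_iff' {G X : Type} [Group G] [MulAction G X] (H : Subgroup G) (a b : X)
    {x : G} (hx : x ∈ H) : (⟨x, hx⟩ : H) • b ∈ orbit H a ↔ b ∈ orbit H a := by
  constructor
  · intro h
    rw [orbit_eq_iff.symm] at h ⊢
    rw [← h]
    exact (orbit_smul (⟨x, hx⟩ : H) b).symm
  · intro h
    rw [orbit_eq_iff.symm] at h ⊢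
    rw [← h]
    exact orbit_smul (⟨x, hx⟩ : H) b

theorem alt6_index (H : Subgroup (alternatingGroup (Fin 6))) (h : Odd H.index) (h1 : H ≠ ⊤) :
    15 ∣ H.index := by
  have hcT : Nat.card (alternatingGroup (Fin 6)) = 360 := by
    rw [nat_card_alternatingGroup, Nat.card_eq_fintype_card, Fintype.card_fin]
    rfl
  have hs : IsSimpleGroup (alternatingGroup (Fin 6)) := alternatingGroup.isSimpleGroup
    (by rw [Nat.card_eq_fintype_card, Fintype.card_fin]; norm_num)
  have hd : H.index ∣ 360 := by rw [← hcT]; exact H.index_dvd_card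
  have hcop : Nat.Coprime H.index 8 := by
    have : Nat.Coprime H.index (2 ^ 3) := (Nat.Coprime.pow_right 3 (Nat.coprime_two_right.2 h))
    simpa using this
  have hd2 : H.index ∣ 45 := by
    have h3 : H.index ∣ 8 * 45 := by simpa using hd
    exact hcop.dvd_of_dvd_mul_left h3
  have hne1 : H.index ≠ 1 := fun h3 => h1 (Subgroup.index_eq_one.1 h3)
  -- faithful action on the cosets
  have hf : 360 ∣ H.index.factorial := by
    have hker : (toPermHom (alternatingGroup (Fin 6)) (alternatingGroup (Fin 6) ⧸ H)).ker = ⊥ := by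
      rcases (inferInstance : (toPermHom (alternatingGroup (Fin 6))
        (alternatingGroup (Fin 6) ⧸ H)).ker.Normal).eq_bot_or_eq_top with h3 | h3
      · exact h3
      · exfalso
        apply h1
        rw [eq_top_iff, ← h3, ← Subgroup.normalCore_eq_ker]
        exact H.normalCore_le
    have hinj := (MonoidHom.ker_eq_bot_iff _).1 hker
    have h3 := Subgroup.card_dvd_of_injective _ hinj
    rw [hcT, Nat.card_perm, ← Subgroup.index_eq_card] at h3
    exact h3
  have hle : H.index ≤ 45 := Nat.le_of_dvd (by norm_num) hd2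
  have hcard := H.card_mul_index
  rw [hcT] at hcard
  have hcases : H.index = 3 ∨ H.index = 5 ∨ H.index = 9 ∨ H.index = 15 ∨ H.index = 45 := by
    have h3 : H.index ∈ Nat.divisors 45 := Nat.mem_divisors.2 ⟨hd2, by norm_num⟩
    have h4 : Nat.divisors 45 = {1, 3, 5, 9, 15, 45} := by decide
    rw [h4] at h3
    simp only [Finset.mem_insert, Finset.mem_singleton] at h3
    rcases h3 with h3 | h3
    · exact absurd h3 hne1
    · exact h3
  rcases hcases with h3 | h3 | h3 | h3 | h3
  · rw [h3] at hf
    exact absurd hf (by decide)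
  · rw [h3] at hf
    exact absurd hf (by decide)
  · exfalso
    have h40 : Nat.card H = 40 := by rw [h3] at hcard; omega
    -- an element of order 5
    have : Fact (Nat.Prime 5) := ⟨by norm_num⟩
    obtain ⟨g, hg⟩ := exists_prime_orderOf_dvd_card' (G := H) 5 (by rw [h40]; norm_num)
    -- orbits of H
    have horb : ∀ a : Fin 6, (orbit H a).ncard ∣ 40 := by
      intro a
      rw [← index_stabilizer, ← h40]
      exact Subgroup.index_dvd_card _
    obtain ⟨a, ha⟩ : ∃ a : Fin 6, g • a ≠ a := by
      by_contra hcon
      push Not at hcon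
      have h5 : g = 1 := by
        apply Subtype.ext
        apply Subtype.ext
        exact Equiv.ext hcon
      rw [h5, orderOf_one] at hg
      norm_num at hg
    have hz : (orbit (Subgroup.zpowers g) a).ncard ∣ 5 := by
      rw [← index_stabilizer, ← hg, ← Nat.card_zpowers]
      exact Subgroup.index_dvd_card _
    have hz1 : (orbit (Subgroup.zpowers g) a).ncard ≠ 1 := by
      intro h5
      obtain ⟨b, hb⟩ := Set.ncard_eq_one.1 h5
      have h6 : a ∈ orbit (Subgroup.zpowers g) a := mem_orbit_self a
      have h7 : g • a ∈ orbit (Subgroup.zpowers g) a :=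
        ⟨⟨g, Subgroup.mem_zpowers g⟩, rfl⟩
      rw [hb, Set.mem_singleton_iff] at h6 h7
      exact ha (h7.trans h6.symm)
    have hz5 : (orbit (Subgroup.zpowers g) a).ncard = 5 :=
      ((Nat.dvd_prime (by norm_num)).1 hz).resolve_left hz1
    have hsub : orbit (Subgroup.zpowers g) a ⊆ orbit H a := by
      rintro _ ⟨z, rfl⟩
      exact ⟨(z : H), rfl⟩
    have h5 : 5 ≤ (orbit H a).ncard := by
      rw [← hz5]
      exact Set.ncard_le_ncard hsub (Set.toFinite _)
    have h6 : (orbit H a).ncard ≤ 6 := by
      have := Set.ncard_le_card (orbit H a)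
      simpa using this
    have h7 : (orbit H a).ncard = 5 := by
      have h8 := horb a
      interval_cases (orbit H a).ncard
      · rfl
      · exact absurd h8 (by norm_num)
    have h8 : (orbit H a)ᶜ.ncard = 1 := by
      have h9 := Set.ncard_add_ncard_compl (orbit H a)
      rw [h7, Nat.card_eq_fintype_card, Fintype.card_fin] at h9
      omega
    obtain ⟨b, hb⟩ := Set.ncard_eq_one.1 h8
    have hbn : b ∉ orbit H a := by
      have : b ∈ (orbit H a)ᶜ := by rw [hb]; rfl
      exact this
    have h9 : H ≤ stabilizer (alternatingGroup (Fin 6)) b := by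
      intro x hx
      rw [mem_stabilizer_iff]
      have h10 : x • b ∈ (orbit H a)ᶜ := by
        intro h11
        apply hbn
        have h12 : (⟨x, hx⟩ : H) • b ∈ orbit H a := h11
        exact (smul_mem_orbit_iff' _ a b hx).1 h12
      rw [hb] at h10
      exact h10
    have htr : IsPretransitive (alternatingGroup (Fin 6)) (Fin 6) :=
      alternatingGroup.isPretransitive_of_three_le_card (Fin 6) (by simp)
    have h10 := Subgroup.index_dvd_of_le h9
    rw [h3, index_stabilizer_of_transitive, Nat.card_eq_fintype_card, Fintype.card_fin] at h10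
    norm_num at h10
  · rw [h3]
  · rw [h3]; norm_num

end Pool.Agent.V8H87.CM
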