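import Pool.Agent.V8H87.CM.CritC
import Pool.Agent.V8H87.CM.Odd
import Pool.Agent.V8H87.CM.Aut6
import Pool.Agent.V8H87.CM.Idx6

/-!
The alternating group of degree 6.
-/

set_option autoImplicit false

namespace Pool.Agent.V8H87.CM

theorem card_aut_six : Nat.card (MulAut (alternatingGroup (Fin 6))) = 720 ∨
    Nat.card (MulAut (alternatingGroup (Fin 6))) = 1440 := by
  obtain ⟨H, hH, ⟨e⟩⟩ := A6.aut_six
  have h1 : Nat.card H = 720 := by
    rw [Nat.card_congr e.toEquiv, Nat.card_perm, Nat.card_eq_fintype_card, Fintype.card_fin]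
    rfl
  have h2 := H.card_mul_index
  rcases hH with h | h
  · left; rw [← h2, h1, h]
  · right; rw [← h2, h1, h]

theorem no_sub_six (D : Subgroup (MulAut (alternatingGroup (Fin 6)))) (h5 : 5 ∣ Nat.card D)
    (h3 : 3 ∣ Nat.card D) : 2 ∣ Nat.card D := by
  by_contra h2
  have hodd : Odd (Nat.card D) := by
    rw [← Nat.not_even_iff_odd, even_iff_two_dvd]
    exact h2
  obtain ⟨H, hH, ⟨e⟩⟩ := A6.aut_six
  have hDH : D ≤ H := by
    rcases hH with h | h
    · rw [Subgroup.index_eq_one.1 h]
      exact le_top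
    · have hn : H.Normal := Subgroup.normal_of_index_eq_two h
      have h4 : H.relIndex D ∣ 2 := by
        rw [← h]
        exact Subgroup.relIndex_dvd_index_of_normal H D
      have h6 : H.relIndex D ∣ Nat.card D := Subgroup.relIndex_dvd_card H D
      rcases (Nat.dvd_prime Nat.prime_two).1 h4 with h7 | h7
      · exact Subgroup.relIndex_eq_one.1 h7
      · rw [h7] at h6
        exact absurd h6 h2
  let D' : Subgroup (Equiv.Perm (Fin 6)) := (D.subgroupOf H).map e.toMonoidHom
  have hc : Nat.card D' = Nat.card D := by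
    rw [← Nat.card_congr ((D.subgroupOf H).equivMapOfInjective e.toMonoidHom e.injective).toEquiv]
    exact Nat.card_congr (Subgroup.subgroupOfEquivOfLe hDH).toEquiv
  have h4 := card_eq_five D' (by rw [hc]; exact h5) (by rw [hc]; exact hodd)
  rw [hc] at h4
  rw [h4] at h3
  norm_num at h3

theorem not_six (G : Type) [Group G] [Finite G] (hG : MaxCompl G) :
    ¬ IsFactor (alternatingGroup (Fin 6)) G := by
  have hs : IsSimpleGroup (alternatingGroup (Fin 6)) := alternatingGroup.isSimpleGroup
    (by rw [Nat.card_eq_fintype_card, Fintype.card_fin]; norm_num)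
  have hcT : Nat.card (alternatingGroup (Fin 6)) = 360 := by
    rw [nat_card_alternatingGroup, Nat.card_eq_fintype_card, Fintype.card_fin]
    rfl
  have h2 : Fact (Nat.Prime 2) := ⟨Nat.prime_two⟩
  refine of_no_soc (fun G _ _ N 𝒯 hS hG => ?_) _ G rfl hG
  obtain ⟨P⟩ : Nonempty (Sylow 2 (alternatingGroup (Fin 6))) := inferInstance
  refine no_soc3 hS P ?_ ?_ (r := 5) (q := 3) (a := 1) (b := 2) (by norm_num) (by norm_num)
    ?_ ?_ ?_ (fun D h5 h3 => no_sub_six D h5 h3) (fun k X Y _ h3 h4 => by omega) hG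
  · intro h
    have h3 := P.not_dvd_index
    rw [h, Subgroup.index_bot, hcT] at h3
    exact h3 (by norm_num)
  · intro h
    obtain ⟨n, hn⟩ := IsPGroup.iff_card.1 P.2
    rw [h, Subgroup.card_top, hcT] at hn
    have h3 : 3 ∣ 2 ^ n := by rw [← hn]; norm_num
    have h4 := Nat.prime_three.dvd_of_dvd_pow h3
    norm_num at h4
  · rcases card_aut_six with h | h <;> rw [h] <;> norm_num
  · rcases card_aut_six with h | h <;> rw [h] <;> norm_num
  · intro H hH h3
    have h4 := alt6_index H (by rw [← Nat.not_even_iff_odd, even_iff_two_dvd]; exact h3) hH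
    exact ⟨Nat.dvd_trans (by norm_num) h4, Nat.dvd_trans (by norm_num) h4⟩

end Pool.Agent.V8H87.CM
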