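import Pool.Agent.V8H87.CM.Alt2
import Pool.Agent.V8H87.CM.Six

/-!
No alternating group is a composition factor of a finite group all of whose maximal subgroups have
complements.
-/

set_option autoImplicit false

namespace Pool.Agent.V8H87.CM

theorem not_alternating {n : ℕ} (hn : 5 ≤ n) (G : Type) [Group G] [Finite G] (hG : MaxCompl G) :
    ¬ IsFactor (alternatingGroup (Fin n)) G := by
  by_cases h6 : n = 6
  · subst h6
    exact not_six G hG
  by_cases h7 : n = 7
  · subst h7
    exact not_seven G hG
  by_cases h15 : n = 15
  · subst h15
    exact not_fifteen G hG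
  exact not_alt hn h6 h7 h15 G hG

end Pool.Agent.V8H87.CM
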