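import Pool.Agent.V8H87.CM.Psl3

/-!
The groups `PSL(2, q)` are not composition factors, unless `q` is 7, 11 or congruent to one modulo four.
-/

set_option autoImplicit false

namespace Pool.Agent.V8H87.CM

open MulAction Matrix Projectivization
open scoped MatrixGroups LinearAlgebra.Projectivization

variable {F : Type} [Field F]

theorem exists_unit [Finite F] (hF : 4 ≤ Nat.card F) : ∃ a : Fˣ, (a : F) ^ 2 ≠ 1 := by
  obtain ⟨x, hx⟩ : IsCyclic Fˣ := by infer_instance
  refine ⟨x, fun h => ?_⟩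
  have h1 : orderOf x ≤ 2 := orderOf_le_of_pow_eq_one zero_lt_two (Units.ext (by simpa using h))
  rw [orderOf_eq_card_of_forall_mem_zpowers hx] at h1
  have h2 := Nat.card_eq_card_units_add_one F
  omega

theorem third [Finite F] (x y : ℙ F (Fin 2 → F)) : ∃ z : ℙ F (Fin 2 → F), z ≠ x ∧ z ≠ y := by
  classical
  have := Fintype.ofFinite (ℙ F (Fin 2 → F))
  have hn : Nat.card (ℙ F (Fin 2 → F)) = Nat.card F + 1 :=
    Projectivization.card_of_finrank_two F (Fin 2 → F) (by simp)
  have h0 : 1 < Nat.card F := Finite.one_lt_card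
  by_contra h
  push Not at h
  have h5 : (Finset.univ : Finset (ℙ F (Fin 2 → F))) ⊆ {x, y} := by
    intro z _
    rw [Finset.mem_insert, Finset.mem_singleton]
    by_cases hz : z = x
    · exact Or.inl hz
    · exact Or.inr (h z hz)
  have h6 := Finset.card_le_card h5
  rw [Finset.card_univ, ← Nat.card_eq_fintype_card] at h6
  have h7 := Finset.card_le_two (a := x) (b := y)
  omega

/-- even `q` -/
theorem no_psl_even [Finite F] [CharP F 2] (hF : 4 ≤ Nat.card F) (G : Type) [Group G] [Finite G]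
    (hG : MaxCompl G) : ¬ IsFactor PSL(2, F) G := by
  classical
  have := Fintype.ofFinite F
  have : IsSimpleGroup PSL(2, F) := Matrix.ProjectiveSpecialLinearGroup.rank_two_simple hF
  obtain ⟨n, -, hcard⟩ := FiniteField.card F 2
  obtain ⟨a, ha⟩ := exists_unit hF
  refine degree_two_pow (Ω := ℙ F (Fin 2 → F)) twoTrans stabInv (a := n) ?_ n.ne_zero
    (fun x y z hxy => fix_pair ha x y z hxy) G hG
  rw [Projectivization.card_of_finrank_two F (Fin 2 → F) (by simp), Nat.card_eq_fintype_card, hcard]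

/-- the index of the stabiliser of a pair -/
theorem pst_index [Finite F] :
    2 * (pst PSL(2, F) (z0 F) (w0 F)).index = (Nat.card F + 1) * Nat.card F := by
  classical
  let E : Subgroup PSL(2, F) := stabilizer PSL(2, F) (z0 F) ⊓ stabilizer PSL(2, F) (w0 F)
  have hn : Nat.card (ℙ F (Fin 2 → F)) = Nat.card F + 1 :=
    Projectivization.card_of_finrank_two F (Fin 2 → F) (by simp)
  have h4 : (stabilizer PSL(2, F) (z0 F)).index = Nat.card F + 1 := by
    rw [index_stabilizer]
    have : orbit PSL(2, F) (z0 F) = Set.univ := by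
      rw [Set.eq_univ_iff_forall]
      intro x
      by_cases hx : x = z0 F
      · exact hx ▸ mem_orbit_self _
      · obtain ⟨g, hg, -⟩ := twoTrans (z0 F) x x (z0 F) (Ne.symm hx) hx
        exact ⟨g, hg⟩
    rw [this, Set.ncard_univ, hn]
  have h5 : E.relIndex (stabilizer PSL(2, F) (z0 F)) = Nat.card F := by
    have h5 : E.relIndex (stabilizer PSL(2, F) (z0 F)) =
        (stabilizer (stabilizer PSL(2, F) (z0 F)) (w0 F)).index := by
      unfold Subgroup.relIndex
      congr 1
      ext g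
      constructor
      · intro hg
        exact hg.2
      · intro hg
        exact ⟨g.2, hg⟩
    rw [h5, index_stabilizer]
    have h6 : orbit (stabilizer PSL(2, F) (z0 F)) (w0 F) = {z0 F}ᶜ := by
      ext u
      constructor
      · rintro ⟨g, rfl⟩ hu
        have hu' : (g : PSL(2, F)) • w0 F = z0 F := hu
        have hg : (g : PSL(2, F)) • z0 F = z0 F := g.2
        exact z0_ne_w0 (smul_left_cancel (g : PSL(2, F)) (hu'.trans hg.symm)).symm
      · intro hu
        obtain ⟨v, hv, hvu⟩ := UU_trans u hu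
        exact ⟨⟨v, UU_z0 v hv⟩, hvu⟩
    rw [h6, Set.ncard_compl, Set.ncard_singleton, hn]
    rfl
  have h6 : E.relIndex (stabilizer PSL(2, F) (z0 F)) * (stabilizer PSL(2, F) (z0 F)).index = E.index :=
    Subgroup.relIndex_mul_index inf_le_left
  have hE : E ≤ pst PSL(2, F) (z0 F) (w0 F) := fun g hg => Or.inl ⟨hg.1, hg.2⟩
  have h7 : E.relIndex (pst PSL(2, F) (z0 F) (w0 F)) * (pst PSL(2, F) (z0 F) (w0 F)).index = E.index :=
    Subgroup.relIndex_mul_index hE
  have h8 : E.relIndex (pst PSL(2, F) (z0 F) (w0 F)) = 2 := by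
    have h9 : E.relIndex (pst PSL(2, F) (z0 F) (w0 F)) =
        (stabilizer (pst PSL(2, F) (z0 F) (w0 F)) (z0 F)).index := by
      unfold Subgroup.relIndex
      congr 1
      ext g
      constructor
      · intro hg
        exact hg.1
      · intro hg
        refine ⟨hg, ?_⟩
        rcases g.2 with h | h
        · exact h.2
        · have hg' : (g : PSL(2, F)) • z0 F = z0 F := hg
          exact absurd (hg'.symm.trans h.1) z0_ne_w0
    rw [h9, index_stabilizer]
    have h10 : orbit (pst PSL(2, F) (z0 F) (w0 F)) (z0 F) = {z0 F, w0 F} := by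
      ext u
      constructor
      · rintro ⟨g, rfl⟩
        rcases g.2 with h | h
        · left; exact h.1
        · right; exact h.1
      · rintro (rfl | rfl)
        · exact mem_orbit_self _
        · exact ⟨⟨_, ww_mem⟩, ww_z0⟩
    rw [h10]
    exact Set.ncard_pair z0_ne_w0
  rw [h8, ← h6, h5, h4] at h7
  rw [h7, mul_comm]

/-- proper overgroups of the dihedral group have even index -/
theorem psl_over [Finite F] (h1 : ¬ IsSquare (-1 : F)) (h4 : 4 ∣ Nat.card F + 1)
    (hF : 13 < Nat.card F) (C : Subgroup PSL(2, F)) (hC : pst PSL(2, F) (z0 F) (w0 F) ≤ C)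
    (hC1 : C ≠ ⊤) : 2 ∣ C.index := by
  rcases hC.eq_or_lt with h | h
  · rw [← h]
    have h2 := pst_index (F := F)
    obtain ⟨k, hk⟩ := h4
    rw [hk] at h2
    exact ⟨k * Nat.card F, by linarith⟩
  exfalso
  have hw : ((ww F : SL(2, F)) : PSL(2, F)) ∈ C := hC ww_mem
  -- an element which moves the first point outside the pair
  obtain ⟨g, hg, hg0, hg1⟩ : ∃ g ∈ C, g • z0 F ≠ z0 F ∧ g • z0 F ≠ w0 F := by
    obtain ⟨g, hg, hgn⟩ := SetLike.exists_of_lt h
    by_cases c1 : g • z0 F ≠ z0 F ∧ g • z0 F ≠ w0 F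
    · exact ⟨g, hg, c1⟩
    by_cases c2 : g • w0 F ≠ z0 F ∧ g • w0 F ≠ w0 F
    · refine ⟨g * ((ww F : SL(2, F)) : PSL(2, F)), C.mul_mem hg hw, ?_⟩
      have h2 : (g * ((ww F : SL(2, F)) : PSL(2, F))) • z0 F = g • w0 F := by
        rw [mul_smul]
        show g • (ww F • z0 F) = _
        rw [ww_z0]
      rw [h2]
      exact c2
    · exfalso
      apply hgn
      have hne : g • z0 F ≠ g • w0 F := fun h => z0_ne_w0 (smul_left_cancel g h)
      by_cases d1 : g • z0 F = z0 F
      · left
        refine ⟨d1, ?_⟩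
        by_contra d2
        exact c2 ⟨fun d3 => hne (d1.trans d3.symm), d2⟩
      · have d2 : g • z0 F = w0 F := by
          by_contra d2
          exact c1 ⟨d1, d2⟩
        right
        refine ⟨d2, ?_⟩
        by_contra d3
        exact c2 ⟨d3, fun d4 => hne (d2.trans d4.symm)⟩
  -- an element which maps the first point to `1`
  obtain ⟨k, hk, hk1⟩ : ∃ k ∈ C, k • z0 F = pt 1 := by
    rcases eq_pt (g • z0 F) with h2 | ⟨x, hx⟩
    · exact absurd h2 hg0
    have hx0 : x ≠ 0 := by
      rintro rfl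
      exact hg1 hx
    obtain ⟨v, hv⟩ := sq_or h1 x hx0
    have hτ : ((dd v⁻¹ : SL(2, F)) : PSL(2, F)) ∈ C := hC (dd_mem _)
    rcases hv with hv | hv
    · refine ⟨_, C.mul_mem hτ hg, ?_⟩
      rw [mul_smul, hx]
      show dd v⁻¹ • pt x = _
      rw [dd_pt, hv]
      congr 1
      rw [Units.val_inv_eq_inv_val]
      field_simp
    · refine ⟨_, C.mul_mem hw (C.mul_mem hτ hg), ?_⟩
      rw [mul_smul, mul_smul, hx]
      show ww F • dd v⁻¹ • pt x = _
      have h2 : ((v⁻¹ : Fˣ) : F) ^ 2 * x = -1 := by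
        rw [hv, Units.val_inv_eq_inv_val]
        field_simp
      rw [dd_pt, h2, ww_pt _ (neg_ne_zero.2 one_ne_zero)]
      congr 1
      norm_num
  by_cases hfix : ∀ g ∈ C, g • z0 F = z0 F → g • w0 F = w0 F
  · have := small_of_fix h1 C hC hk hk1 hfix
    omega
  push Not at hfix
  obtain ⟨s, hs, hs1, hs2⟩ := hfix
  -- unipotent elements
  have hu : ∃ x : F, x ≠ 0 ∧ ((uu x : SL(2, F)) : PSL(2, F)) ∈ C := by
    obtain ⟨S, rfl⟩ := QuotientGroup.mk_surjective s
    have e1 : S.1 1 0 = 0 := (smul_z0 S).1 hs1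
    have e2 : S.1 0 1 ≠ 0 := fun h0 => hs2 ((smul_w0 S).2 h0)
    have hdet : S.1 0 0 * S.1 1 1 = 1 := by
      have := S.2
      rw [Matrix.det_fin_two, e1, mul_zero, sub_zero] at this
      exact this
    have e3 : S.1 0 0 ≠ 0 := fun h0 => by rw [h0, zero_mul] at hdet; exact zero_ne_one hdet
    refine ⟨S.1 0 1 * S.1 0 0, mul_ne_zero e2 e3, ?_⟩
    have hτ : ((dd (Units.mk0 _ e3)⁻¹ : SL(2, F)) : PSL(2, F)) ∈ C := hC (dd_mem _)
    have h3 : uu (S.1 0 1 * S.1 0 0) = S * dd (Units.mk0 _ e3)⁻¹ := by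
      have hS11 : S.1 1 1 = (S.1 0 0)⁻¹ := by
        field_simp
        linear_combination hdet
      apply Subtype.ext
      show !![1, S.1 0 1 * S.1 0 0; 0, 1] = S.1 *
        !![(((Units.mk0 _ e3)⁻¹ : Fˣ) : F), 0; 0, (((Units.mk0 _ e3)⁻¹⁻¹ : Fˣ) : F)]
      ext i j
      fin_cases i <;> fin_cases j
      · simp [Matrix.mul_apply, Fin.sum_univ_two, e3]
      · simp [Matrix.mul_apply, Fin.sum_univ_two]
      · simp [Matrix.mul_apply, Fin.sum_univ_two, e1]
      · simp [Matrix.mul_apply, Fin.sum_univ_two, hS11, e3]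
    rw [h3, QuotientGroup.mk_mul]
    exact C.mul_mem hs hτ
  obtain ⟨x, hx0, hx⟩ := hu
  have hall : ∀ y : F, ((uu y : SL(2, F)) : PSL(2, F)) ∈ C := by
    have hsq : ∀ v : Fˣ, ((uu ((v : F) ^ 2 * x) : SL(2, F)) : PSL(2, F)) ∈ C := by
      intro v
      have hτ : ((dd v : SL(2, F)) : PSL(2, F)) ∈ C := hC (dd_mem _)
      have h3 : uu ((v : F) ^ 2 * x) = dd v * uu x * (dd v)⁻¹ := by
        rw [eq_mul_inv_iff_mul_eq]
        apply Subtype.ext
        show !![1, (v : F) ^ 2 * x; 0, 1] * !![(v : F), 0; 0, ((v⁻¹ : Fˣ) : F)] =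
          !![(v : F), 0; 0, ((v⁻¹ : Fˣ) : F)] * !![1, x; 0, 1]
        rw [Matrix.mul_fin_two, Matrix.mul_fin_two]
        ext i j
        fin_cases i <;> fin_cases j
        · simp
        · simp
          field_simp
        · simp
        · simp
      rw [h3, QuotientGroup.mk_mul, QuotientGroup.mk_mul]
      exact C.mul_mem (C.mul_mem hτ hx) (C.inv_mem hτ)
    intro y
    by_cases hy : y = 0
    · rw [hy, uu_zero]
      exact C.one_mem
    obtain ⟨v, hv⟩ := sq_or h1 (y / x) (div_ne_zero hy hx0)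
    rcases hv with hv | hv
    · have h3 : y = (v : F) ^ 2 * x := by
        rw [← hv]
        field_simp
      rw [h3]
      exact hsq v
    · have h3 : uu y = (uu ((v : F) ^ 2 * x))⁻¹ := by
        rw [eq_inv_iff_mul_eq_one, ← uu_mul]
        have h5 : y + (v : F) ^ 2 * x = 0 := by
          have h6 : (v : F) ^ 2 = -(y / x) := by rw [hv, neg_neg]
          rw [h6]
          field_simp
          ring
        rw [h5, uu_zero]
      rw [h3]
      exact C.inv_mem (hsq v)
  apply hC1
  rw [eq_top_iff]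
  have key : ∀ r : PSL(2, F), r • z0 F = z0 F → r ∈ C := by
    intro r hr
    rcases eq_pt (r • w0 F) with h2 | ⟨y, hy⟩
    · exact absurd (smul_left_cancel r (h2.trans hr.symm)).symm z0_ne_w0
    have h3 : ((uu (-y) : SL(2, F)) : PSL(2, F)) * r ∈ C := by
      apply hC
      left
      constructor
      · rw [mul_smul, hr]
        exact uu_z0 _
      · rw [mul_smul, hy]
        show uu (-y) • pt y = _
        rw [uu_pt, add_neg_cancel, pt_zero]
    have h5 := C.mul_mem (C.inv_mem (hall (-y))) h3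
    rwa [inv_mul_cancel_left] at h5
  intro r _
  rcases eq_pt (r • z0 F) with h2 | ⟨y, hy⟩
  · exact key r h2
  have h3 : ((ww F : SL(2, F)) : PSL(2, F)) * (((uu (-y) : SL(2, F)) : PSL(2, F)) * r) ∈ C := by
    apply key
    rw [mul_smul, mul_smul, hy]
    show ww F • uu (-y) • pt y = _
    rw [uu_pt, add_neg_cancel, pt_zero, ww_w0]
  have h5 := C.mul_mem (C.inv_mem (hall (-y))) (C.mul_mem (C.inv_mem hw) h3)
  rwa [inv_mul_cancel_left, inv_mul_cancel_left] at h5

/-- `q` congruent to three modulo four -/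
theorem no_psl_three [Finite F] (hF : 13 < Nat.card F) (h4 : Nat.card F % 4 = 3) (G : Type)
    [Group G] [Finite G] (hG : MaxCompl G) : ¬ IsFactor PSL(2, F) G := by
  classical
  have := Fintype.ofFinite F
  have : IsSimpleGroup PSL(2, F) := Matrix.ProjectiveSpecialLinearGroup.rank_two_simple (by omega)
  have h1 : ¬ IsSquare (-1 : F) := by
    intro h
    rw [FiniteField.isSquare_neg_one_iff, ← Nat.card_eq_fintype_card] at h
    exact h h4
  exact pairs (Ω := ℙ F (Fin 2 → F)) twoTrans third stabInv z0_ne_w0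
    (fun C hC hC1 => psl_over h1 (by omega) hF C hC hC1) G hG

/-- all `q` which are not congruent to one modulo four, except 7 and 11 -/
theorem no_psl [Finite F] (hF : 4 ≤ Nat.card F) (h1 : Nat.card F % 4 ≠ 1) (h7 : Nat.card F ≠ 7)
    (h11 : Nat.card F ≠ 11) (G : Type) [Group G] [Finite G] (hG : MaxCompl G) :
    ¬ IsFactor PSL(2, F) G := by
  classical
  have := Fintype.ofFinite F
  by_cases h2 : 2 ∣ Nat.card F
  · obtain ⟨p, hchar⟩ := CharP.exists F
    have hp : Fact p.Prime := ⟨CharP.char_is_prime F p⟩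
    obtain ⟨n, -, hcard⟩ := FiniteField.card F p
    rw [Nat.card_eq_fintype_card, hcard] at h2
    have h3 : 2 ∣ p := Nat.prime_two.dvd_of_dvd_pow h2
    have h4 : 2 = p := (Nat.prime_dvd_prime_iff_eq Nat.prime_two hp.out).1 h3
    subst h4
    exact no_psl_even hF G hG
  · exact no_psl_three (by omega) (by omega) G hG

end Pool.Agent.V8H87.CM
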