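import Pool.Agent.V8H87.CM.Psl1

/-!
The groups `PSL(2, p)`, `p` a prime congruent to one modulo four: automorphisms.
-/

set_option autoImplicit false

namespace Pool.Agent.V8H87.CM

open MulAction Matrix Projectivization
open scoped MatrixGroups LinearAlgebra.Projectivization

variable {F : Type} [Field F]

/-- `α` maps the stabiliser of `x` to the stabiliser of `y`. -/
def Mv (α : MulAut PSL(2, F)) (x y : ℙ F (Fin 2 → F)) : Prop :=
  (stabilizer PSL(2, F) x).map α.toMonoidHom = stabilizer PSL(2, F) y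

theorem Mv.mul {α β : MulAut PSL(2, F)} {x y z : ℙ F (Fin 2 → F)} (h1 : Mv α x y) (h2 : Mv β y z) :
    Mv (β * α) x z := by
  unfold Mv at *
  rw [← h2, ← h1, Subgroup.map_map]
  rfl

theorem Mv.inv {α : MulAut PSL(2, F)} {x y : ℙ F (Fin 2 → F)} (h1 : Mv α x y) : Mv α⁻¹ y x := by
  unfold Mv at *
  rw [← h1, Subgroup.map_map]
  have : α⁻¹.toMonoidHom.comp α.toMonoidHom = MonoidHom.id _ := by
    ext s
    exact MulAut.inv_apply_self _ α s
  rw [this, Subgroup.map_id]

theorem Mv.conj (s : PSL(2, F)) (x : ℙ F (Fin 2 → F)) : Mv (MulAut.conj s) x (s • x) :=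
  (stab_smul s x).symm

theorem rigid [Finite F] (hp : (Nat.card F).Prime) {α : MulAut PSL(2, F)} (h0 : Mv α (z0 F) (z0 F))
    (h1 : Mv α (w0 F) (w0 F)) (h2 : Mv α (pt 1) (pt 1)) : α = 1 := by
  choose σ hσ using stabInv (F := F) α
  obtain ⟨e1, e2⟩ := aut_perm twoTrans third α σ hσ
  have sinj : ∀ x y : ℙ F (Fin 2 → F), Mv α x y → σ x = y := by
    intro x y h
    exact stab_inj twoTrans third ((hσ x).symm.trans h)
  have s0 := sinj _ _ h0
  have s1 := sinj _ _ h1
  have s2 := sinj _ _ h2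
  have hτ : ∀ x : F, ∃ y : F, σ (pt x) = pt y := by
    intro x
    rcases eq_pt (σ (pt x)) with h | h
    · exfalso
      exact pt_ne_z0 x (e2 (h.trans s0.symm))
    · exact h
  choose τ hτ using hτ
  have t0 : τ 0 = 0 := by
    apply pt_inj
    rw [← hτ 0, pt_zero, s1]
  have t1 : τ 1 = 1 := by
    apply pt_inj
    rw [← hτ 1, s2]
  -- the image of the translation
  obtain ⟨j, hj⟩ : ∃ j : F, ∀ z : F, α ((uu 1 : SL(2, F)) : PSL(2, F)) • pt z = pt (z + j) := by
    obtain ⟨g, hg⟩ := QuotientGroup.mk_surjective (α ((uu 1 : SL(2, F)) : PSL(2, F)))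
    have f1 : (g : PSL(2, F)) • z0 F = z0 F := by
      rw [hg]
      nth_rewrite 1 [← s0]
      rw [e1]
      have : ((uu 1 : SL(2, F)) : PSL(2, F)) • z0 F = z0 F := uu_z0 1
      rw [this, s0]
    have f2 : g.1 1 0 = 0 := (smul_z0 g).1 f1
    have hdet : g.1 0 0 * g.1 1 1 = 1 := by
      have := g.2
      rw [Matrix.det_fin_two, f2, mul_zero, sub_zero] at this
      exact this
    have f3 : g.1 1 1 ≠ 0 := fun h0 => by rw [h0, mul_zero] at hdet; exact zero_ne_one hdet
    have f4 : ∀ z : F, g • pt z = pt ((g.1 0 0 * z + g.1 0 1) / g.1 1 1) := by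
      intro z
      have := sl_pt g z (by rw [f2, zero_mul, zero_add]; exact f3)
      rw [this]
      congr 1
      rw [f2, zero_mul, zero_add]
    have f5 : g.1 0 0 = g.1 1 1 := by
      by_contra hne
      have f6 : g.1 1 1 - g.1 0 0 ≠ 0 := sub_ne_zero.2 (Ne.symm hne)
      have f7 : g • pt (g.1 0 1 / (g.1 1 1 - g.1 0 0)) = pt (g.1 0 1 / (g.1 1 1 - g.1 0 0)) := by
        rw [f4]
        congr 1
        field_simp
        ring
      -- a fixed point of the image comes from a fixed point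
      have hfin : Finite (ℙ F (Fin 2 → F)) := inferInstance
      obtain ⟨x, hx⟩ := (Finite.injective_iff_surjective.1 e2) (pt (g.1 0 1 / (g.1 1 1 - g.1 0 0)))
      have f8 : σ (((uu 1 : SL(2, F)) : PSL(2, F)) • x) = σ x := by
        rw [← e1, hx, ← hg]
        exact f7
      have f9 := e2 f8
      rcases eq_pt x with h | ⟨y, rfl⟩
      · rw [h, s0] at hx
        exact pt_ne_z0 _ hx.symm
      · have f10 : uu (1 : F) • pt y = pt y := f9
        rw [uu_pt] at f10
        have f11 := pt_inj f10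
        exact one_ne_zero (by linear_combination f11 : (1 : F) = 0)
    refine ⟨g.1 0 1 / g.1 1 1, fun z => ?_⟩
    rw [← hg]
    have := f4 z
    rw [f5] at this
    have f6 : (g.1 1 1 * z + g.1 0 1) / g.1 1 1 = z + g.1 0 1 / g.1 1 1 := by field_simp
    rw [f6] at this
    exact this
  have hadd : ∀ x : F, τ (x + 1) = τ x + j := by
    intro x
    apply pt_inj
    rw [← hτ, ← hj, ← hτ, e1]
    congr 1
    exact (uu_pt 1 x).symm
  have hj1 : j = 1 := by
    have := hadd 0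
    rw [t0, zero_add, zero_add, t1] at this
    exact this.symm
  rw [hj1] at hadd
  have hint : ∀ k : ℤ, τ (k : F) = (k : F) := by
    intro k
    induction k using Int.induction_on with
    | zero => simpa using t0
    | succ n ih =>
      have := hadd ((n : ℤ) : F)
      rw [ih] at this
      push_cast at this ⊢
      exact this
    | pred n ih =>
      have := hadd ((-(n : ℤ) - 1 : ℤ) : F)
      have e3 : ((-(n : ℤ) - 1 : ℤ) : F) + 1 = ((-(n : ℤ) : ℤ) : F) := by push_cast; ring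
      rw [e3, ih] at this
      have e4 : τ ((-(n : ℤ) - 1 : ℤ) : F) = ((-(n : ℤ) : ℤ) : F) - 1 := by
        rw [this]
        ring
      rw [e4]
      push_cast
      ring
  have hall : ∀ x : F, τ x = x := by
    intro x
    have : Fact (Nat.card F).Prime := ⟨hp⟩
    rcases AddSubgroup.eq_bot_or_eq_top_of_prime_card (AddSubgroup.zmultiples (1 : F)) with h | h
    · exfalso
      have h3 : (1 : F) ∈ AddSubgroup.zmultiples (1 : F) := AddSubgroup.mem_zmultiples _
      rw [h, AddSubgroup.mem_bot] at h3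
      exact one_ne_zero h3
    · have h3 : x ∈ AddSubgroup.zmultiples (1 : F) := by rw [h]; exact AddSubgroup.mem_top _
      obtain ⟨k, hk⟩ := AddSubgroup.mem_zmultiples_iff.1 h3
      have h4 : x = (k : F) := by rw [← hk, zsmul_eq_mul, mul_one]
      rw [h4]
      exact hint k
  have hσ1 : ∀ x, σ x = x := by
    intro x
    rcases eq_pt x with rfl | ⟨y, rfl⟩
    · exact s0
    · rw [hτ, hall]
  ext g
  apply FaithfulSMul.eq_of_smul_eq_smul (α := ℙ F (Fin 2 → F))
  intro x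
  have := e1 g x
  rw [hσ1, hσ1] at this
  exact this

/-- automorphisms up to inner ones -/
theorem mod_inner [Finite F] (n0 : F) (hn0 : n0 ≠ 0) (hn : ∀ y : F, y ≠ 0 → ∃ v : Fˣ, y = (v : F) ^ 2 ∨
      y = (v : F) ^ 2 * n0) (α : MulAut PSL(2, F)) :
    ∃ s : PSL(2, F), Mv (MulAut.conj s * α) (z0 F) (z0 F) ∧ Mv (MulAut.conj s * α) (w0 F) (w0 F) ∧
      (Mv (MulAut.conj s * α) (pt 1) (pt 1) ∨ Mv (MulAut.conj s * α) (pt 1) (pt n0)) := by
  choose σ hσ using stabInv (F := F) α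
  obtain ⟨e1, e2⟩ := aut_perm twoTrans third α σ hσ
  obtain ⟨s, hs1, hs2⟩ := twoTrans (σ (z0 F)) (σ (w0 F)) (z0 F) (w0 F)
    (fun h => z0_ne_w0 (e2 h)) z0_ne_w0
  have hm : ∀ x, Mv (MulAut.conj s * α) x (s • σ x) := fun x => Mv.mul (hσ x) (Mv.conj s (σ x))
  obtain ⟨y, hy0, hy⟩ : ∃ y : F, y ≠ 0 ∧ s • σ (pt 1) = pt y := by
    rcases eq_pt (s • σ (pt 1)) with h | ⟨y, hy⟩
    · exfalso
      rw [← hs1] at h
      exact pt_ne_z0 _ (e2 (smul_left_cancel s h))
    · refine ⟨y, ?_, hy⟩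
      rintro rfl
      rw [pt_zero, ← hs2] at hy
      have h3 := e2 (smul_left_cancel s hy)
      rw [← pt_zero] at h3
      exact one_ne_zero (pt_inj h3)
  obtain ⟨v, hv⟩ := hn y hy0
  have hd0 : ((dd v⁻¹ : SL(2, F)) : PSL(2, F)) • z0 F = z0 F := dd_z0 _
  have hd1 : ((dd v⁻¹ : SL(2, F)) : PSL(2, F)) • w0 F = w0 F := dd_w0 _
  refine ⟨((dd v⁻¹ : SL(2, F)) : PSL(2, F)) * s, ?_, ?_, ?_⟩
  · have h := Mv.mul (hm (z0 F)) (Mv.conj ((dd v⁻¹ : SL(2, F)) : PSL(2, F)) _)
    rw [hs1, hd0, ← mul_assoc, ← map_mul] at h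
    exact h
  · have h := Mv.mul (hm (w0 F)) (Mv.conj ((dd v⁻¹ : SL(2, F)) : PSL(2, F)) _)
    rw [hs2, hd1, ← mul_assoc, ← map_mul] at h
    exact h
  · have h := Mv.mul (hm (pt 1)) (Mv.conj ((dd v⁻¹ : SL(2, F)) : PSL(2, F)) _)
    rw [hy, ← mul_assoc, ← map_mul] at h
    have h3 : ((dd v⁻¹ : SL(2, F)) : PSL(2, F)) • pt y = pt (((v⁻¹ : Fˣ) : F) ^ 2 * y) := dd_pt _ _
    rw [h3, Units.val_inv_eq_inv_val] at h
    rcases hv with hv | hv
    · left
      have h4 : ((v : F)⁻¹) ^ 2 * y = 1 := by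
        rw [hv]
        field_simp
      rwa [h4] at h
    · right
      have h4 : ((v : F)⁻¹) ^ 2 * y = n0 := by
        rw [hv]
        field_simp
      rwa [h4] at h

/-- subgroups of odd order consist of inner automorphisms -/
theorem odd_inner [Finite F] (hp : (Nat.card F).Prime) (n0 : F) (hn0 : n0 ≠ 0)
    (hn : ∀ y : F, y ≠ 0 → ∃ v : Fˣ, y = (v : F) ^ 2 ∨ y = (v : F) ^ 2 * n0)
    (D : Subgroup (MulAut PSL(2, F))) (hD : ¬ 2 ∣ Nat.card D) : D ≤ (MulAut.conj (G := PSL(2, F))).range := by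
  have key : ∀ α β : MulAut PSL(2, F), α ∉ (MulAut.conj (G := PSL(2, F))).range →
      β ∉ (MulAut.conj (G := PSL(2, F))).range → α * β⁻¹ ∈ (MulAut.conj (G := PSL(2, F))).range ∨
      ∃ s t : PSL(2, F), MulAut.conj s * α = MulAut.conj t * β := by
    intro α β hα hβ
    right
    obtain ⟨s, hs1, hs2, hs3⟩ := mod_inner n0 hn0 hn α
    obtain ⟨t, ht1, ht2, ht3⟩ := mod_inner n0 hn0 hn β
    refine ⟨s, t, ?_⟩
    have hs4 : Mv (MulAut.conj s * α) (pt 1) (pt n0) := by
      refine hs3.resolve_left fun h => hα ?_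
      have := rigid hp hs1 hs2 h
      refine ⟨s⁻¹, ?_⟩
      rw [map_inv]
      exact (eq_inv_of_mul_eq_one_right this).symm
    have ht4 : Mv (MulAut.conj t * β) (pt 1) (pt n0) := by
      refine ht3.resolve_left fun h => hβ ?_
      have := rigid hp ht1 ht2 h
      refine ⟨t⁻¹, ?_⟩
      rw [map_inv]
      exact (eq_inv_of_mul_eq_one_right this).symm
    have h := rigid hp (Mv.mul hs1 ht1.inv) (Mv.mul hs2 ht2.inv) (Mv.mul hs4 ht4.inv)
    exact (inv_mul_eq_one.1 h).symm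
  intro d hd
  have h2 : d ^ 2 ∈ (MulAut.conj (G := PSL(2, F))).range := by
    by_cases hd1 : d ∈ (MulAut.conj (G := PSL(2, F))).range
    · exact Subgroup.pow_mem _ hd1 2
    rcases key d d⁻¹ hd1 (fun h => hd1 (by simpa using Subgroup.inv_mem _ h)) with h | ⟨s, t, hst⟩
    · rw [inv_inv, ← pow_two] at h
      exact h
    · have h3 : d ^ 2 = (MulAut.conj s)⁻¹ * MulAut.conj t := by
        have h4 : (MulAut.conj s * d) * d = MulAut.conj t * d⁻¹ * d := by rw [hst]
        rw [inv_mul_cancel_right, mul_assoc, ← pow_two] at h4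
        rw [← h4]
        group
      rw [h3]
      exact Subgroup.mul_mem _ (Subgroup.inv_mem _ ⟨s, rfl⟩) ⟨t, rfl⟩
  have h3 : d ^ Nat.card D = 1 := by
    have := pow_card_eq_one' (x := (⟨d, hd⟩ : D))
    exact congrArg Subtype.val this
  obtain ⟨m, hm⟩ : ∃ m, Nat.card D = 2 * m + 1 := ⟨Nat.card D / 2, by omega⟩
  have h4 : d = ((d ^ 2) ^ m)⁻¹ := by
    rw [eq_inv_iff_mul_eq_one, ← pow_mul, ← pow_succ', ← hm, h3]
  rw [h4]
  exact Subgroup.inv_mem _ (Subgroup.pow_mem _ h2 m)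

end Pool.Agent.V8H87.CM
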