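import Pool.Agent.V8H87.CM.Prime

/-!
The groups `PSL(2, p)`, `p` a prime congruent to one modulo four.
-/

set_option autoImplicit false

namespace Pool.Agent.V8H87.CM

open MulAction Matrix Projectivization
open scoped MatrixGroups LinearAlgebra.Projectivization

variable {F : Type} [Field F]

theorem card_line [Finite F] : Nat.card (ℙ F (Fin 2 → F)) = Nat.card F + 1 :=
  Projectivization.card_of_finrank_two F (Fin 2 → F) (by simp)

theorem stab_index [Finite F] (x : ℙ F (Fin 2 → F)) :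
    (stabilizer PSL(2, F) x).index = Nat.card F + 1 := by
  rw [index_stabilizer]
  have : orbit PSL(2, F) x = Set.univ := by
    rw [Set.eq_univ_iff_forall]
    intro y
    by_cases hy : y = x
    · exact hy ▸ mem_orbit_self _
    · obtain ⟨g, hg, -⟩ := twoTrans x y y x (Ne.symm hy) hy
      exact ⟨g, hg⟩
  rw [this, Set.ncard_univ, card_line]

/-- the order of a point stabiliser divides `q (q - 1)` -/
theorem stab_card [Finite F] : Nat.card (stabilizer PSL(2, F) (z0 F)) ∣ Nat.card F * (Nat.card F - 1) := by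
  let E : Subgroup PSL(2, F) := stabilizer PSL(2, F) (z0 F) ⊓ stabilizer PSL(2, F) (w0 F)
  have h5 : E.relIndex (stabilizer PSL(2, F) (z0 F)) = Nat.card F := by
    have h5 : E.relIndex (stabilizer PSL(2, F) (z0 F)) =
        (stabilizer (stabilizer PSL(2, F) (z0 F)) (w0 F)).index := by
      unfold Subgroup.relIndex
      congr 1
      ext g
      constructor
      · intro hg
        exact hg.2
      · intro hg
        exact ⟨g.2, hg⟩
    rw [h5, index_stabilizer]
    have h6 : orbit (stabilizer PSL(2, F) (z0 F)) (w0 F) = {z0 F}ᶜ := by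
      ext u
      constructor
      · rintro ⟨g, rfl⟩ hu
        have hu' : (g : PSL(2, F)) • w0 F = z0 F := hu
        have hg : (g : PSL(2, F)) • z0 F = z0 F := g.2
        exact z0_ne_w0 (smul_left_cancel (g : PSL(2, F)) (hu'.trans hg.symm)).symm
      · intro hu
        obtain ⟨v, hv, hvu⟩ := UU_trans u hu
        exact ⟨⟨v, UU_z0 v hv⟩, hvu⟩
    rw [h6, Set.ncard_compl, Set.ncard_singleton, card_line]
    rfl
  have h6 : Nat.card E * E.relIndex (stabilizer PSL(2, F) (z0 F)) =
      Nat.card (stabilizer PSL(2, F) (z0 F)) := by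
    have h1 := Subgroup.card_mul_index E
    have h2 := Subgroup.card_mul_index (stabilizer PSL(2, F) (z0 F))
    have h3 : E.relIndex (stabilizer PSL(2, F) (z0 F)) * (stabilizer PSL(2, F) (z0 F)).index = E.index :=
      Subgroup.relIndex_mul_index inf_le_left
    have h4 : 0 < (stabilizer PSL(2, F) (z0 F)).index := by rw [stab_index]; omega
    refine Nat.eq_of_mul_eq_mul_right h4 ?_
    rw [h2, ← h1, ← h3]
    ring
  have h7 : Nat.card E ∣ Nat.card F - 1 := by
    have h8 := Subgroup.card_dvd_of_le (stab_le_DD (F := F))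
    have h9 : Nat.card (DD F).range ∣ Nat.card Fˣ := Subgroup.card_range_dvd (DD F)
    have h10 := Nat.card_eq_card_units_add_one F
    rw [h10, Nat.add_sub_cancel]
    exact h8.trans h9
  rw [← h6, h5, mul_comm]
  exact Nat.mul_dvd_mul_left _ h7

theorem card_T [Finite F] : Nat.card PSL(2, F) ∣ (Nat.card F + 1) * (Nat.card F * (Nat.card F - 1)) := by
  rw [← Subgroup.card_mul_index (stabilizer PSL(2, F) (z0 F)), stab_index, mul_comm]
  exact Nat.mul_dvd_mul_left _ stab_card

/-- a subgroup of `PSL(2, p)` of order divisible by `p` and by a prime divisor of `p + 1` which does not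
divide `p - 1` has even order -/
theorem even_of_dvd [Finite F] (hp : (Nat.card F).Prime) (h2 : 2 ∣ Nat.card F + 1) {r : ℕ}
    (hr : r.Prime) (hrF : ¬ r ∣ Nat.card F * (Nat.card F - 1)) (D : Subgroup PSL(2, F))
    (hDr : r ∣ Nat.card D) (hDp : Nat.card F ∣ Nat.card D) : 2 ∣ Nat.card D := by
  have : Fact r.Prime := ⟨hr⟩
  have hpF : Fact (Nat.card F).Prime := ⟨hp⟩
  obtain ⟨y, hy⟩ := exists_prime_orderOf_dvd_card' (G := D) r hDr
  obtain ⟨u, hu⟩ := exists_prime_orderOf_dvd_card' (G := D) (Nat.card F) hDp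
  have hyfix : ∀ x : ℙ F (Fin 2 → F), (y : PSL(2, F)) • x ≠ x := by
    intro x hx
    obtain ⟨g, hg⟩ : ∃ g : PSL(2, F), g • z0 F = x := by
      by_cases h : x = z0 F
      · exact ⟨1, by rw [one_smul, h]⟩
      · obtain ⟨g, hg, -⟩ := twoTrans (z0 F) x x (z0 F) (Ne.symm h) h
        exact ⟨g, hg⟩
    have h1 : g⁻¹ * (y : PSL(2, F)) * g ∈ stabilizer PSL(2, F) (z0 F) := by
      rw [mem_stabilizer_iff, mul_smul, mul_smul, hg, hx, inv_smul_eq_iff, hg]
    have h3 : orderOf (g⁻¹ * (y : PSL(2, F)) * g) = r := by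
      have h4 : g⁻¹ * (y : PSL(2, F)) * g = MulAut.conj g⁻¹ (y : PSL(2, F)) := by
        rw [MulAut.conj_apply, inv_inv]
      rw [h4, MulEquiv.orderOf_eq, Subgroup.orderOf_coe, hy]
    have h4 : r ∣ Nat.card (stabilizer PSL(2, F) (z0 F)) := by
      rw [← h3, ← Subgroup.orderOf_mk _ h1]
      exact orderOf_dvd_natCard _
    exact hrF (h4.trans stab_card)
  have hU : IsPGroup (Nat.card F) (Subgroup.zpowers u) := by
    refine IsPGroup.of_card (n := 1) ?_
    rw [Nat.card_zpowers, hu, pow_one]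
  obtain ⟨x, hx⟩ : (fixedPoints (Subgroup.zpowers u) (ℙ F (Fin 2 → F))).Nonempty := by
    refine hU.nonempty_fixed_point_of_prime_not_dvd_card _ ?_
    rw [card_line]
    intro h
    have h5 := (Nat.dvd_add_right (dvd_refl _)).1 h
    exact hp.one_lt.ne' (Nat.dvd_one.1 h5)
  have hux : u • x = x := hx ⟨u, Subgroup.mem_zpowers u⟩
  obtain ⟨w, hw⟩ : ∃ w : ℙ F (Fin 2 → F), u • w ≠ w := by
    by_contra h
    push Not at h
    have h1 : (u : PSL(2, F)) = 1 := by
      apply FaithfulSMul.eq_of_smul_eq_smul (α := ℙ F (Fin 2 → F))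
      intro a
      rw [one_smul]
      exact h a
    have h3 : u = 1 := Subtype.ext h1
    rw [h3, orderOf_one] at hu
    exact hp.one_lt.ne hu
  have horb : (orbit (Subgroup.zpowers u) w).ncard = Nat.card F := by
    have h1 : (orbit (Subgroup.zpowers u) w).ncard ∣ Nat.card F := by
      rw [← index_stabilizer]
      refine (Subgroup.index_dvd_card _).trans ?_
      rw [Nat.card_zpowers, hu]
    rcases (Nat.dvd_prime hp).1 h1 with h | h
    · exfalso
      obtain ⟨a, ha⟩ := Set.ncard_eq_one.1 h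
      have h3 : w ∈ orbit (Subgroup.zpowers u) w := mem_orbit_self w
      have h4 : u • w ∈ orbit (Subgroup.zpowers u) w := ⟨⟨u, Subgroup.mem_zpowers u⟩, rfl⟩
      rw [ha, Set.mem_singleton_iff] at h3 h4
      exact hw (h4.trans h3.symm)
    · exact h
  have hsub : orbit (Subgroup.zpowers u) w = {x}ᶜ := by
    refine Set.eq_of_subset_of_ncard_le ?_ ?_ (Set.toFinite _)
    · rintro _ ⟨g, rfl⟩ hgx
      have h1 : (g : D) • w = x := hgx
      have h3 : (g : D) • x = x := hx g
      have h4 : w = x := smul_left_cancel (g : D) (h1.trans h3.symm)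
      rw [h4] at hw
      exact hw hux
    · rw [horb, Set.ncard_compl, Set.ncard_singleton, card_line]
      omega
  have huniv : orbit D w = Set.univ := by
    have h1 : ∀ a, a ≠ x → a ∈ orbit D w := by
      intro a ha
      have h3 : a ∈ orbit (Subgroup.zpowers u) w := by rw [hsub]; exact ha
      obtain ⟨g, hg⟩ := h3
      exact ⟨(g : D), hg⟩
    rw [Set.eq_univ_iff_forall]
    intro a
    by_cases ha : a = x
    · obtain ⟨g, hg⟩ := h1 _ (hyfix x)
      refine ⟨y⁻¹ * g, ?_⟩
      have hg' : g • w = y • x := hg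
      show (y⁻¹ * g) • w = a
      rw [mul_smul, hg', inv_smul_smul, ha]
    · exact h1 a ha
  have h3 : Nat.card F + 1 ∣ Nat.card D := by
    have h4 : (stabilizer D w).index = Nat.card F + 1 := by
      rw [index_stabilizer, huniv, Set.ncard_univ, card_line]
    rw [← h4]
    exact Subgroup.index_dvd_card _
  exact h2.trans h3

theorem conj_inj : Function.Injective (MulAut.conj (G := PSL(2, F))) := by
  rw [injective_iff_map_eq_one]
  intro s hs
  apply FaithfulSMul.eq_of_smul_eq_smul (α := ℙ F (Fin 2 → F))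
  intro x
  rw [one_smul]
  have h1 : stabilizer PSL(2, F) (s • x) = stabilizer PSL(2, F) x := by
    have h2 := Mv.conj s x
    unfold Mv at h2
    rw [← h2, hs]
    exact Subgroup.map_id _
  by_contra hne
  -- a third point
  have h3 : ∃ z : ℙ F (Fin 2 → F), z ≠ x ∧ z ≠ s • x := by
    by_contra h
    push Not at h
    have a0 : ∀ z, z = x ∨ z = s • x := fun z => by
      by_cases hz : z = x
      · exact Or.inl hz
      · exact Or.inr (h z hz)
    have b0 := a0 (z0 F)
    have b1 := a0 (w0 F)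
    have b2 := a0 (pt 1)
    have c1 : pt (1 : F) ≠ z0 F := pt_ne_z0 1
    have c2 : pt (1 : F) ≠ w0 F := by
      rw [← pt_zero]
      exact fun h => one_ne_zero (pt_inj h)
    have c3 := z0_ne_w0 (F := F)
    rcases b0 with b0 | b0 <;> rcases b1 with b1 | b1 <;> rcases b2 with b2 | b2
    · exact c3 (b0.trans b1.symm)
    · exact c3 (b0.trans b1.symm)
    · exact c1 (b2.trans b0.symm)
    · exact c2 (b2.trans b1.symm)
    · exact c2 (b2.trans b1.symm)
    · exact c1 (b2.trans b0.symm)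
    · exact c3 (b0.trans b1.symm)
    · exact c3 (b0.trans b1.symm)
  obtain ⟨z, hz1, hz2⟩ := h3
  obtain ⟨g, hg1, hg2⟩ := twoTrans x (s • x) x z (Ne.symm hne) hz1.symm
  have h4 : g ∈ stabilizer PSL(2, F) (s • x) := by rw [h1]; exact hg1
  exact hz2 (hg2.symm.trans h4)

theorem num_ineq {r a p : ℕ} (hr : 3 ≤ r) (ha : 1 ≤ a) (hp : 13 ≤ p) (k X Y : ℕ) (_ : 0 < k)
    (h1 : (r - 1) * (a * k) < (r - 1) * (a * X) + k)
    (h2 : (p - 1) * (1 * k) < (p - 1) * (1 * Y) + k) : k < X + Y := by
  by_contra h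
  push Not at h
  obtain ⟨A, hA⟩ : ∃ A, A = (r - 1) * a := ⟨_, rfl⟩
  have hA2 : 2 ≤ A := by
    rw [hA]
    calc 2 = 2 * 1 := by norm_num
      _ ≤ (r - 1) * a := Nat.mul_le_mul (by omega) ha
  rw [← mul_assoc, ← mul_assoc, ← hA] at h1
  rw [one_mul, one_mul] at h2
  obtain ⟨d, hd⟩ : ∃ d, k = X + Y + d := ⟨k - (X + Y), by omega⟩
  have h3 : A * Y + A * d < k := by
    have : A * k = A * X + (A * Y + A * d) := by rw [hd]; ring
    omega
  have h4 : 2 * Y + 2 * d < k := by
    have : 2 * (Y + d) ≤ A * (Y + d) := Nat.mul_le_mul_right _ hA2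
    have e : A * (Y + d) = A * Y + A * d := by ring
    omega
  obtain ⟨P, hP⟩ : ∃ P, p - 1 = 12 + P := ⟨p - 13, by omega⟩
  rw [hP] at h2
  have h5 : (12 + P) * X + (12 + P) * d < k := by
    have : (12 + P) * k = (12 + P) * Y + ((12 + P) * X + (12 + P) * d) := by rw [hd]; ring
    omega
  have h6 : 12 * X + 12 * d ≤ (12 + P) * X + (12 + P) * d := by
    have e1 : 12 * X ≤ (12 + P) * X := Nat.mul_le_mul_right _ (by omega)
    have e2 : 12 * d ≤ (12 + P) * d := Nat.mul_le_mul_right _ (by omega)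
    omega
  omega

theorem no_psl_prime [Finite F] (hp : (Nat.card F).Prime) (h4 : Nat.card F % 4 = 1)
    (h13 : 13 ≤ Nat.card F) (G : Type) [Group G] [Finite G] (hG : MaxCompl G) :
    ¬ IsFactor PSL(2, F) G := by
  classical
  have := Fintype.ofFinite F
  have : IsSimpleGroup PSL(2, F) := Matrix.ProjectiveSpecialLinearGroup.rank_two_simple (by omega)
  obtain ⟨p, hpdef⟩ : ∃ p, p = Nat.card F := ⟨_, rfl⟩
  have hsq : IsSquare (-1 : F) := by
    rw [FiniteField.isSquare_neg_one_iff, ← Nat.card_eq_fintype_card]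
    omega
  have hchar : ringChar F ≠ 2 := by
    intro h
    have h5 : ringChar F ∣ Nat.card F := by
      obtain ⟨n, -, hcard⟩ := FiniteField.card F (ringChar F)
      rw [Nat.card_eq_fintype_card, hcard]
      exact dvd_pow_self _ n.ne_zero
    rw [h] at h5
    omega
  have h2 : (2 : F) ≠ 0 := Ring.two_ne_zero hchar
  -- a nonsquare
  obtain ⟨n0, hn0⟩ := FiniteField.exists_nonsquare hchar
  have hn00 : n0 ≠ 0 := by
    rintro rfl
    exact hn0 ⟨0, by rw [mul_zero]⟩
  have hn : ∀ y : F, y ≠ 0 → ∃ v : Fˣ, y = (v : F) ^ 2 ∨ y = (v : F) ^ 2 * n0 := by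
    intro y hy
    by_cases h : IsSquare y
    · obtain ⟨v, hv⟩ := h
      have hv0 : v ≠ 0 := by
        rintro rfl
        exact hy (by rw [hv, mul_zero])
      exact ⟨Units.mk0 v hv0, Or.inl (by rw [hv, Units.val_mk0]; ring)⟩
    · have e1 : quadraticChar F y = -1 := quadraticChar_neg_one_iff_not_isSquare.2 h
      have e2 : quadraticChar F n0 = -1 := quadraticChar_neg_one_iff_not_isSquare.2 hn0
      have e3 : quadraticChar F (y * n0) = 1 := by
        rw [map_mul, e1, e2]
        norm_num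
      obtain ⟨v, hv⟩ := (quadraticChar_one_iff_isSquare (mul_ne_zero hy hn00)).1 e3
      have hv0 : v ≠ 0 := by
        rintro rfl
        rw [mul_zero] at hv
        exact mul_ne_zero hy hn00 hv
      refine ⟨Units.mk0 (v / n0) (div_ne_zero hv0 hn00), Or.inr ?_⟩
      rw [Units.val_mk0]
      field_simp
      linear_combination hv
  -- the odd prime
  obtain ⟨m, hm⟩ : ∃ m, Nat.card F + 1 = 2 * m := ⟨(Nat.card F + 1) / 2, by omega⟩
  have hmodd : ¬ 2 ∣ m := by omega
  have hm1 : m ≠ 1 := by omega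
  obtain ⟨r, hr⟩ : ∃ r, r = m.minFac := ⟨_, rfl⟩
  have hrp : r.Prime := by rw [hr]; exact Nat.minFac_prime hm1
  have hrm : r ∣ m := by rw [hr]; exact Nat.minFac_dvd m
  have hr2 : r ≠ 2 := by
    rintro h
    rw [h] at hrm
    exact hmodd hrm
  have hr3 : 3 ≤ r := by
    have := hrp.two_le
    omega
  have hrF : ¬ r ∣ Nat.card F * (Nat.card F - 1) := by
    intro h
    have hr1 : r ∣ Nat.card F + 1 := by rw [hm]; exact hrm.mul_left 2
    rcases (Nat.Prime.dvd_mul hrp).1 h with h | h
    · have h5 := (Nat.dvd_add_right h).1 hr1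
      exact hrp.one_lt.ne' (Nat.dvd_one.1 h5)
    · have h5 : r ∣ 2 := by
        have h6 : Nat.card F + 1 = (Nat.card F - 1) + 2 := by omega
        rw [h6] at hr1
        exact (Nat.dvd_add_right h).1 hr1
      exact hr2 ((Nat.prime_dvd_prime_iff_eq hrp Nat.prime_two).1 h5)
  have : Fact r.Prime := ⟨hrp⟩
  have : Fact (Nat.card F).Prime := ⟨hp⟩
  have hm0 : m ≠ 0 := by omega
  obtain ⟨a, ha⟩ : ∃ a, a = padicValNat r m := ⟨_, rfl⟩
  have ha1 : 1 ≤ a := by
    rw [ha]
    exact one_le_padicValNat_of_dvd hm0 hrm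
  have hodd := odd_inner hp n0 hn00 hn
  -- prime powers dividing the order of the automorphism group
  have hpow : ∀ s b : ℕ, s.Prime → s ≠ 2 → s ^ b ∣ Nat.card (MulAut PSL(2, F)) →
      s ^ b ∣ (Nat.card F + 1) * (Nat.card F * (Nat.card F - 1)) := by
    intro s b hs hs2 hb
    have : Fact s.Prime := ⟨hs⟩
    obtain ⟨D, hD⟩ := Sylow.exists_subgroup_card_pow_prime s hb
    have h5 : ¬ 2 ∣ Nat.card D := by
      rw [hD]
      intro h
      have := Nat.prime_two.dvd_of_dvd_pow h
      exact hs2 ((Nat.prime_dvd_prime_iff_eq Nat.prime_two hs).1 this).symm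
    have h6 := hodd D h5
    rw [← hD]
    refine (Subgroup.card_dvd_of_le h6).trans ?_
    exact (Subgroup.card_range_dvd _).trans card_T
  refine of_no_soc (fun G _ _ N 𝒯 hS hG => ?_) _ G rfl hG
  have hx := pst_index (F := F)
  rw [hm] at hx
  have hidx0 : (pst PSL(2, F) (z0 F) (w0 F)).index = m * Nat.card F := by
    have : 2 * (pst PSL(2, F) (z0 F) (w0 F)).index = 2 * (m * Nat.card F) := by rw [hx]; ring
    omega
  refine no_soc5 hS (A := pst PSL(2, F) (z0 F) (w0 F)) (r := r) (q := Nat.card F) (a := a) (b := 1)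
    ?_ ?_ ?_ hrp hp ?_ ?_ ?_ ?_ (num_ineq hr3 ha1 h13) hG
  · intro h
    have h5 : ((ww F : SL(2, F)) : PSL(2, F)) ∈ pst PSL(2, F) (z0 F) (w0 F) := ww_mem
    rw [h, Subgroup.mem_bot] at h5
    have h6 : ((ww F : SL(2, F)) : PSL(2, F)) • z0 F = w0 F := ww_z0
    rw [h5, one_smul] at h6
    exact z0_ne_w0 h6
  · intro h
    rw [h, Subgroup.index_top] at hidx0
    have h5 : 13 ≤ m * Nat.card F := by
      calc 13 ≤ 1 * Nat.card F := by omega
        _ ≤ m * Nat.card F := Nat.mul_le_mul_right _ (by omega)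
    omega
  · intro α
    choose σ hσ using stabInv (F := F) α
    obtain ⟨e4, e5⟩ := aut_perm twoTrans third α σ hσ
    obtain ⟨s, hs1, hs2⟩ := twoTrans (z0 F) (w0 F) (σ (z0 F)) (σ (w0 F)) z0_ne_w0
      (fun h => z0_ne_w0 (e5 h))
    exact ⟨s, by rw [pst_map twoTrans third α σ hσ, ← hs1, ← hs2, pst_smul]⟩
  · intro h
    have h5 := hpow r (a + 1) hrp hr2 h
    have h6 : Nat.Coprime (r ^ (a + 1)) (Nat.card F * (Nat.card F - 1)) :=
      Nat.Coprime.pow_left _ ((Nat.Prime.coprime_iff_not_dvd hrp).2 hrF)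
    have h7 := h6.dvd_of_dvd_mul_right h5
    rw [hm] at h7
    have h8 : Nat.Coprime (r ^ (a + 1)) 2 :=
      Nat.Coprime.pow_left _ ((Nat.coprime_primes hrp Nat.prime_two).2 hr2)
    have h9 := h8.dvd_of_dvd_mul_left h7
    have h10 := (padicValNat_dvd_iff_le (p := r) hm0).1 h9
    omega
  · intro h
    have hF2 : Nat.card F ≠ 2 := by omega
    have h5 := hpow (Nat.card F) (1 + 1) hp hF2 h
    have h6 : Nat.card F * Nat.card F ∣ Nat.card F * ((Nat.card F + 1) * (Nat.card F - 1)) := by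
      have e1 : Nat.card F ^ (1 + 1) = Nat.card F * Nat.card F := by ring
      have e2 : (Nat.card F + 1) * (Nat.card F * (Nat.card F - 1)) =
        Nat.card F * ((Nat.card F + 1) * (Nat.card F - 1)) := by ring
      rw [e1, e2] at h5
      exact h5
    have h7 := Nat.dvd_of_mul_dvd_mul_left hp.pos h6
    rcases (Nat.Prime.dvd_mul hp).1 h7 with h | h
    · have h8 := (Nat.dvd_add_right (dvd_refl _)).1 h
      exact hp.one_lt.ne' (Nat.dvd_one.1 h8)
    · have h8 := Nat.le_of_dvd (by omega) h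
      omega
  · intro H hH hH1
    have h5 := psl_over1 hsq h2 (by omega) H hH hH1
    rw [h5, hidx0]
    refine ⟨?_, ?_, ?_⟩
    · intro h
      rcases (Nat.Prime.dvd_mul Nat.prime_two).1 h with h | h
      · exact hmodd h
      · omega
    · refine Dvd.dvd.mul_right ?_ _
      rw [ha]
      exact pow_padicValNat_dvd
    · rw [pow_one]
      exact dvd_mul_left _ _
  · intro D hDr hDp
    by_contra hD2
    have h5 := hodd D hD2
    have h6 : (D.comap (MulAut.conj (G := PSL(2, F)))).map (MulAut.conj (G := PSL(2, F))) = D := by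
      rw [Subgroup.map_comap_eq, inf_eq_right.2 h5]
    have h7 : Nat.card (D.comap (MulAut.conj (G := PSL(2, F)))) = Nat.card D := by
      conv_rhs => rw [← h6]
      exact Nat.card_congr (Subgroup.equivMapOfInjective _ _ conj_inj).toEquiv
    rw [← h7] at hDr hDp hD2
    exact hD2 (even_of_dvd hp (by omega) hrp hrF _ hDr hDp)

end Pool.Agent.V8H87.CM
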