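import Pool.Agent.V8H87.CM.Two

/-!
The groups `PSL(2, F)` and the projective line.
-/

set_option autoImplicit false

namespace Pool.Agent.V8H87.CM

open MulAction Matrix Projectivization
open scoped MatrixGroups LinearAlgebra.Projectivization

variable {F : Type} [Field F]

theorem v10_ne : (![1, 0] : Fin 2 → F) ≠ 0 := by
  intro h
  have := congrFun h 0
  simp at this

theorem v01_ne : (![0, 1] : Fin 2 → F) ≠ 0 := by
  intro h
  have := congrFun h 1
  simp at this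

/-- the point `[1 : 0]` -/
noncomputable def z0 (F : Type) [Field F] : ℙ F (Fin 2 → F) := Projectivization.mk F ![1, 0] v10_ne

/-- the point `[0 : 1]` -/
noncomputable def w0 (F : Type) [Field F] : ℙ F (Fin 2 → F) := Projectivization.mk F ![0, 1] v01_ne

theorem sl_smul_mk (g : SL(2, F)) (v : Fin 2 → F) (hv : v ≠ 0) :
    ∃ h : g.1 *ᵥ v ≠ 0, g • (Projectivization.mk F v hv) = Projectivization.mk F (g.1 *ᵥ v) h := by
  refine ⟨?_, ?_⟩
  · intro h
    apply hv
    have h1 : (g⁻¹).1 *ᵥ (g.1 *ᵥ v) = v := by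
      rw [Matrix.mulVec_mulVec]
      have h2 : (g⁻¹).1 * g.1 = 1 := congrArg Subtype.val (inv_mul_cancel g)
      rw [h2, Matrix.one_mulVec]
    rw [← h1, h, Matrix.mulVec_zero]
  · rw [Projectivization.smul_mk]
    rfl

theorem eq_mk_iff (p : ℙ F (Fin 2 → F)) : ∃ (v : Fin 2 → F) (hv : v ≠ 0), p = Projectivization.mk F v hv :=
  ⟨p.rep, p.rep_nonzero, (Projectivization.mk_rep p).symm⟩

theorem smul_z0 (g : SL(2, F)) : g • z0 F = z0 F ↔ g.1 1 0 = 0 := by
  obtain ⟨h, h1⟩ := sl_smul_mk g ![1, 0] v10_ne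
  unfold z0
  rw [h1, Projectivization.mk_eq_mk_iff']
  constructor
  · rintro ⟨a, ha⟩
    have := congrFun ha 1
    simp [Matrix.mulVec, dotProduct, Fin.sum_univ_two] at this
    exact this.symm
  · intro h2
    refine ⟨g.1 0 0, ?_⟩
    ext i
    fin_cases i
    · simp [Matrix.mulVec, dotProduct, Fin.sum_univ_two]
    · simp [Matrix.mulVec, dotProduct, Fin.sum_univ_two, h2]

theorem smul_w0 (g : SL(2, F)) : g • w0 F = w0 F ↔ g.1 0 1 = 0 := by
  obtain ⟨h, h1⟩ := sl_smul_mk g ![0, 1] v01_ne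
  unfold w0
  rw [h1, Projectivization.mk_eq_mk_iff']
  constructor
  · rintro ⟨a, ha⟩
    have := congrFun ha 0
    simp [Matrix.mulVec, dotProduct, Fin.sum_univ_two] at this
    exact this.symm
  · intro h2
    refine ⟨g.1 1 1, ?_⟩
    ext i
    fin_cases i
    · simp [Matrix.mulVec, dotProduct, Fin.sum_univ_two, h2]
    · simp [Matrix.mulVec, dotProduct, Fin.sum_univ_two]

theorem z0_ne_w0 : z0 F ≠ w0 F := by
  unfold z0 w0
  intro h
  rw [Projectivization.mk_eq_mk_iff'] at h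
  obtain ⟨a, ha⟩ := h
  have := congrFun ha 0
  simp at this

/-- unipotent elements -/
def uu (b : F) : SL(2, F) := ⟨!![1, b; 0, 1], by simp [Matrix.det_fin_two]⟩

/-- diagonal elements -/
def dd (a : Fˣ) : SL(2, F) :=
  ⟨!![(a : F), 0; 0, ((a⁻¹ : Fˣ) : F)], by simp [Matrix.det_fin_two]⟩

theorem uu_mul (a b : F) : uu (a + b) = uu a * uu b := by
  apply Subtype.ext
  show !![1, a + b; 0, 1] = !![1, a; 0, 1] * !![1, b; 0, 1]
  rw [Matrix.mul_fin_two]
  simp [add_comm]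

theorem uu_zero : uu (0 : F) = 1 := by
  apply Subtype.ext
  show !![1, 0; 0, 1] = (1 : Matrix (Fin 2) (Fin 2) F)
  exact Matrix.one_fin_two.symm

theorem dd_mul (a b : Fˣ) : dd (a * b) = dd a * dd b := by
  apply Subtype.ext
  show !![((a * b : Fˣ) : F), 0; 0, (((a * b)⁻¹ : Fˣ) : F)] =
    !![(a : F), 0; 0, ((a⁻¹ : Fˣ) : F)] * !![(b : F), 0; 0, ((b⁻¹ : Fˣ) : F)]
  rw [Matrix.mul_fin_two]
  simp [mul_comm]

theorem dd_one : dd (1 : Fˣ) = 1 := by
  apply Subtype.ext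
  show !![((1 : Fˣ) : F), 0; 0, (((1 : Fˣ)⁻¹ : Fˣ) : F)] = (1 : Matrix (Fin 2) (Fin 2) F)
  rw [Matrix.one_fin_two]
  simp

/-- The unipotent elements as a homomorphism. -/
def UU (F : Type) [Field F] : Multiplicative F →* PSL(2, F) :=
  (QuotientGroup.mk' (Subgroup.center SL(2, F))).comp
    { toFun := fun b => uu (Multiplicative.toAdd b)
      map_one' := uu_zero
      map_mul' := fun _ _ => uu_mul _ _ }

/-- The diagonal elements as a homomorphism. -/
def DD (F : Type) [Field F] : Fˣ →* PSL(2, F) :=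
  (QuotientGroup.mk' (Subgroup.center SL(2, F))).comp
    { toFun := fun b => dd b
      map_one' := dd_one
      map_mul' := dd_mul }

theorem psl_smul (g : SL(2, F)) (p : ℙ F (Fin 2 → F)) : ((g : PSL(2, F)) : PSL(2, F)) • p = g • p := rfl

theorem twoTrans : TwoTrans PSL(2, F) (ℙ F (Fin 2 → F)) := by
  intro x y u v hxy huv
  obtain ⟨g, hg1, hg2⟩ := MulAction.is_two_pretransitive_iff.1
    (inferInstance : IsMultiplyPretransitive SL(2, F) (ℙ F (Fin 2 → F)) 2) hxy huv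
  exact ⟨(g : PSL(2, F)), hg1, hg2⟩

theorem UU_trans (p : ℙ F (Fin 2 → F)) (hp : p ≠ z0 F) : ∃ v ∈ (UU F).range, v • w0 F = p := by
  obtain ⟨v, hv, rfl⟩ := eq_mk_iff p
  have h1 : v 1 ≠ 0 := by
    intro h1
    apply hp
    unfold z0
    rw [Projectivization.mk_eq_mk_iff']
    refine ⟨v 0, ?_⟩
    ext i
    fin_cases i
    · simp
    · simp [h1]
  refine ⟨UU F (Multiplicative.ofAdd (v 0 / v 1)), ⟨_, rfl⟩, ?_⟩
  show (uu (v 0 / v 1)) • w0 F = _
  obtain ⟨h, h2⟩ := sl_smul_mk (uu (v 0 / v 1)) ![0, 1] v01_ne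
  unfold w0
  rw [h2, Projectivization.mk_eq_mk_iff']
  refine ⟨(v 1)⁻¹, ?_⟩
  ext i
  fin_cases i
  · simp [uu, Matrix.mulVec, dotProduct, Fin.sum_univ_two]
    field_simp
  · simp [uu, Matrix.mulVec, dotProduct, Fin.sum_univ_two]
    field_simp

theorem UU_z0 (v : PSL(2, F)) (hv : v ∈ (UU F).range) : v • z0 F = z0 F := by
  obtain ⟨b, rfl⟩ := hv
  show (uu (Multiplicative.toAdd b)) • z0 F = z0 F
  rw [smul_z0]
  simp [uu]

theorem UU_norm_le (g : PSL(2, F)) (hg : g • z0 F = z0 F) : cj g (UU F).range ≤ (UU F).range := by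
  obtain ⟨g, rfl⟩ := QuotientGroup.mk_surjective g
  have hg' : g.1 1 0 = 0 := (smul_z0 g).1 hg
  rintro _ ⟨_, ⟨b, rfl⟩, rfl⟩
  refine ⟨Multiplicative.ofAdd (g.1 0 0 ^ 2 * Multiplicative.toAdd b), ?_⟩
  show ((uu (g.1 0 0 ^ 2 * Multiplicative.toAdd b) : SL(2, F)) : PSL(2, F)) =
    (g : PSL(2, F)) * ((uu (Multiplicative.toAdd b) : SL(2, F)) : PSL(2, F)) * (g : PSL(2, F))⁻¹
  rw [eq_mul_inv_iff_mul_eq, ← QuotientGroup.mk_mul, ← QuotientGroup.mk_mul]
  congr 1
  have hdet : g.1 0 0 * g.1 1 1 = 1 := by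
    have := g.2
    rw [Matrix.det_fin_two, hg', mul_zero, sub_zero] at this
    exact this
  apply Subtype.ext
  show !![1, g.1 0 0 ^ 2 * Multiplicative.toAdd b; 0, 1] * g.1 =
    g.1 * !![1, Multiplicative.toAdd b; 0, 1]
  ext i j
  fin_cases i <;> fin_cases j
  · simp [Matrix.mul_apply, Fin.sum_univ_two, hg']
  · simp [Matrix.mul_apply, Fin.sum_univ_two]
    linear_combination (g.1 0 0 * Multiplicative.toAdd b) * hdet
  · simp [Matrix.mul_apply, Fin.sum_univ_two, hg']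
  · simp [Matrix.mul_apply, Fin.sum_univ_two, hg']

theorem UU_norm (g : PSL(2, F)) (hg : g • z0 F = z0 F) : cj g (UU F).range = (UU F).range := by
  refine le_antisymm (UU_norm_le g hg) ?_
  have h1 : g⁻¹ • z0 F = z0 F := by rw [inv_smul_eq_iff, hg]
  have h2 := cj_mono g (UU_norm_le g⁻¹ h1)
  rwa [cj_cj_inv] at h2

theorem UU_fix (u : ℙ F (Fin 2 → F)) (hu : ∀ v ∈ (UU F).range, v • u = u) : u = z0 F := by
  by_contra h
  obtain ⟨v, hv, hvu⟩ := UU_trans u h
  have h1 : w0 F = u := by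
    have h2 := hu v⁻¹ (Subgroup.inv_mem _ hv)
    rw [inv_smul_eq_iff, ← hvu] at h2
    have h3 : v • w0 F = v • (v • w0 F) := h2
    have h4 := smul_left_cancel v h3
    rw [← hvu]
    exact h4
  obtain ⟨b, rfl⟩ := hv
  have h2 : (UU F (Multiplicative.ofAdd 1)) • w0 F = w0 F := by
    rw [h1]
    exact hu _ ⟨_, rfl⟩
  have h3 : (uu (1 : F)) • w0 F = w0 F := h2
  rw [smul_w0] at h3
  simp [uu] at h3

theorem stab_le_DD : (stabilizer PSL(2, F) (z0 F) ⊓ stabilizer PSL(2, F) (w0 F)) ≤ (DD F).range := by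
  rintro g ⟨h1, h2⟩
  obtain ⟨g, rfl⟩ := QuotientGroup.mk_surjective g
  have h3 : g.1 1 0 = 0 := (smul_z0 g).1 h1
  have h4 : g.1 0 1 = 0 := (smul_w0 g).1 h2
  have hdet : g.1 0 0 * g.1 1 1 = 1 := by
    have := g.2
    rw [Matrix.det_fin_two, h3, mul_zero, sub_zero] at this
    exact this
  refine ⟨⟨g.1 0 0, g.1 1 1, hdet, by rw [mul_comm]; exact hdet⟩, ?_⟩
  show ((dd _ : SL(2, F)) : PSL(2, F)) = (g : PSL(2, F))
  congr 1
  ext i j
  fin_cases i <;> fin_cases j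
  · simp [dd]
  · simp [dd, h4]
  · simp [dd, h3]
  · simp [dd]

theorem stabInv [Finite F] : StabInv PSL(2, F) (ℙ F (Fin 2 → F)) := by
  classical
  have := Fintype.ofFinite F
  obtain ⟨p, hchar⟩ := CharP.exists F
  have hp : Fact p.Prime := ⟨CharP.char_is_prime F p⟩
  obtain ⟨n, -, hcard⟩ := FiniteField.card F p
  have hcard' : Nat.card F = p ^ (n : ℕ) := by rw [Nat.card_eq_fintype_card, hcard]
  have hq : p ∣ Nat.card F := by
    rw [hcard']
    exact dvd_pow_self p n.ne_zero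
  have hV : IsPGroup p (UU F).range := by
    have h1 : IsPGroup p (Multiplicative F) := by
      refine IsPGroup.of_card (n := n) ?_
      exact hcard'
    exact h1.of_surjective (UU F).rangeRestrict (UU F).rangeRestrict_surjective
  refine stabInv_of twoTrans z0_ne_w0 (UU F).range hV UU_z0 UU_norm UU_trans UU_fix ?_ ?_
  · intro h
    have h1 := h.trans (Subgroup.card_dvd_of_le stab_le_DD)
    have h2 : Nat.card (DD F).range ∣ Nat.card Fˣ := Subgroup.card_range_dvd (DD F)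
    have h3 := h1.trans h2
    have h4 : Nat.card F = Nat.card Fˣ + 1 := Nat.card_eq_card_units_add_one F
    rw [h4] at hq
    have h5 := (Nat.dvd_add_right h3).1 hq
    exact hp.out.one_lt.ne' (Nat.dvd_one.1 h5)
  · rw [Projectivization.card_of_finrank_two F (Fin 2 → F) (by simp)]
    intro h
    have h5 := (Nat.dvd_add_right hq).1 h
    exact hp.out.one_lt.ne' (Nat.dvd_one.1 h5)

theorem fix_pair {a : Fˣ} (ha : (a : F) ^ 2 ≠ 1) (x y z : ℙ F (Fin 2 → F)) (hxy : x ≠ y) :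
    ∃ g ∈ pst PSL(2, F) x y, g • z ≠ z := by
  by_cases hzx : z = x
  · obtain ⟨g, hg1, hg2⟩ := twoTrans x y y x hxy hxy.symm
    exact ⟨g, Or.inr ⟨hg1, hg2⟩, by rw [hzx, hg1]; exact hxy.symm⟩
  by_cases hzy : z = y
  · obtain ⟨g, hg1, hg2⟩ := twoTrans x y y x hxy hxy.symm
    exact ⟨g, Or.inr ⟨hg1, hg2⟩, by rw [hzy, hg2]; exact hxy⟩
  obtain ⟨h, hh1, hh2⟩ := twoTrans x y (z0 F) (w0 F) hxy z0_ne_w0
  obtain ⟨v, hv, hhz⟩ := eq_mk_iff (h • z)
  have hv0 : v 0 ≠ 0 := by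
    intro h0
    apply hzy
    apply smul_left_cancel h
    rw [hhz, hh2]
    unfold w0
    rw [Projectivization.mk_eq_mk_iff']
    refine ⟨v 1, ?_⟩
    ext i
    fin_cases i
    · simp [h0]
    · simp
  have hv1 : v 1 ≠ 0 := by
    intro h0
    apply hzx
    apply smul_left_cancel h
    rw [hhz, hh1]
    unfold z0
    rw [Projectivization.mk_eq_mk_iff']
    refine ⟨v 0, ?_⟩
    ext i
    fin_cases i
    · simp
    · simp [h0]
  have hd1 : (DD F a) • z0 F = z0 F := by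
    show dd a • z0 F = z0 F
    rw [smul_z0]
    simp [dd]
  have hd2 : (DD F a) • w0 F = w0 F := by
    show dd a • w0 F = w0 F
    rw [smul_w0]
    simp [dd]
  refine ⟨h⁻¹ * DD F a * h, Or.inl ⟨?_, ?_⟩, ?_⟩
  · rw [mul_smul, mul_smul, inv_smul_eq_iff, hh1, hd1]
  · rw [mul_smul, mul_smul, inv_smul_eq_iff, hh2, hd2]
  · intro h4
    rw [mul_smul, mul_smul, inv_smul_eq_iff, hhz] at h4
    have h5 : dd a • Projectivization.mk F v hv = Projectivization.mk F v hv := h4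
    obtain ⟨h6, h7⟩ := sl_smul_mk (dd a) v hv
    rw [h7, Projectivization.mk_eq_mk_iff'] at h5
    obtain ⟨c, hc⟩ := h5
    have e0 := congrFun hc 0
    have e1 := congrFun hc 1
    simp [dd, Matrix.mulVec, dotProduct, Fin.sum_univ_two] at e0 e1
    apply ha
    have hc0 : c = a := by
      rcases e0 with h | h
      · exact h
      · exact absurd h hv0
    have hc1 : c = (a : F)⁻¹ := by
      rcases e1 with h | h
      · exact h
      · exact absurd h hv1
    have h8 : (a : F) = (a : F)⁻¹ := by rw [← hc0, hc1, inv_inv]; rw [← hc1, hc0]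
    rw [pow_two]
    nth_rewrite 2 [h8]
    exact mul_inv_cancel₀ a.ne_zero

end Pool.Agent.V8H87.CM
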