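import Pool.Agent.V8H87.CM.Final2
import Pool.Agent.V8H87.CM.CritE

/-!
The groups `PSL(2, q)` with `q` congruent to one modulo four: the stabiliser of a pair is maximal.
-/

set_option autoImplicit false

namespace Pool.Agent.V8H87.CM

open MulAction Matrix Projectivization
open scoped MatrixGroups LinearAlgebra.Projectivization

variable {F : Type} [Field F]

open Polynomial in
theorem poly_bound8 [Finite F] {a d : F} (hd : d ≠ 0)
    (h : ∀ t : F, t ≠ 0 → (a * t ^ 2 + d) * (a * t ^ 2 - d) * ((a * t ^ 2) ^ 2 + d ^ 2) = 0) :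
    Nat.card F ≤ 9 := by
  classical
  have := Fintype.ofFinite F
  let P : F[X] := (C a * X ^ 2 + C d) * (C a * X ^ 2 - C d) * ((C a * X ^ 2) ^ 2 + C (d ^ 2))
  have h0 : P ≠ 0 := by
    intro h0
    have h1 : P.eval 0 = 0 := by rw [h0, eval_zero]
    simp [P, hd] at h1
  have hdeg : P.natDegree ≤ 8 := by
    have e1 : (C a * X ^ 2 + C d : F[X]).natDegree ≤ 2 := by compute_degree
    have e2 : (C a * X ^ 2 - C d : F[X]).natDegree ≤ 2 := by compute_degree
    have e3 : ((C a * X ^ 2) ^ 2 + C (d ^ 2) : F[X]).natDegree ≤ 4 := by compute_degree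
    have m1 := Polynomial.natDegree_mul_le_of_le e1 e2
    exact Polynomial.natDegree_mul_le_of_le m1 e3
  have h2 : (Finset.univ.erase (0 : F)) ⊆ P.roots.toFinset := by
    intro t ht
    rw [Multiset.mem_toFinset, mem_roots h0]
    have h3 := h t (Finset.ne_of_mem_erase ht)
    show P.eval t = 0
    simp only [P, eval_mul, eval_add, eval_sub, eval_C, eval_pow, eval_X]
    exact h3
  have h3 := Finset.card_le_card h2
  rw [Finset.card_erase_of_mem (Finset.mem_univ _), Finset.card_univ] at h3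
  have h4 : P.roots.toFinset.card ≤ 8 :=
    (Multiset.toFinset_card_le _).trans ((card_roots' P).trans hdeg)
  rw [Nat.card_eq_fintype_card]
  omega

theorem small_of_fix1 [Finite F] (h1 : IsSquare (-1 : F)) (h2 : (2 : F) ≠ 0) (C : Subgroup PSL(2, F))
    (hC : pst PSL(2, F) (z0 F) (w0 F) ≤ C) {h : PSL(2, F)} (hh : h ∈ C) (hh0 : h • z0 F ≠ z0 F)
    (hh1 : h • z0 F ≠ w0 F)
    (hfix : ∀ g ∈ C, g • z0 F = z0 F → g • w0 F = w0 F) : Nat.card F ≤ 9 := by
  have hfix' : ∀ g ∈ C, ∀ k ∈ C, g • z0 F = k • z0 F → g • w0 F = k • w0 F := by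
    intro g hg k hk hgk
    have h2 := hfix (k⁻¹ * g) (C.mul_mem (C.inv_mem hk) hg) (by
      rw [mul_smul, hgk, inv_smul_smul])
    rw [mul_smul, inv_smul_eq_iff] at h2
    exact h2
  have hw : ((ww F : SL(2, F)) : PSL(2, F)) ∈ C := hC ww_mem
  obtain ⟨i, hi⟩ := h1
  have hi0 : i ≠ 0 := by
    rintro rfl
    rw [mul_zero] at hi
    exact neg_ne_zero.2 one_ne_zero hi
  -- the ratio is `-1`
  have key : ∀ g ∈ C, ∀ x : F, x ≠ 0 → g • z0 F = pt x → g • w0 F = pt (-x) := by
    intro g hg x hx hgx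
    rcases eq_pt (g • w0 F) with h3 | ⟨e, he⟩
    · exfalso
      have h4 := hfix _ (C.mul_mem hg hw) (by
        rw [mul_smul]
        show g • ww F • z0 F = z0 F
        rw [ww_z0, h3])
      rw [mul_smul] at h4
      have h5 : g • ww F • w0 F = w0 F := h4
      rw [ww_w0, hgx, ← pt_zero] at h5
      exact hx (pt_inj h5)
    have he0 : e ≠ 0 := by
      rintro rfl
      rw [pt_zero] at he
      have h4 := hfix' _ (C.mul_mem hg hw) _ hw (by
        rw [mul_smul]
        show g • ww F • z0 F = ww F • z0 F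
        rw [ww_z0, he])
      rw [mul_smul] at h4
      have h5 : g • ww F • w0 F = ww F • w0 F := h4
      rw [ww_w0, hgx] at h5
      exact pt_ne_z0 _ h5
    have hix : i / x ≠ 0 := div_ne_zero hi0 hx
    have hτ : ((dd (Units.mk0 _ hix) : SL(2, F)) : PSL(2, F)) ∈ C := hC (dd_mem _)
    have h4 := hfix' _ (C.mul_mem hw hg) _ (C.mul_mem hτ hg) (by
      simp only [mul_smul]
      show ww F • g • z0 F = dd (Units.mk0 _ hix) • g • z0 F
      rw [hgx, ww_pt _ hx, dd_pt, Units.val_mk0]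
      congr 1
      field_simp
      linear_combination hi)
    simp only [mul_smul] at h4
    have h5 : ww F • g • w0 F = dd (Units.mk0 _ hix) • g • w0 F := h4
    rw [he, ww_pt _ he0, dd_pt, Units.val_mk0] at h5
    have h6 := pt_inj h5
    have h7 : (x - e) * (x + e) = 0 := by
      field_simp at h6
      linear_combination -h6 + e ^ 2 * hi
    have hne : x ≠ e := by
      rintro rfl
      exact z0_ne_w0 (smul_left_cancel g (hgx.trans he.symm))
    rcases mul_eq_zero.1 h7 with h8 | h8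
    · exact absurd (sub_eq_zero.1 h8) hne
    · rw [he]
      congr 1
      linear_combination h8
  obtain ⟨H, rfl⟩ := QuotientGroup.mk_surjective h
  rcases eq_pt ((H : PSL(2, F)) • z0 F) with h3 | ⟨x, hx⟩
  · exact absurd h3 hh0
  have hx0 : x ≠ 0 := by
    rintro rfl
    exact hh1 hx
  have hHz : H • z0 F = pt x := hx
  have hHw : H • w0 F = pt (-x) := key _ hh x hx0 hx
  have a0 : H.1 1 0 ≠ 0 := by
    intro h0
    have h2 := (smul_z0 H).2 h0
    rw [hHz] at h2
    exact pt_ne_z0 _ h2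
  have a1 : H.1 0 0 = x * H.1 1 0 := by
    have h2 := sl_z0 H a0
    rw [hHz] at h2
    have h3 := pt_inj h2
    field_simp at h3
    exact h3.symm
  have hd : H.1 1 1 ≠ 0 := by
    intro h0
    have h2 : H • w0 F = z0 F := by
      rw [← pt_zero]
      exact sl_pt_inf H 0 (by rw [h0]; ring)
    rw [hHw] at h2
    exact pt_ne_z0 _ h2
  have b1 : H.1 0 1 = -x * H.1 1 1 := by
    have h2 := sl_pt H 0 (by rw [mul_zero, zero_add]; exact hd)
    rw [pt_zero, hHw] at h2
    have h3 := pt_inj h2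
    rw [mul_zero, zero_add, mul_zero, zero_add] at h3
    rw [h3]
    field_simp
  refine poly_bound8 (a := H.1 1 0 * x) (d := H.1 1 1) hd ?_
  intro t ht
  obtain ⟨y, hy⟩ : ∃ y : F, y = H.1 1 0 * x * t ^ 2 := ⟨_, rfl⟩
  rw [← hy]
  by_cases hyd : y + H.1 1 1 = 0
  · rw [hyd]
    ring
  by_cases hyb : y - H.1 1 1 = 0
  · rw [hyb]
    ring
  have hτ : ((dd (Units.mk0 t ht) : SL(2, F)) : PSL(2, F)) ∈ C := hC (dd_mem _)
  have hk : ((H : SL(2, F)) : PSL(2, F)) * ((dd (Units.mk0 t ht) : SL(2, F)) : PSL(2, F)) *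
      ((H : SL(2, F)) : PSL(2, F)) ∈ C := C.mul_mem (C.mul_mem hh hτ) hh
  have k1 : H • dd (Units.mk0 t ht) • H • z0 F = pt (x * (y - H.1 1 1) / (y + H.1 1 1)) := by
    have e1 : H.1 1 0 * (t ^ 2 * x) = y := by rw [hy]; ring
    rw [hHz, dd_pt, Units.val_mk0, sl_pt H _ (by rw [e1]; exact hyd)]
    congr 1
    rw [e1]
    congr 1
    rw [a1, b1]
    linear_combination x * e1
  have k2 : H • dd (Units.mk0 t ht) • H • w0 F = pt (x * (y + H.1 1 1) / (y - H.1 1 1)) := by
    have e1 : H.1 1 0 * (t ^ 2 * -x) = -y := by rw [hy]; ring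
    have e2 : -y + H.1 1 1 ≠ 0 := by
      intro h0
      apply hyb
      linear_combination -h0
    rw [hHw, dd_pt, Units.val_mk0, sl_pt H _ (by rw [e1]; exact e2)]
    congr 1
    rw [e1, div_eq_div_iff e2 hyb, a1, b1]
    linear_combination (x * (y - H.1 1 1)) * e1
  have h4 := key _ hk (x * (y - H.1 1 1) / (y + H.1 1 1)) (div_ne_zero (mul_ne_zero hx0 hyb) hyd) (by
    simp only [mul_smul]
    exact k1)
  simp only [mul_smul] at h4
  have h5 : H • dd (Units.mk0 t ht) • H • w0 F = pt (-(x * (y - H.1 1 1) / (y + H.1 1 1))) := h4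
  rw [k2] at h5
  have h6 := pt_inj h5
  have h7 : (2 * x) * (y ^ 2 + H.1 1 1 ^ 2) = 0 := by
    field_simp at h6
    linear_combination x * h6
  rcases mul_eq_zero.1 h7 with h8 | h8
  · exact absurd h8 (mul_ne_zero h2 hx0)
  · rw [h8, mul_zero]

/-- the stabiliser of a pair is maximal -/
theorem psl_over1 [Finite F] (h1 : IsSquare (-1 : F)) (h2 : (2 : F) ≠ 0)
    (hF : 9 < Nat.card F) (C : Subgroup PSL(2, F)) (hC : pst PSL(2, F) (z0 F) (w0 F) ≤ C)
    (hC1 : C ≠ ⊤) : C = pst PSL(2, F) (z0 F) (w0 F) := by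
  rcases hC.eq_or_lt with h | h
  · exact h.symm
  exfalso
  have hw : ((ww F : SL(2, F)) : PSL(2, F)) ∈ C := hC ww_mem
  -- an element which moves the first point outside the pair
  obtain ⟨g, hg, hg0, hg1⟩ : ∃ g ∈ C, g • z0 F ≠ z0 F ∧ g • z0 F ≠ w0 F := by
    obtain ⟨g, hg, hgn⟩ := SetLike.exists_of_lt h
    by_cases c1 : g • z0 F ≠ z0 F ∧ g • z0 F ≠ w0 F
    · exact ⟨g, hg, c1⟩
    by_cases c2 : g • w0 F ≠ z0 F ∧ g • w0 F ≠ w0 F
    · refine ⟨g * ((ww F : SL(2, F)) : PSL(2, F)), C.mul_mem hg hw, ?_⟩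
      have h2 : (g * ((ww F : SL(2, F)) : PSL(2, F))) • z0 F = g • w0 F := by
        rw [mul_smul]
        show g • (ww F • z0 F) = _
        rw [ww_z0]
      rw [h2]
      exact c2
    · exfalso
      apply hgn
      have hne : g • z0 F ≠ g • w0 F := fun h => z0_ne_w0 (smul_left_cancel g h)
      by_cases d1 : g • z0 F = z0 F
      · left
        refine ⟨d1, ?_⟩
        by_contra d2
        exact c2 ⟨fun d3 => hne (d1.trans d3.symm), d2⟩
      · have d2 : g • z0 F = w0 F := by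
          by_contra d2
          exact c1 ⟨d1, d2⟩
        right
        refine ⟨d2, ?_⟩
        by_contra d3
        exact c2 ⟨d3, fun d4 => hne (d2.trans d4.symm)⟩
  by_cases hfix : ∀ g ∈ C, g • z0 F = z0 F → g • w0 F = w0 F
  · have := small_of_fix1 h1 h2 C hC hg hg0 hg1 hfix
    omega
  push Not at hfix
  obtain ⟨s, hs, hs1, hs2⟩ := hfix
  -- unipotent elements
  have hu : ∃ x : F, x ≠ 0 ∧ ((uu x : SL(2, F)) : PSL(2, F)) ∈ C := by
    obtain ⟨S, rfl⟩ := QuotientGroup.mk_surjective s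
    have e1 : S.1 1 0 = 0 := (smul_z0 S).1 hs1
    have e2 : S.1 0 1 ≠ 0 := fun h0 => hs2 ((smul_w0 S).2 h0)
    have hdet : S.1 0 0 * S.1 1 1 = 1 := by
      have := S.2
      rw [Matrix.det_fin_two, e1, mul_zero, sub_zero] at this
      exact this
    have e3 : S.1 0 0 ≠ 0 := fun h0 => by rw [h0, zero_mul] at hdet; exact zero_ne_one hdet
    refine ⟨S.1 0 1 * S.1 0 0, mul_ne_zero e2 e3, ?_⟩
    have hτ : ((dd (Units.mk0 _ e3)⁻¹ : SL(2, F)) : PSL(2, F)) ∈ C := hC (dd_mem _)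
    have h3 : uu (S.1 0 1 * S.1 0 0) = S * dd (Units.mk0 _ e3)⁻¹ := by
      have hS11 : S.1 1 1 = (S.1 0 0)⁻¹ := by
        field_simp
        linear_combination hdet
      apply Subtype.ext
      show !![1, S.1 0 1 * S.1 0 0; 0, 1] = S.1 *
        !![(((Units.mk0 _ e3)⁻¹ : Fˣ) : F), 0; 0, (((Units.mk0 _ e3)⁻¹⁻¹ : Fˣ) : F)]
      ext i j
      fin_cases i <;> fin_cases j
      · simp [Matrix.mul_apply, Fin.sum_univ_two, e3]
      · simp [Matrix.mul_apply, Fin.sum_univ_two]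
      · simp [Matrix.mul_apply, Fin.sum_univ_two, e1]
      · simp [Matrix.mul_apply, Fin.sum_univ_two, hS11, e3]
    rw [h3, QuotientGroup.mk_mul]
    exact C.mul_mem hs hτ
  obtain ⟨x, hx0, hx⟩ := hu
  have hall : ∀ y : F, ((uu y : SL(2, F)) : PSL(2, F)) ∈ C := by
    have hsq : ∀ v : Fˣ, ((uu ((v : F) ^ 2 * x) : SL(2, F)) : PSL(2, F)) ∈ C := by
      intro v
      have hτ : ((dd v : SL(2, F)) : PSL(2, F)) ∈ C := hC (dd_mem _)
      have h3 : uu ((v : F) ^ 2 * x) = dd v * uu x * (dd v)⁻¹ := by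
        rw [eq_mul_inv_iff_mul_eq]
        apply Subtype.ext
        show !![1, (v : F) ^ 2 * x; 0, 1] * !![(v : F), 0; 0, ((v⁻¹ : Fˣ) : F)] =
          !![(v : F), 0; 0, ((v⁻¹ : Fˣ) : F)] * !![1, x; 0, 1]
        rw [Matrix.mul_fin_two, Matrix.mul_fin_two]
        ext i j
        fin_cases i <;> fin_cases j
        · simp
        · simp
          field_simp
        · simp
        · simp
      rw [h3, QuotientGroup.mk_mul, QuotientGroup.mk_mul]
      exact C.mul_mem (C.mul_mem hτ hx) (C.inv_mem hτ)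
    have hsq0 : ∀ v : F, ((uu (v ^ 2 * x) : SL(2, F)) : PSL(2, F)) ∈ C := by
      intro v
      by_cases hv : v = 0
      · rw [hv, zero_pow two_ne_zero, zero_mul, uu_zero]
        exact C.one_mem
      · exact hsq (Units.mk0 v hv)
    intro y
    have h3 : uu y = uu (((y / x + 1) / 2) ^ 2 * x) * (uu (((y / x - 1) / 2) ^ 2 * x))⁻¹ := by
      rw [eq_mul_inv_iff_mul_eq, ← uu_mul]
      congr 1
      field_simp
      ring
    rw [h3, QuotientGroup.mk_mul]
    exact C.mul_mem (hsq0 _) (C.inv_mem (hsq0 _))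
  apply hC1
  rw [eq_top_iff]
  have key : ∀ r : PSL(2, F), r • z0 F = z0 F → r ∈ C := by
    intro r hr
    rcases eq_pt (r • w0 F) with h2 | ⟨y, hy⟩
    · exact absurd (smul_left_cancel r (h2.trans hr.symm)).symm z0_ne_w0
    have h3 : ((uu (-y) : SL(2, F)) : PSL(2, F)) * r ∈ C := by
      apply hC
      left
      constructor
      · rw [mul_smul, hr]
        exact uu_z0 _
      · rw [mul_smul, hy]
        show uu (-y) • pt y = _
        rw [uu_pt, add_neg_cancel, pt_zero]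
    have h5 := C.mul_mem (C.inv_mem (hall (-y))) h3
    rwa [inv_mul_cancel_left] at h5
  intro r _
  rcases eq_pt (r • z0 F) with h2 | ⟨y, hy⟩
  · exact key r h2
  have h3 : ((ww F : SL(2, F)) : PSL(2, F)) * (((uu (-y) : SL(2, F)) : PSL(2, F)) * r) ∈ C := by
    apply key
    rw [mul_smul, mul_smul, hy]
    show ww F • uu (-y) • pt y = _
    rw [uu_pt, add_neg_cancel, pt_zero, ww_w0]
  have h5 := C.mul_mem (C.inv_mem (hall (-y))) (C.mul_mem (C.inv_mem hw) h3)
  rwa [inv_mul_cancel_left, inv_mul_cancel_left] at h5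

end Pool.Agent.V8H87.CM
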