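import Pool.Agent.V8H87.CM.Psl

/-!
The groups `PSL(2, q)` with `q` congruent to three modulo four.
-/

set_option autoImplicit false

namespace Pool.Agent.V8H87.CM

open MulAction Matrix Projectivization
open scoped MatrixGroups LinearAlgebra.Projectivization

variable {F : Type} [Field F]

theorem vx1_ne (x : F) : (![x, 1] : Fin 2 → F) ≠ 0 := by
  intro h
  have := congrFun h 1
  simp at this

/-- the affine points -/
noncomputable def pt (x : F) : ℙ F (Fin 2 → F) := Projectivization.mk F ![x, 1] (vx1_ne x)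

theorem pt_zero : pt (0 : F) = w0 F := rfl

theorem pt_inj {x y : F} (h : pt x = pt y) : x = y := by
  unfold pt at h
  rw [Projectivization.mk_eq_mk_iff'] at h
  obtain ⟨a, ha⟩ := h
  have e0 := congrFun ha 0
  have e1 := congrFun ha 1
  simp at e0 e1
  rw [← e0, e1, one_mul]

theorem pt_ne_z0 (x : F) : pt x ≠ z0 F := by
  unfold pt z0
  intro h
  rw [Projectivization.mk_eq_mk_iff'] at h
  obtain ⟨a, ha⟩ := h
  have e1 := congrFun ha 1
  simp at e1

theorem eq_pt (p : ℙ F (Fin 2 → F)) : p = z0 F ∨ ∃ x : F, p = pt x := by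
  obtain ⟨v, hv, rfl⟩ := eq_mk_iff p
  by_cases h1 : v 1 = 0
  · left
    unfold z0
    rw [Projectivization.mk_eq_mk_iff']
    refine ⟨v 0, ?_⟩
    ext i
    fin_cases i
    · simp
    · simp [h1]
  · right
    refine ⟨v 0 / v 1, ?_⟩
    unfold pt
    rw [Projectivization.mk_eq_mk_iff']
    refine ⟨v 1, ?_⟩
    ext i
    fin_cases i
    · simp
      field_simp
    · simp

theorem sl_pt (g : SL(2, F)) (x : F) (h : g.1 1 0 * x + g.1 1 1 ≠ 0) :
    g • pt x = pt ((g.1 0 0 * x + g.1 0 1) / (g.1 1 0 * x + g.1 1 1)) := by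
  obtain ⟨h1, h2⟩ := sl_smul_mk g ![x, 1] (vx1_ne x)
  unfold pt
  rw [h2, Projectivization.mk_eq_mk_iff']
  refine ⟨g.1 1 0 * x + g.1 1 1, ?_⟩
  ext i
  fin_cases i
  · simp [Matrix.mulVec, dotProduct, Fin.sum_univ_two]
    field_simp
  · simp [Matrix.mulVec, dotProduct, Fin.sum_univ_two]

theorem sl_pt_inf (g : SL(2, F)) (x : F) (h : g.1 1 0 * x + g.1 1 1 = 0) :
    g • pt x = z0 F := by
  obtain ⟨h1, h2⟩ := sl_smul_mk g ![x, 1] (vx1_ne x)
  unfold pt z0
  rw [h2, Projectivization.mk_eq_mk_iff']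
  refine ⟨g.1 0 0 * x + g.1 0 1, ?_⟩
  ext i
  fin_cases i
  · simp [Matrix.mulVec, dotProduct, Fin.sum_univ_two]
  · simp [Matrix.mulVec, dotProduct, Fin.sum_univ_two, h]

theorem sl_z0 (g : SL(2, F)) (h : g.1 1 0 ≠ 0) : g • z0 F = pt (g.1 0 0 / g.1 1 0) := by
  obtain ⟨h1, h2⟩ := sl_smul_mk g ![1, 0] v10_ne
  unfold pt z0
  rw [h2, Projectivization.mk_eq_mk_iff']
  refine ⟨g.1 1 0, ?_⟩
  ext i
  fin_cases i
  · simp [Matrix.mulVec, dotProduct, Fin.sum_univ_two]
    field_simp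
  · simp [Matrix.mulVec, dotProduct, Fin.sum_univ_two]

/-- the swap `z ↦ -1/z` -/
def ww (F : Type) [Field F] : SL(2, F) := ⟨!![0, 1; -1, 0], by simp [Matrix.det_fin_two]⟩

theorem ww_z0 : ww F • z0 F = w0 F := by
  rw [sl_z0 _ (by simp [ww]), ← pt_zero]
  simp [ww]

theorem ww_w0 : ww F • w0 F = z0 F := by
  rw [← pt_zero]
  exact sl_pt_inf _ _ (by simp [ww])

theorem ww_pt (x : F) (hx : x ≠ 0) : ww F • pt x = pt (-(1 / x)) := by
  rw [sl_pt _ _ (by simp [ww, hx])]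
  congr 1
  simp [ww]

theorem dd_pt (a : Fˣ) (x : F) : dd a • pt x = pt ((a : F) ^ 2 * x) := by
  rw [sl_pt _ _ (by simp [dd])]
  congr 1
  simp [dd]
  ring

theorem dd_z0 (a : Fˣ) : dd a • z0 F = z0 F := by
  rw [smul_z0]
  simp [dd]

theorem dd_w0 (a : Fˣ) : dd a • w0 F = w0 F := by
  rw [smul_w0]
  simp [dd]

theorem uu_pt (b x : F) : uu b • pt x = pt (x + b) := by
  rw [sl_pt _ _ (by simp [uu])]
  congr 1
  simp [uu]

theorem uu_z0 (b : F) : uu b • z0 F = z0 F := by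
  rw [smul_z0]
  simp [uu]

theorem dd_mem (a : Fˣ) : ((dd a : SL(2, F)) : PSL(2, F)) ∈ pst PSL(2, F) (z0 F) (w0 F) :=
  Or.inl ⟨dd_z0 a, dd_w0 a⟩

theorem ww_mem : ((ww F : SL(2, F)) : PSL(2, F)) ∈ pst PSL(2, F) (z0 F) (w0 F) :=
  Or.inr ⟨ww_z0, ww_w0⟩

/-- every nonzero element is a square or minus a square -/
theorem sq_or [Finite F] (h1 : ¬ IsSquare (-1 : F)) (x : F) (hx : x ≠ 0) :
    ∃ v : Fˣ, x = (v : F) ^ 2 ∨ x = -(v : F) ^ 2 := by
  classical
  have := Fintype.ofFinite F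
  by_cases h : IsSquare x
  · obtain ⟨r, hr⟩ := h
    have hr0 : r ≠ 0 := by
      rintro rfl
      exact hx (by rw [hr, mul_zero])
    exact ⟨Units.mk0 r hr0, Or.inl (by rw [hr, Units.val_mk0]; ring)⟩
  · have h2 : quadraticChar F (-1) = -1 := quadraticChar_neg_one_iff_not_isSquare.2 h1
    have h3 : quadraticChar F x = -1 := quadraticChar_neg_one_iff_not_isSquare.2 h
    have h4 : quadraticChar F (-x) = 1 := by
      rw [← neg_one_mul, map_mul, h2, h3]
      norm_num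
    have h5 : IsSquare (-x) := (quadraticChar_one_iff_isSquare (neg_ne_zero.2 hx)).1 h4
    obtain ⟨r, hr⟩ := h5
    have hr0 : r ≠ 0 := by
      rintro rfl
      exact hx (by rw [← neg_neg x, hr, mul_zero, neg_zero])
    exact ⟨Units.mk0 r hr0, Or.inr (by rw [← neg_neg x, hr, Units.val_mk0]; ring)⟩

open Polynomial in
/-- the polynomial of degree twelve -/
theorem poly_bound [Finite F] {a c d : F} (hc : c ≠ 0) (hd : d ≠ 0)
    (h : ∀ t : F, t ≠ 0 → (a * t ^ 2 + d) * (a * t ^ 2 + c * d) *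
      ((a * t ^ 2) ^ 2 + (1 + c) * d * (a * t ^ 2) + d ^ 2) *
      (c * (a * t ^ 2) ^ 2 + (c + 1) * d * (a * t ^ 2) + c * d ^ 2) = 0) :
    Nat.card F ≤ 13 := by
  classical
  have := Fintype.ofFinite F
  let P : F[X] := (C a * X ^ 2 + C d) * (C a * X ^ 2 + C (c * d)) *
      ((C a * X ^ 2) ^ 2 + C ((1 + c) * d) * (C a * X ^ 2) + C (d ^ 2)) *
      (C c * (C a * X ^ 2) ^ 2 + C ((c + 1) * d) * (C a * X ^ 2) + C (c * d ^ 2))
  have h0 : P ≠ 0 := by
    intro h0
    have h1 : P.eval 0 = 0 := by rw [h0, eval_zero]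
    simp [P, hc, hd] at h1
  have hdeg : P.natDegree ≤ 12 := by
    have e1 : (C a * X ^ 2 + C d : F[X]).natDegree ≤ 2 := by compute_degree
    have e2 : (C a * X ^ 2 + C (c * d) : F[X]).natDegree ≤ 2 := by compute_degree
    have e3 : ((C a * X ^ 2) ^ 2 + C ((1 + c) * d) * (C a * X ^ 2) + C (d ^ 2) : F[X]).natDegree ≤ 4 := by
      compute_degree
    have e4 : (C c * (C a * X ^ 2) ^ 2 + C ((c + 1) * d) * (C a * X ^ 2) + C (c * d ^ 2) :
        F[X]).natDegree ≤ 4 := by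
      compute_degree
    have m1 := Polynomial.natDegree_mul_le_of_le e1 e2
    have m2 := Polynomial.natDegree_mul_le_of_le m1 e3
    exact Polynomial.natDegree_mul_le_of_le m2 e4
  have h2 : (Finset.univ.erase (0 : F)) ⊆ P.roots.toFinset := by
    intro t ht
    rw [Multiset.mem_toFinset, mem_roots h0]
    have h3 := h t (Finset.ne_of_mem_erase ht)
    show P.eval t = 0
    simp only [P, eval_mul, eval_add, eval_C, eval_pow, eval_X]
    exact h3
  have h3 := Finset.card_le_card h2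
  rw [Finset.card_erase_of_mem (Finset.mem_univ _), Finset.card_univ] at h3
  have h4 : P.roots.toFinset.card ≤ 12 :=
    (Multiset.toFinset_card_le _).trans ((card_roots' P).trans hdeg)
  rw [Nat.card_eq_fintype_card]
  omega

/-- The exceptional overgroups of the dihedral group exist only for small `q`. -/
theorem small_of_fix [Finite F] (h1 : ¬ IsSquare (-1 : F)) (C : Subgroup PSL(2, F))
    (hC : pst PSL(2, F) (z0 F) (w0 F) ≤ C) {h : PSL(2, F)} (hh : h ∈ C) (hh1 : h • z0 F = pt 1)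
    (hfix : ∀ g ∈ C, g • z0 F = z0 F → g • w0 F = w0 F) : Nat.card F ≤ 13 := by
  have hfix' : ∀ g ∈ C, ∀ k ∈ C, g • z0 F = k • z0 F → g • w0 F = k • w0 F := by
    intro g hg k hk hgk
    have h2 := hfix (k⁻¹ * g) (C.mul_mem (C.inv_mem hk) hg) (by
      rw [mul_smul, hgk, inv_smul_smul])
    rw [mul_smul, inv_smul_eq_iff] at h2
    exact h2
  obtain ⟨H, rfl⟩ := QuotientGroup.mk_surjective h
  have hh1' : H • z0 F = pt 1 := hh1
  have hw : ((ww F : SL(2, F)) : PSL(2, F)) ∈ C := hC ww_mem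
  have a0 : H.1 1 0 ≠ 0 := by
    intro h0
    have h2 := (smul_z0 H).2 h0
    rw [hh1'] at h2
    exact pt_ne_z0 1 h2
  have a1 : H.1 0 0 = H.1 1 0 := by
    have h2 := sl_z0 H a0
    rw [hh1'] at h2
    have h3 := pt_inj h2
    field_simp at h3
    exact h3.symm
  have hd : H.1 1 1 ≠ 0 := by
    intro h0
    have h2 : H • w0 F = z0 F := by
      rw [← pt_zero]
      exact sl_pt_inf H 0 (by rw [h0]; ring)
    have h3 := hfix _ (C.mul_mem hh hw) (by
      simp only [mul_smul]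
      show H • ww F • z0 F = z0 F
      rw [ww_z0, h2])
    simp only [mul_smul] at h3
    have h4 : H • ww F • w0 F = w0 F := h3
    rw [ww_w0, hh1', ← pt_zero] at h4
    exact one_ne_zero (pt_inj h4)
  have hb : H.1 0 1 ≠ 0 := by
    intro h0
    have h2 : H • w0 F = w0 F := (smul_w0 H).2 h0
    have h3 := hfix' _ (C.mul_mem hh hw) _ hw (by
      simp only [mul_smul]
      show H • ww F • z0 F = ww F • z0 F
      rw [ww_z0, h2])
    simp only [mul_smul] at h3
    have h4 : H • ww F • w0 F = ww F • w0 F := h3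
    rw [ww_w0, hh1'] at h4
    exact pt_ne_z0 1 h4
  obtain ⟨c, hcdef⟩ : ∃ c : F, c = H.1 0 1 / H.1 1 1 := ⟨_, rfl⟩
  have hc : c ≠ 0 := by
    rw [hcdef]
    exact div_ne_zero hb hd
  have hbc : H.1 0 1 = c * H.1 1 1 := by
    rw [hcdef]
    field_simp
  have hdet : H.1 1 0 * H.1 1 1 * (1 - c) = 1 := by
    have h2 := H.2
    rw [Matrix.det_fin_two, a1, hbc] at h2
    linear_combination h2
  have hc1 : c - 1 ≠ 0 := by
    intro h0
    have : (1 : F) - c = 0 := by linear_combination -h0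
    rw [this, mul_zero] at hdet
    exact zero_ne_one hdet
  have hHw : H • w0 F = pt c := by
    rw [← pt_zero, sl_pt H 0 (by rw [mul_zero, zero_add]; exact hd)]
    congr 1
    rw [mul_zero, zero_add, mul_zero, zero_add, hcdef]
  refine poly_bound (a := H.1 1 0) (c := c) (d := H.1 1 1) hc hd ?_
  intro t ht
  obtain ⟨y, hy⟩ : ∃ y : F, y = H.1 1 0 * t ^ 2 := ⟨_, rfl⟩
  rw [← hy]
  by_cases hyd : y + H.1 1 1 = 0
  · rw [hyd]
    ring
  by_cases hyb : y + c * H.1 1 1 = 0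
  · rw [hyb]
    ring
  -- the element `H τ H`
  have hτ : ((dd (Units.mk0 t ht) : SL(2, F)) : PSL(2, F)) ∈ C := hC (dd_mem _)
  have k1 : H • dd (Units.mk0 t ht) • H • z0 F = pt ((y + c * H.1 1 1) / (y + H.1 1 1)) := by
    rw [hh1', dd_pt, Units.val_mk0, mul_one, sl_pt H _ (by rw [← hy]; exact hyd)]
    congr 1
    rw [a1, ← hy, hbc]
  have k2 : H • dd (Units.mk0 t ht) • H • w0 F = H • pt (t ^ 2 * c) := by
    rw [hHw, dd_pt, Units.val_mk0]
  obtain ⟨v, hv⟩ := sq_or h1 ((y + c * H.1 1 1) / (y + H.1 1 1)) (div_ne_zero hyb hyd)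
  have hτv : ((dd v : SL(2, F)) : PSL(2, F)) ∈ C := hC (dd_mem _)
  have hk : ((H : SL(2, F)) : PSL(2, F)) * ((dd (Units.mk0 t ht) : SL(2, F)) : PSL(2, F)) *
      ((H : SL(2, F)) : PSL(2, F)) ∈ C := C.mul_mem (C.mul_mem hh hτ) hh
  have hycd : ∀ e : F, H • pt (t ^ 2 * c) = pt e → y * c + H.1 1 1 ≠ 0 ∧
      (y * c + c * H.1 1 1) / (y * c + H.1 1 1) = e := by
    intro e he
    have h5 : y * c + H.1 1 1 ≠ 0 := by
      intro h0
      have h6 := sl_pt_inf H (t ^ 2 * c) (by rw [← mul_assoc, ← hy]; exact h0)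
      rw [he] at h6
      exact pt_ne_z0 _ h6
    refine ⟨h5, ?_⟩
    have h6 := sl_pt H (t ^ 2 * c) (by rw [← mul_assoc, ← hy]; exact h5)
    rw [he] at h6
    have h7 := pt_inj h6
    rw [h7, a1, ← mul_assoc, ← hy, hbc]
  rcases hv with hv | hv
  · have h4 := hfix' _ hk _ (C.mul_mem hτv hh) (by
      simp only [mul_smul]
      show H • dd (Units.mk0 t ht) • H • z0 F = dd v • H • z0 F
      rw [k1, hh1', dd_pt, hv, mul_one])
    simp only [mul_smul] at h4
    have h5 : H • dd (Units.mk0 t ht) • H • w0 F = dd v • H • w0 F := h4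
    rw [k2, hHw, dd_pt, ← hv] at h5
    obtain ⟨h6, h7⟩ := hycd _ h5
    have h8 : y ^ 2 + (1 + c) * H.1 1 1 * y + H.1 1 1 ^ 2 = 0 := by
      field_simp at h7
      have h9 : c * (c - 1) * (y ^ 2 + (1 + c) * H.1 1 1 * y + H.1 1 1 ^ 2) = 0 := by
        linear_combination -(c : F) * h7
      rcases mul_eq_zero.1 h9 with h10 | h10
      · exact absurd h10 (mul_ne_zero hc hc1)
      · exact h10
    rw [h8]
    ring
  · have h4 := hfix' _ hk _ (C.mul_mem (C.mul_mem hτv hw) hh) (by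
      simp only [mul_smul]
      show H • dd (Units.mk0 t ht) • H • z0 F = dd v • ww F • H • z0 F
      rw [k1, hh1', ww_pt _ one_ne_zero, dd_pt, hv]
      congr 1
      ring)
    simp only [mul_smul] at h4
    have h5 : H • dd (Units.mk0 t ht) • H • w0 F = dd v • ww F • H • w0 F := h4
    rw [k2, hHw, ww_pt _ hc, dd_pt] at h5
    have h5' : (v : F) ^ 2 * -(1 / c) = (y + c * H.1 1 1) / (y + H.1 1 1) / c := by
      rw [hv]
      ring
    rw [h5'] at h5
    obtain ⟨h6, h7⟩ := hycd _ h5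
    have h8 : c * y ^ 2 + (c + 1) * H.1 1 1 * y + c * H.1 1 1 ^ 2 = 0 := by
      field_simp at h7
      have h9 : (c - 1) * (c * y ^ 2 + (c + 1) * H.1 1 1 * y + c * H.1 1 1 ^ 2) = 0 := by
        linear_combination h7
      rcases mul_eq_zero.1 h9 with h10 | h10
      · exact absurd h10 hc1
      · exact h10
    rw [h8]
    ring

end Pool.Agent.V8H87.CM
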