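import Pool.Agent.V8H87.CM.Fac

/-!
A minimal normal subgroup of a finite group is generated by pairwise commuting conjugate simple
subgroups.
-/

set_option autoImplicit false

namespace Pool.Agent.V8H87.CM

section cj

variable {G : Type} [Group G]

/-- the conjugate subgroup `g H g⁻¹` -/
def cj (g : G) (H : Subgroup G) : Subgroup G := H.map (MulAut.conj g).toMonoidHom

theorem mem_cj {g x : G} {H : Subgroup G} : x ∈ cj g H ↔ g⁻¹ * x * g ∈ H := by
  constructor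
  · rintro ⟨y, hy, rfl⟩
    have : g⁻¹ * (MulAut.conj g).toMonoidHom y * g = y := by
      show g⁻¹ * (g * y * g⁻¹) * g = y
      group
    rw [this]
    exact hy
  · intro h
    refine ⟨_, h, ?_⟩
    show g * (g⁻¹ * x * g) * g⁻¹ = x
    group

theorem conj_mem_cj {g x : G} {H : Subgroup G} (hx : x ∈ H) : g * x * g⁻¹ ∈ cj g H := ⟨x, hx, rfl⟩

theorem cj_cj (g h : G) (H : Subgroup G) : cj g (cj h H) = cj (g * h) H := by
  ext x
  rw [mem_cj, mem_cj, mem_cj]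
  have : h⁻¹ * (g⁻¹ * x * g) * h = (g * h)⁻¹ * x * (g * h) := by group
  rw [this]

theorem cj_one (H : Subgroup G) : cj 1 H = H := by
  ext x
  rw [mem_cj]
  simp

theorem cj_inv_cj (g : G) (H : Subgroup G) : cj g⁻¹ (cj g H) = H := by
  rw [cj_cj, inv_mul_cancel, cj_one]

theorem cj_cj_inv (g : G) (H : Subgroup G) : cj g (cj g⁻¹ H) = H := by
  rw [cj_cj, mul_inv_cancel, cj_one]

theorem cj_mono (g : G) {H K : Subgroup G} (h : H ≤ K) : cj g H ≤ cj g K := Subgroup.map_mono h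

theorem cj_bot (g : G) : cj g (⊥ : Subgroup G) = ⊥ := Subgroup.map_bot _

theorem cj_inj {g : G} {H K : Subgroup G} (h : cj g H = cj g K) : H = K := by
  rw [← cj_inv_cj g H, h, cj_inv_cj]

theorem cj_normal (g : G) {N : Subgroup G} (hN : N.Normal) : cj g N = N := by
  ext x
  rw [mem_cj]
  constructor
  · intro h
    have := hN.conj_mem _ h g
    have h2 : g * (g⁻¹ * x * g) * g⁻¹ = x := by group
    rwa [h2] at this
  · intro h
    have := hN.conj_mem _ h g⁻¹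
    rwa [inv_inv] at this

theorem cj_self {g : G} {H : Subgroup G} (hg : g ∈ H) : cj g H = H := by
  ext x
  rw [mem_cj]
  constructor
  · intro h
    have h2 : g * (g⁻¹ * x * g) * g⁻¹ = x := by group
    rw [← h2]
    exact H.mul_mem (H.mul_mem hg h) (H.inv_mem hg)
  · intro h
    exact H.mul_mem (H.mul_mem (H.inv_mem hg) h) hg

theorem cj_of_comm {g : G} {H : Subgroup G} (hg : ∀ x ∈ H, g * x = x * g) : cj g H = H := by
  ext x
  rw [mem_cj]
  constructor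
  · intro h
    have h1 := hg _ h
    have h2 : g⁻¹ * x * g = x := by
      have h3 : g * (g⁻¹ * x * g) = x * g := by group
      rw [h3] at h1
      have h4 : x * g = g⁻¹ * x * g * g := h1
      exact (mul_right_cancel h4).symm
    rwa [h2] at h
  · intro h
    have h2 : g⁻¹ * x * g = x := by
      rw [mul_assoc, ← hg x h, ← mul_assoc, inv_mul_cancel, one_mul]
    rwa [h2]

/-- conjugation as an isomorphism `H ≃* g H g⁻¹` -/
noncomputable def cjEquiv (g : G) (H : Subgroup G) : H ≃* cj g H :=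
  H.equivMapOfInjective _ (MulAut.conj g).injective

theorem cjEquiv_apply (g : G) (H : Subgroup G) (x : H) : (cjEquiv g H x : G) = g * x * g⁻¹ := rfl

/-- `{g | g H g⁻¹ = H}` -/
def nrm (H : Subgroup G) : Subgroup G where
  carrier := {g | cj g H = H}
  one_mem' := cj_one H
  mul_mem' := by
    intro a b ha hb
    show cj (a * b) H = H
    rw [← cj_cj]
    have h1 : cj b H = H := hb
    have h2 : cj a H = H := ha
    rw [h1, h2]
  inv_mem' := by
    intro a ha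
    have h2 : cj a H = H := ha
    show cj a⁻¹ H = H
    conv_lhs => rw [← h2]
    exact cj_inv_cj a H

theorem mem_nrm {g : G} {H : Subgroup G} : g ∈ nrm H ↔ cj g H = H := Iff.rfl

theorem cj_inf (g : G) (H K : Subgroup G) : cj g (H ⊓ K) = cj g H ⊓ cj g K := by
  ext x
  rw [Subgroup.mem_inf, mem_cj, mem_cj, mem_cj, Subgroup.mem_inf]

end cj

/-- `N` is a minimal normal subgroup, generated by the pairwise commuting subgroups in `𝒯`, which are
isomorphic to the simple group `T` and form a conjugacy class. -/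
structure Soc (T : Type) [Group T] {G : Type} [Group G] (N : Subgroup G) (𝒯 : Set (Subgroup G)) :
    Prop where
  normal : N.Normal
  le : ∀ t ∈ 𝒯, t ≤ N
  equiv : ∀ t ∈ 𝒯, Nonempty (T ≃* t)
  conj : ∀ (g : G), ∀ t ∈ 𝒯, cj g t ∈ 𝒯
  trans : ∀ t ∈ 𝒯, ∀ s ∈ 𝒯, ∃ g : G, cj g t = s
  comm : ∀ t ∈ 𝒯, ∀ s ∈ 𝒯, t ≠ s → ∀ x ∈ t, ∀ y ∈ s, x * y = y * x
  norm : ∀ x ∈ N, ∀ t ∈ 𝒯, cj x t = t
  sup : ∀ L : Subgroup G, (∀ t ∈ 𝒯, t ≤ L) → N ≤ L
  ne : 𝒯.Nonempty

theorem exists_soc {T : Type} [Group T] [IsSimpleGroup T] {G : Type} [Group G] [Finite G]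
    [Nontrivial G] (h : ∀ P : Subgroup G, P.Normal → P ≠ ⊥ → IsFactor T P) :
    ∃ (N : Subgroup G) (𝒯 : Set (Subgroup G)), Soc T N 𝒯 := by
  classical
  obtain ⟨N, hN⟩ := (Set.toFinite {N : Subgroup G | N.Normal ∧ N ≠ ⊥}).exists_minimal
    ⟨⊤, inferInstance, top_ne_bot⟩
  obtain ⟨⟨hNn, hN0⟩, hNmin⟩ := hN
  obtain ⟨T₁, hT⟩ := (Set.toFinite {L : Subgroup G | L ≤ N ∧ L ≠ ⊥ ∧ ∀ x ∈ N, cj x L = L}).exists_minimal
    ⟨N, le_rfl, hN0, fun x _ => cj_normal x hNn⟩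
  obtain ⟨⟨hTN, hT0, hTx⟩, hTmin⟩ := hT
  -- all conjugates are invariant and minimal
  have c1 : ∀ g : G, cj g T₁ ≤ N := fun g => by
    rw [← cj_normal g hNn]
    exact cj_mono g hTN
  have c2 : ∀ g : G, cj g T₁ ≠ ⊥ := fun g h1 => hT0 (cj_inj (h1.trans (cj_bot g).symm))
  have c3 : ∀ g : G, ∀ x ∈ N, cj x (cj g T₁) = cj g T₁ := fun g x hx => by
    have h1 : g⁻¹ * x * g ∈ N := by
      have := hNn.conj_mem x hx g⁻¹
      rwa [inv_inv] at this
    have h2 := hTx _ h1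
    rw [cj_cj]
    have h3 : x * g = g * (g⁻¹ * x * g) := by group
    rw [h3, ← cj_cj, h2]
  have c4 : ∀ (g : G) (L : Subgroup G), L ≠ ⊥ → (∀ x ∈ N, cj x L = L) → L ≤ cj g T₁ →
      L = cj g T₁ := by
    intro g L hL0 hLx hL
    have h1 : cj g⁻¹ L ≤ T₁ := by
      rw [← cj_inv_cj g T₁]
      exact cj_mono _ hL
    have h2 : cj g⁻¹ L ≠ ⊥ := fun h => hL0 (cj_inj (h.trans (cj_bot _).symm))
    have h3 : ∀ x ∈ N, cj x (cj g⁻¹ L) = cj g⁻¹ L := by
      intro x hx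
      have h4 : g * x * g⁻¹ ∈ N := hNn.conj_mem x hx g
      rw [cj_cj]
      have h5 : x * g⁻¹ = g⁻¹ * (g * x * g⁻¹) := by group
      rw [h5, ← cj_cj, hLx _ h4]
    have h6 := hTmin ⟨h1.trans hTN, h2, h3⟩ h1
    have h7 : cj g⁻¹ L = T₁ := le_antisymm h1 h6
    rw [← h7, cj_cj_inv]
  have c5 : ∀ g g' : G, cj g T₁ ≠ cj g' T₁ → ∀ x ∈ cj g T₁, ∀ y ∈ cj g' T₁, x * y = y * x := by
    intro g g' hne x hx y hy
    have h1 : cj g T₁ ⊓ cj g' T₁ = ⊥ := by
      by_contra h0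
      have h2 : ∀ x ∈ N, cj x (cj g T₁ ⊓ cj g' T₁) = cj g T₁ ⊓ cj g' T₁ := by
        intro x hx
        rw [cj_inf, c3 g x hx, c3 g' x hx]
      have h3 := c4 g _ h0 h2 inf_le_left
      have h4 := c4 g' _ h0 h2 inf_le_right
      exact hne (h3.symm.trans h4)
    have hxN := c1 g hx
    have hyN := c1 g' hy
    have h5 : x * y * x⁻¹ ∈ cj g' T₁ := by
      rw [← c3 g' x hxN]
      exact conj_mem_cj hy
    have h6 : y * x⁻¹ * y⁻¹ ∈ cj g T₁ := by
      rw [← c3 g y hyN]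
      exact conj_mem_cj ((cj g T₁).inv_mem hx)
    have h7 : x * y * x⁻¹ * y⁻¹ ∈ cj g T₁ ⊓ cj g' T₁ := by
      refine ⟨?_, ?_⟩
      · have : x * y * x⁻¹ * y⁻¹ = x * (y * x⁻¹ * y⁻¹) := by group
        rw [this]
        exact (cj g T₁).mul_mem hx h6
      · exact (cj g' T₁).mul_mem h5 ((cj g' T₁).inv_mem hy)
    rw [h1, Subgroup.mem_bot] at h7
    have h8 : x * y * x⁻¹ * y⁻¹ * (y * x) = y * x := by rw [h7, one_mul]
    have h9 : x * y * x⁻¹ * y⁻¹ * (y * x) = x * y := by group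
    rw [← h9, h8]
  let 𝒯 : Set (Subgroup G) := Set.range fun g : G => cj g T₁
  have hsup : sSup 𝒯 = N := by
    have h1 : sSup 𝒯 ≤ N := sSup_le (by rintro _ ⟨g, rfl⟩; exact c1 g)
    have h2 : sSup 𝒯 ≠ ⊥ := by
      intro h3
      apply c2 1
      rw [eq_bot_iff, ← h3]
      exact le_sSup ⟨1, rfl⟩
    have h3 : (sSup 𝒯).Normal := by
      constructor
      intro n hn g
      have h4 : sSup 𝒯 ≤ cj g⁻¹ (sSup 𝒯) := by
        refine sSup_le ?_
        rintro _ ⟨g', rfl⟩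
        have h5 : cj (g * g') T₁ ≤ sSup 𝒯 := le_sSup ⟨g * g', rfl⟩
        have h6 := cj_mono g⁻¹ h5
        rw [cj_cj] at h6
        have h7 : g⁻¹ * (g * g') = g' := by group
        rwa [h7] at h6
      have h8 := h4 hn
      rw [mem_cj, inv_inv] at h8
      exact h8
    exact le_antisymm h1 (hNmin ⟨h3, h2⟩ h1)
  have hsupL : ∀ L : Subgroup G, (∀ t ∈ 𝒯, t ≤ L) → N ≤ L := fun L hL => by
    rw [← hsup]
    exact sSup_le hL
  -- simplicity
  have hnt : Nontrivial T₁ := (Subgroup.nontrivial_iff_ne_bot _).2 hT0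
  have hsimple : IsSimpleGroup T₁ := by
    refine { exists_pair_ne := hnt.exists_pair_ne, eq_bot_or_eq_top_of_normal := ?_ }
    intro L hL
    by_cases hL0 : L = ⊥
    · exact Or.inl hL0
    right
    have h1 : L.map T₁.subtype ≠ ⊥ := by
      intro h2
      exact hL0 ((Subgroup.map_eq_bot_iff_of_injective _ T₁.subtype_injective).1 h2)
    have h2 : L.map T₁.subtype ≤ T₁ := by
      rintro _ ⟨x, _, rfl⟩
      exact x.2
    have h3 : N ≤ nrm (L.map T₁.subtype) := by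
      refine hsupL _ ?_
      rintro _ ⟨g, rfl⟩ x hx
      rw [mem_nrm]
      by_cases hg : cj g T₁ = cj 1 T₁
      · have hx1 : x ∈ T₁ := by
          have := hx
          change x ∈ cj g T₁ at this
          rwa [hg, cj_one] at this
        have key : ∀ z : G, z ∈ T₁ → L.map T₁.subtype ≤ cj z (L.map T₁.subtype) := by
          rintro z hz _ ⟨y, hy, rfl⟩
          rw [mem_cj]
          have h5 := hL.conj_mem y hy (⟨z, hz⟩⁻¹ : T₁)
          refine ⟨_, h5, ?_⟩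
          show z⁻¹ * (y : G) * z⁻¹⁻¹ = z⁻¹ * (y : G) * z
          rw [inv_inv]
        refine le_antisymm ?_ (key x hx1)
        have h6 := cj_mono x (key x⁻¹ (T₁.inv_mem hx1))
        rwa [cj_cj_inv] at h6
      · refine cj_of_comm fun y hy => ?_
        refine c5 g 1 hg x hx y ?_
        rw [cj_one]
        exact h2 hy
    have h4 : L.map T₁.subtype = cj 1 T₁ :=
      c4 1 _ h1 (fun x hx => h3 hx) (by rw [cj_one]; exact h2)
    rw [cj_one] at h4
    rw [eq_top_iff]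
    rintro ⟨x, hx⟩ -
    rw [← h4] at hx
    obtain ⟨y, hy, hyx⟩ := hx
    have : y = ⟨x, by rw [← hyx]; exact y.2⟩ := Subtype.ext hyx
    rwa [this] at hy
  -- the isomorphism type
  have hfac : IsFactor T N := h N hNn hN0
  have hfin : 𝒯.Finite := Set.toFinite _
  let s : Finset (Subgroup N) := hfin.toFinset.image fun t => t.subgroupOf N
  have hs1 : ∀ t ∈ s, t.Normal := by
    intro t ht
    obtain ⟨t', ht', rfl⟩ := Finset.mem_image.1 ht
    obtain ⟨g, rfl⟩ := (hfin.mem_toFinset.1 ht')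
    constructor
    intro n hn x
    rw [Subgroup.mem_subgroupOf] at hn ⊢
    have h1 := c3 g x x.2
    show (x : G) * n * (x : G)⁻¹ ∈ cj g T₁
    rw [← h1]
    exact conj_mem_cj hn
  have hs2 : (s.sup id : Subgroup N) = ⊤ := by
    rw [eq_top_iff]
    have h1 : N ≤ (s.sup id : Subgroup N).map N.subtype := by
      refine hsupL _ ?_
      rintro _ ⟨g, rfl⟩ x hx
      have h2 : (cj g T₁).subgroupOf N ≤ s.sup id :=
        Finset.le_sup (f := id) (Finset.mem_image.2 ⟨_, hfin.mem_toFinset.2 ⟨g, rfl⟩, rfl⟩)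
      exact ⟨⟨x, c1 g hx⟩, h2 (by rw [Subgroup.mem_subgroupOf]; exact hx), rfl⟩
    rintro ⟨x, hx⟩ -
    obtain ⟨y, hy, hyx⟩ := h1 hx
    have : y = ⟨x, hx⟩ := Subtype.ext hyx
    rwa [this] at hy
  have hfac2 : IsFactor T (s.sup id : Subgroup N) := by
    rw [hs2]
    exact hfac.congr Subgroup.topEquiv.symm
  obtain ⟨t, ht, h5⟩ := factor_finset s hs1 hfac2
  obtain ⟨t', ht', rfl⟩ := Finset.mem_image.1 ht
  obtain ⟨g, rfl⟩ := (hfin.mem_toFinset.1 ht')
  have h6 : IsFactor T T₁ :=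
    (h5.congr (Subgroup.subgroupOfEquivOfLe (c1 g))).congr (cjEquiv g T₁).symm
  obtain ⟨e⟩ := h6.of_simple hsimple
  refine ⟨N, 𝒯, hNn, ?_, ?_, ?_, ?_, ?_, ?_, hsupL, ⟨_, ⟨1, rfl⟩⟩⟩
  · rintro _ ⟨g, rfl⟩
    exact c1 g
  · rintro _ ⟨g, rfl⟩
    exact ⟨e.symm.trans (cjEquiv g T₁)⟩
  · rintro g' _ ⟨g, rfl⟩
    exact ⟨g' * g, (cj_cj g' g T₁).symm⟩
  · rintro _ ⟨g, rfl⟩ _ ⟨g', rfl⟩
    refine ⟨g' * g⁻¹, ?_⟩
    show cj (g' * g⁻¹) (cj g T₁) = cj g' T₁
    rw [cj_cj]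
    have : g' * g⁻¹ * g = g' := by group
    rw [this]
  · rintro _ ⟨g, rfl⟩ _ ⟨g', rfl⟩ hne
    exact c5 g g' hne
  · rintro x hx _ ⟨g, rfl⟩
    exact c3 g x hx

end Pool.Agent.V8H87.CM
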