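import Pool.Agent.V8H87.CM.CritD

/-!
Simple groups with a doubly transitive action: stabilisers of pairs.
-/

set_option autoImplicit false

namespace Pool.Agent.V8H87.CM

open MulAction

variable {T : Type} [Group T] {Ω : Type} [MulAction T Ω]

/-- The stabiliser of the unordered pair `{x, y}`. -/
def pst (T : Type) [Group T] {Ω : Type} [MulAction T Ω] (x y : Ω) : Subgroup T where
  carrier := {g | (g • x = x ∧ g • y = y) ∨ (g • x = y ∧ g • y = x)}
  one_mem' := Or.inl ⟨one_smul _ _, one_smul _ _⟩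
  mul_mem' := by
    rintro a b (⟨h1, h2⟩ | ⟨h1, h2⟩) (⟨h3, h4⟩ | ⟨h3, h4⟩)
    · exact Or.inl ⟨by rw [mul_smul, h3, h1], by rw [mul_smul, h4, h2]⟩
    · exact Or.inr ⟨by rw [mul_smul, h3, h2], by rw [mul_smul, h4, h1]⟩
    · exact Or.inr ⟨by rw [mul_smul, h3, h1], by rw [mul_smul, h4, h2]⟩
    · exact Or.inl ⟨by rw [mul_smul, h3, h2], by rw [mul_smul, h4, h1]⟩
  inv_mem' := by
    rintro a (⟨h1, h2⟩ | ⟨h1, h2⟩)
    · exact Or.inl ⟨by rw [inv_smul_eq_iff, h1], by rw [inv_smul_eq_iff, h2]⟩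
    · exact Or.inr ⟨by rw [inv_smul_eq_iff, h2], by rw [inv_smul_eq_iff, h1]⟩

theorem mem_pst {x y : Ω} {g : T} :
    g ∈ pst T x y ↔ (g • x = x ∧ g • y = y) ∨ (g • x = y ∧ g • y = x) := Iff.rfl

theorem pst_comm (x y : Ω) : pst T x y = pst T y x := by
  ext g
  rw [mem_pst, mem_pst]
  constructor
  · rintro (⟨h1, h2⟩ | ⟨h1, h2⟩)
    · exact Or.inl ⟨h2, h1⟩
    · exact Or.inr ⟨h2, h1⟩
  · rintro (⟨h1, h2⟩ | ⟨h1, h2⟩)
    · exact Or.inl ⟨h2, h1⟩
    · exact Or.inr ⟨h2, h1⟩

theorem pst_smul (x y : Ω) (s : T) : pst T (s • x) (s • y) = cj s (pst T x y) := by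
  ext g
  rw [mem_cj, mem_pst, mem_pst]
  have h : ∀ u v : Ω, (s⁻¹ * g * s) • u = v ↔ g • s • u = s • v := by
    intro u v
    rw [mul_smul, mul_smul, inv_smul_eq_iff]
  rw [h, h, h, h]

/-- double transitivity -/
def TwoTrans (T : Type) [Group T] (Ω : Type) [MulAction T Ω] : Prop :=
  ∀ x y u v : Ω, x ≠ y → u ≠ v → ∃ g : T, g • x = u ∧ g • y = v

/-- The class of the point stabilisers is invariant under automorphisms. -/
def StabInv (T : Type) [Group T] (Ω : Type) [MulAction T Ω] : Prop :=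
  ∀ (α : MulAut T) (x : Ω), ∃ y : Ω, (stabilizer T x).map α.toMonoidHom = stabilizer T y

section two

variable (h2 : TwoTrans T Ω) (h3 : ∀ x y : Ω, ∃ z : Ω, z ≠ x ∧ z ≠ y)

include h2 h3

theorem stab_inj {x y : Ω} (h : stabilizer T x = stabilizer T y) : x = y := by
  by_contra hxy
  obtain ⟨z, hzx, hzy⟩ := h3 x y
  obtain ⟨g, hg1, hg2⟩ := h2 x y x z hxy (Ne.symm hzx)
  have h4 : g ∈ stabilizer T y := by rw [← h]; exact hg1
  exact hzy (hg2.symm.trans h4)

theorem aut_perm (α : MulAut T) (σ : Ω → Ω)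
    (hσ : ∀ x, (stabilizer T x).map α.toMonoidHom = stabilizer T (σ x)) :
    (∀ (g : T) (x : Ω), α g • σ x = σ (g • x)) ∧ Function.Injective σ := by
  constructor
  · intro g x
    apply stab_inj h2 h3
    rw [← hσ (g • x)]
    ext s
    rw [mem_stabilizer_iff]
    constructor
    · intro hs
      have h4 : (α g)⁻¹ * s * α g ∈ stabilizer T (σ x) := by
        rw [mem_stabilizer_iff, mul_smul, mul_smul, hs, inv_smul_smul]
      rw [← hσ x] at h4
      obtain ⟨r, hr, hrs⟩ := h4
      have hr' : r • x = x := hr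
      refine ⟨g * r * g⁻¹, ?_, ?_⟩
      · show (g * r * g⁻¹) • g • x = g • x
        rw [mul_smul, mul_smul, inv_smul_smul, hr']
      · have hrs' : α r = (α g)⁻¹ * s * α g := hrs
        show α (g * r * g⁻¹) = s
        rw [map_mul, map_mul, map_inv, hrs']
        group
    · rintro ⟨r, hr, rfl⟩
      have hr' : r • g • x = g • x := hr
      have h4 : g⁻¹ * r * g ∈ stabilizer T x := by
        rw [mem_stabilizer_iff, mul_smul, mul_smul, hr', inv_smul_smul]
      have h5 : α (g⁻¹ * r * g) ∈ stabilizer T (σ x) := by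
        rw [← hσ x]
        exact ⟨_, h4, rfl⟩
      have h6 : α (g⁻¹ * r * g) • σ x = σ x := h5
      rw [map_mul, map_mul, map_inv, mul_smul, mul_smul, inv_smul_eq_iff] at h6
      exact h6
  · intro x y hxy
    apply stab_inj h2 h3
    apply Subgroup.map_injective (f := α.toMonoidHom) α.injective
    rw [hσ x, hσ y, hxy]

theorem pst_map (α : MulAut T) (σ : Ω → Ω)
    (hσ : ∀ x, (stabilizer T x).map α.toMonoidHom = stabilizer T (σ x)) (x y : Ω) :
    (pst T x y).map α.toMonoidHom = pst T (σ x) (σ y) := by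
  obtain ⟨h4, h5⟩ := aut_perm h2 h3 α σ hσ
  ext g
  constructor
  · rintro ⟨r, hr, rfl⟩
    show (α r • σ x = σ x ∧ α r • σ y = σ y) ∨ (α r • σ x = σ y ∧ α r • σ y = σ x)
    rw [h4, h4]
    rcases hr with ⟨h6, h7⟩ | ⟨h6, h7⟩
    · left; rw [h6, h7]; exact ⟨rfl, rfl⟩
    · right; rw [h6, h7]; exact ⟨rfl, rfl⟩
  · intro hg
    obtain ⟨r, rfl⟩ := α.surjective g
    refine ⟨r, ?_, rfl⟩
    rcases hg with ⟨h6, h7⟩ | ⟨h6, h7⟩
    · left
      rw [h4] at h6 h7
      exact ⟨h5 h6, h5 h7⟩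
    · right
      rw [h4] at h6 h7
      exact ⟨h5 h6, h5 h7⟩

/-- **Pairs.** Let `T` be a simple group with a doubly transitive action of degree at least three whose
class of point stabilisers is invariant under automorphisms. If each proper subgroup which contains the
stabiliser of a pair has even index, then `T` is not a composition factor of a finite group whose maximal
subgroups have complements. -/
theorem pairs [IsSimpleGroup T] (hinv : StabInv T Ω) {x₀ y₀ : Ω} (hxy : x₀ ≠ y₀)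
    (hov : ∀ C : Subgroup T, pst T x₀ y₀ ≤ C → C ≠ ⊤ → 2 ∣ C.index)
    (G : Type) [Group G] [Finite G] (hG : MaxCompl G) : ¬ IsFactor T G := by
  refine criterion' (A := pst T x₀ y₀) ?_ ?_ ?_ Nat.prime_two hov ?_ G hG
  · intro h
    obtain ⟨g, hg1, hg2⟩ := h2 x₀ y₀ y₀ x₀ hxy hxy.symm
    have h4 : g ∈ pst T x₀ y₀ := Or.inr ⟨hg1, hg2⟩
    rw [h, Subgroup.mem_bot] at h4
    rw [h4, one_smul] at hg1
    exact hxy hg1
  · intro h
    obtain ⟨z, hzx, hzy⟩ := h3 x₀ y₀
    obtain ⟨g, hg1, hg2⟩ := h2 x₀ y₀ x₀ z hxy hzx.symm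
    have h4 : g ∈ pst T x₀ y₀ := by rw [h]; exact Subgroup.mem_top _
    rcases h4 with ⟨h5, h6⟩ | ⟨h5, h6⟩
    · exact hzy (hg2.symm.trans h6)
    · exact hxy (hg1.symm.trans h5)
  · intro α
    choose σ hσ using hinv α
    obtain ⟨h4, h5⟩ := aut_perm h2 h3 α σ hσ
    obtain ⟨s, hs1, hs2⟩ := h2 x₀ y₀ (σ x₀) (σ y₀) hxy (fun h => hxy (h5 h))
    exact ⟨s, by rw [pst_map h2 h3 α σ hσ, ← hs1, ← hs2, pst_smul]⟩
  · intro α hα
    choose σ hσ using hinv α
    obtain ⟨h4, h5⟩ := aut_perm h2 h3 α σ hσ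
    have h6 : ∀ x, σ (σ x) = x := by
      intro x
      apply stab_inj h2 h3
      rw [← hσ (σ x), ← hσ x, Subgroup.map_map]
      have h7 : α.toMonoidHom.comp α.toMonoidHom = MonoidHom.id T := by
        ext s
        have h8 : (α ^ 2) s = s := by rw [hα]; rfl
        rw [pow_two] at h8
        exact h8
      rw [h7, Subgroup.map_id]
    by_cases hx : ∃ x, σ x ≠ x
    · obtain ⟨x, hx⟩ := hx
      obtain ⟨s, hs1, hs2⟩ := h2 x₀ y₀ x (σ x) hxy hx.symm
      refine ⟨s, ?_⟩
      rw [← pst_smul, hs1, hs2, pst_map h2 h3 α σ hσ, h6, pst_comm]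
    · push Not at hx
      refine ⟨1, ?_⟩
      rw [← pst_smul, pst_map h2 h3 α σ hσ, hx, hx]

omit h3 in
/-- a subgroup of odd index which contains the stabiliser of a pair is everything, if the degree is
`2 ^ a + 1` -/
theorem odd_index_top [Finite T] [Finite Ω] {a : ℕ} (hn : Nat.card Ω = 2 ^ a + 1) (ha : a ≠ 0)
    {x₀ y₀ : Ω} (hxy : x₀ ≠ y₀) (hfix : ∀ z : Ω, ∃ g ∈ pst T x₀ y₀, g • z ≠ z)
    (C : Subgroup T) (hC : pst T x₀ y₀ ≤ C) (hodd : ¬ 2 ∣ C.index) : C = ⊤ := by
  classical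
  have : Fact (Nat.Prime 2) := ⟨Nat.prime_two⟩
  obtain ⟨S₀⟩ : Nonempty (Sylow 2 C) := inferInstance
  let S : Subgroup T := (S₀ : Subgroup C).map C.subtype
  have hS2 : IsPGroup 2 S := S₀.2.map _
  have hSC : S ≤ C := Subgroup.map_subtype_le _
  have hSi : ¬ 2 ∣ S.index := by
    show ¬ 2 ∣ ((S₀ : Subgroup C).map C.subtype).index
    rw [Subgroup.index_map_subtype]
    intro h
    rcases (Nat.Prime.dvd_mul Nat.prime_two).1 h with h | h
    · exact S₀.not_dvd_index h
    · exact hodd h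
  obtain ⟨z, hz⟩ : (fixedPoints S Ω).Nonempty := by
    refine hS2.nonempty_fixed_point_of_prime_not_dvd_card Ω ?_
    rw [hn]
    intro h
    have h4 : 2 ∣ 2 ^ a := dvd_pow_self 2 ha
    have h5 := (Nat.dvd_add_right h4).1 h
    omega
  have hzS : ∀ s ∈ S, s • z = z := fun s hs => hz ⟨s, hs⟩
  -- `S` is transitive on the other points
  have htr : ∀ w w' : Ω, w ≠ z → w' ≠ z → ∃ s ∈ S, s • w = w' := by
    intro w w' hw hw'
    let D : Subgroup T := stabilizer T w ⊓ S
    let E : Subgroup T := stabilizer T z ⊓ stabilizer T w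
    have hDE : D ≤ E := fun g hg => ⟨hzS g hg.2, hg.1⟩
    have h4 : E.relIndex (stabilizer T z) = 2 ^ a := by
      have h5 : E.relIndex (stabilizer T z) =
          (stabilizer (stabilizer T z) w).index := by
        unfold Subgroup.relIndex
        congr 1
        ext g
        constructor
        · intro hg
          exact hg.2
        · intro hg
          exact ⟨g.2, hg⟩
      rw [h5, index_stabilizer]
      have h6 : orbit (stabilizer T z) w = {z}ᶜ := by
        ext u
        constructor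
        · rintro ⟨g, rfl⟩ hu
          have hu' : (g : T) • w = z := hu
          have hg : (g : T) • z = z := g.2
          exact hw (smul_left_cancel (g : T) (hu'.trans hg.symm))
        · intro hu
          obtain ⟨g, hg1, hg2⟩ := h2 z w z u hw.symm (Ne.symm hu)
          exact ⟨⟨g, hg1⟩, hg2⟩
      rw [h6, Set.ncard_compl, Set.ncard_singleton, hn]
      rfl
    have h5 : 2 ^ a ∣ E.index := by
      have h6 : E.relIndex (stabilizer T z) * (stabilizer T z).index = E.index :=
        Subgroup.relIndex_mul_index inf_le_left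
      rw [h4] at h6
      exact ⟨_, h6.symm⟩
    have h6 : 2 ^ a ∣ D.index := h5.trans (Subgroup.index_dvd_of_le hDE)
    have h7 : D.relIndex S * S.index = D.index := Subgroup.relIndex_mul_index inf_le_right
    have h8 : 2 ^ a ∣ D.relIndex S := by
      rw [← h7] at h6
      refine Nat.Coprime.dvd_of_dvd_mul_right ?_ h6
      refine Nat.Coprime.pow_left a ?_
      exact (Nat.Prime.coprime_iff_not_dvd Nat.prime_two).2 hSi
    have h9 : D.relIndex S = (orbit S w).ncard := by
      rw [← index_stabilizer]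
      unfold Subgroup.relIndex
      congr 1
      ext g
      constructor
      · intro hg
        exact hg.1
      · intro hg
        exact ⟨hg, g.2⟩
    have h10 : orbit S w ⊆ {z}ᶜ := by
      rintro _ ⟨g, rfl⟩ hu
      have hu' : (g : T) • w = z := hu
      have hg : (g : T) • z = z := hzS g g.2
      exact hw (smul_left_cancel (g : T) (hu'.trans hg.symm))
    have h11 : ({z}ᶜ : Set Ω).ncard = 2 ^ a := by
      rw [Set.ncard_compl, Set.ncard_singleton, hn]
      rfl
    have h12 : orbit S w = {z}ᶜ := by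
      refine Set.eq_of_subset_of_ncard_le h10 ?_ (Set.toFinite _)
      rw [h11, ← h9]
      refine Nat.le_of_dvd ?_ h8
      rw [h9]
      exact (Set.ncard_pos (Set.toFinite _)).2 ⟨w, mem_orbit_self w⟩
    have h13 : w' ∈ orbit S w := by rw [h12]; exact hw'
    obtain ⟨s, hs⟩ := h13
    exact ⟨s, s.2, hs⟩
  obtain ⟨c₀, hc₀, hcz⟩ := hfix z
  -- `C` is transitive
  have htrC : ∀ u : Ω, ∃ c ∈ C, c • z = u := by
    intro u
    by_cases hu : u = z
    · exact ⟨1, C.one_mem, by rw [one_smul, hu]⟩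
    · obtain ⟨s, hs, hsu⟩ := htr (c₀ • z) u hcz hu
      exact ⟨s * c₀, C.mul_mem (hSC hs) (hC hc₀), by rw [mul_smul, hsu]⟩
  rw [eq_top_iff]
  intro g _
  obtain ⟨c₁, hc₁, h4⟩ := htrC x₀
  obtain ⟨c₂, hc₂, h5⟩ := htrC (g • x₀)
  obtain ⟨s, hs, h6⟩ := htr (c₁⁻¹ • y₀) (c₂⁻¹ • g • y₀)
    (by
      intro h
      rw [inv_smul_eq_iff, h4] at h
      exact hxy h.symm)
    (by
      intro h
      rw [inv_smul_eq_iff, h5] at h
      exact hxy (smul_left_cancel g h).symm)
  have h7 : (c₂ * s * c₁⁻¹)⁻¹ * g ∈ pst T x₀ y₀ := by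
    left
    constructor
    · rw [mul_smul, inv_smul_eq_iff, mul_smul, mul_smul]
      rw [show c₁⁻¹ • x₀ = z by rw [inv_smul_eq_iff, h4], hzS s hs, h5]
    · rw [mul_smul, inv_smul_eq_iff, mul_smul, mul_smul, h6, smul_inv_smul]
  have h8 : g = (c₂ * s * c₁⁻¹) * ((c₂ * s * c₁⁻¹)⁻¹ * g) := by group
  rw [h8]
  exact C.mul_mem (C.mul_mem (C.mul_mem hc₂ (hSC hs)) (C.inv_mem hc₁)) (hC h7)

end two

/-- **Degree `2 ^ a + 1`.** -/
theorem degree_two_pow [IsSimpleGroup T] [Finite T] [Finite Ω] (h2 : TwoTrans T Ω)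
    (hinv : StabInv T Ω) {a : ℕ} (hn : Nat.card Ω = 2 ^ a + 1) (ha : a ≠ 0)
    (hfix : ∀ x y z : Ω, x ≠ y → ∃ g ∈ pst T x y, g • z ≠ z)
    (G : Type) [Group G] [Finite G] (hG : MaxCompl G) : ¬ IsFactor T G := by
  have h4 : 2 < Nat.card Ω := by
    rw [hn]
    have : 2 ≤ 2 ^ a := Nat.le_self_pow ha 2
    omega
  have h3 : ∀ x y : Ω, ∃ z : Ω, z ≠ x ∧ z ≠ y := by
    classical
    have := Fintype.ofFinite Ω
    intro x y
    by_contra h
    push Not at h
    have h5 : (Finset.univ : Finset Ω) ⊆ {x, y} := by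
      intro z _
      rw [Finset.mem_insert, Finset.mem_singleton]
      by_cases hz : z = x
      · exact Or.inl hz
      · exact Or.inr (h z hz)
    have h6 := Finset.card_le_card h5
    rw [Finset.card_univ, ← Nat.card_eq_fintype_card] at h6
    have h7 := Finset.card_le_two (a := x) (b := y)
    omega
  have : Nontrivial Ω := Finite.one_lt_card_iff_nontrivial.1 (by omega)
  obtain ⟨x, y, hxy⟩ := exists_pair_ne Ω
  refine pairs h2 h3 hinv hxy (fun C hC hC1 => ?_) G hG
  by_contra hodd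
  exact hC1 (odd_index_top h2 hn ha hxy (fun z => hfix x y z hxy) C hC hodd)

theorem stab_smul (g : T) (x : Ω) : stabilizer T (g • x) = cj g (stabilizer T x) := by
  ext s
  rw [mem_cj, mem_stabilizer_iff, mem_stabilizer_iff, mul_smul, mul_smul, inv_smul_eq_iff]

theorem nrm_cj (g : T) (V : Subgroup T) : nrm (cj g V) = cj g (nrm V) := by
  ext s
  rw [mem_cj, mem_nrm, mem_nrm]
  constructor
  · intro h
    rw [← cj_cj, ← cj_cj, h, cj_inv_cj]
  · intro h
    rw [← cj_cj, ← cj_cj] at h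
    have h1 := congrArg (cj g) h
    rwa [cj_cj_inv] at h1

theorem cj_map (α : MulAut T) (g : T) (V : Subgroup T) :
    (cj g V).map α.toMonoidHom = cj (α g) (V.map α.toMonoidHom) := by
  ext s
  rw [mem_cj]
  constructor
  · rintro ⟨_, ⟨v, hv, rfl⟩, rfl⟩
    refine ⟨v, hv, ?_⟩
    show α v = (α g)⁻¹ * α (g * v * g⁻¹) * α g
    rw [map_mul, map_mul, map_inv]
    group
  · rintro ⟨v, hv, h⟩
    have h' : α v = (α g)⁻¹ * s * α g := h
    refine ⟨g * v * g⁻¹, ⟨v, hv, rfl⟩, ?_⟩
    show α (g * v * g⁻¹) = s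
    rw [map_mul, map_mul, map_inv, h']
    group

theorem nrm_map (α : MulAut T) (V : Subgroup T) :
    (nrm V).map α.toMonoidHom = nrm (V.map α.toMonoidHom) := by
  ext s
  obtain ⟨r, rfl⟩ := α.surjective s
  rw [mem_nrm, ← cj_map]
  constructor
  · rintro ⟨v, hv, h⟩
    have h' : v = r := α.injective h
    subst h'
    have hv' : cj v V = V := hv
    rw [hv']
  · intro h
    exact ⟨r, Subgroup.map_injective (f := α.toMonoidHom) α.injective h, rfl⟩

/-- The point stabilisers are the normalisers of the Sylow subgroups for a prime. -/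
theorem stabInv_of [Finite T] [Finite Ω] (h2 : TwoTrans T Ω) {z w : Ω} (hzw : z ≠ w)
    (V : Subgroup T) {p : ℕ} [hp : Fact p.Prime] (hV : IsPGroup p V)
    (hVz : ∀ v ∈ V, v • z = z) (hVn : ∀ g : T, g • z = z → cj g V = V)
    (htr : ∀ u : Ω, u ≠ z → ∃ v ∈ V, v • w = u)
    (hfix : ∀ u : Ω, (∀ v ∈ V, v • u = u) → u = z)
    (hE : ¬ p ∣ Nat.card (stabilizer T z ⊓ stabilizer T w : Subgroup T)) (hΩ : ¬ p ∣ Nat.card Ω) :
    StabInv T Ω := by
  classical
  let E : Subgroup T := stabilizer T z ⊓ stabilizer T w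
  have hn : ({z}ᶜ : Set Ω).ncard = Nat.card Ω - 1 := by
    rw [Set.ncard_compl, Set.ncard_singleton]
  have htrT : ∀ x : Ω, ∃ g : T, g • z = x := by
    intro x
    by_cases hx : x = z
    · exact ⟨1, by rw [one_smul, hx]⟩
    · obtain ⟨g, hg, -⟩ := h2 z x x z (Ne.symm hx) hx
      exact ⟨g, hg⟩
  have h4 : (stabilizer T z).index = Nat.card Ω := by
    rw [index_stabilizer]
    have : orbit T z = Set.univ := by
      rw [Set.eq_univ_iff_forall]
      intro x
      exact htrT x
    rw [this, Set.ncard_univ]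
  have h5 : E.relIndex (stabilizer T z) = Nat.card Ω - 1 := by
    have h5 : E.relIndex (stabilizer T z) =
        (stabilizer (stabilizer T z) w).index := by
      unfold Subgroup.relIndex
      congr 1
      ext g
      constructor
      · intro hg
        exact hg.2
      · intro hg
        exact ⟨g.2, hg⟩
    rw [h5, index_stabilizer]
    have h6 : orbit (stabilizer T z) w = {z}ᶜ := by
      ext u
      constructor
      · rintro ⟨g, rfl⟩ hu
        have hu' : (g : T) • w = z := hu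
        have hg : (g : T) • z = z := g.2
        exact hzw (smul_left_cancel (g : T) (hu'.trans hg.symm)).symm
      · intro hu
        obtain ⟨v, hv, hvu⟩ := htr u hu
        exact ⟨⟨v, hVz v hv⟩, hvu⟩
    rw [h6, hn]
  have h6 : Nat.card Ω - 1 ∣ Nat.card V := by
    have h7 : orbit V w = {z}ᶜ := by
      ext u
      constructor
      · rintro ⟨g, rfl⟩ hu
        have hu' : (g : T) • w = z := hu
        have hg : (g : T) • z = z := hVz g g.2
        exact hzw (smul_left_cancel (g : T) (hu'.trans hg.symm)).symm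
      · intro hu
        obtain ⟨v, hv, hvu⟩ := htr u hu
        exact ⟨⟨v, hv⟩, hvu⟩
    rw [← hn, ← h7, ← index_stabilizer]
    exact Subgroup.index_dvd_card _
  have h7 : ¬ p ∣ V.index := by
    obtain ⟨k, hk⟩ := h6
    have h8 : Nat.card V * V.index = Nat.card T := Subgroup.card_mul_index V
    have h9 : Nat.card E * E.index = Nat.card T := Subgroup.card_mul_index E
    have h10 : E.relIndex (stabilizer T z) * (stabilizer T z).index = E.index :=
      Subgroup.relIndex_mul_index inf_le_left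
    rw [h4, h5] at h10
    have h11 : 0 < Nat.card Ω - 1 := by
      rw [← hn]
      exact (Set.ncard_pos (Set.toFinite _)).2 ⟨w, fun h => hzw h.symm⟩
    have h12 : k * V.index = Nat.card E * Nat.card Ω := by
      refine Nat.eq_of_mul_eq_mul_left h11 ?_
      rw [← mul_assoc, ← hk, h8, ← h9, ← h10]
      ring
    intro h13
    have h14 : p ∣ Nat.card E * Nat.card Ω := by
      rw [← h12]
      exact h13.mul_left _
    rcases (Nat.Prime.dvd_mul hp.out).1 h14 with h | h
    · exact hE h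
    · exact hΩ h
  let P : Sylow p T := hV.toSylow h7
  have hPV : (P : Subgroup T) = V := rfl
  have hst : stabilizer T z = nrm V := by
    ext g
    rw [mem_nrm, mem_stabilizer_iff]
    constructor
    · exact hVn g
    · intro hg
      apply hfix
      intro v hv
      rw [← hg] at hv
      obtain ⟨r, hr, hrv⟩ := hv
      have hrv' : g * r * g⁻¹ = v := hrv
      rw [← hrv', mul_smul, mul_smul, inv_smul_smul, hVz r hr]
  intro α x
  obtain ⟨g, rfl⟩ := htrT x
  let Q : Sylow p T := P.mapSurjective (f := α.toMonoidHom) α.surjective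
  obtain ⟨s, hs⟩ := MulAction.exists_smul_eq T P Q
  have h8 : V.map α.toMonoidHom = cj s V := by
    have h9 : ((s • P : Sylow p T) : Subgroup T) = (P : Subgroup T).map α.toMonoidHom := by
      rw [hs]
      rfl
    rw [hPV] at h9
    rw [← h9]
    rfl
  refine ⟨α g • s • z, ?_⟩
  rw [stab_smul, cj_map, hst, nrm_map, h8, nrm_cj, ← hst, ← stab_smul, ← stab_smul]

end Pool.Agent.V8H87.CM
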